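import Pool.Graph.R_pool_sql_team_seeded_620a6dc7.Results.MP_54f242_pr.InfraredMean

/-!
# Sums over the clusters of squares of linear functionals
-/

set_option autoImplicit false

open MeasureTheory Filter Topology

namespace Pool.Agent.H74.IB

open Pool.Agent.Results.MP_54f242_pr.InfraredMean

variable {d : ℕ}

/-- the sum over the connected components of the squares -/
theorem sum_components {V ι : Type*} (G : SimpleGraph V) (I : Finset ι) (a : ι → V) (g : ι → ℝ)
    [∀ (c : G.ConnectedComponent) i, Decidable (a i ∈ c.supp)]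
    [∀ i j, Decidable (G.Reachable (a i) (a j))] :
    ∑ᶠ c : G.ConnectedComponent, (∑ i ∈ I, g i * (if a i ∈ c.supp then 1 else 0)) ^ 2 =
      ∑ i ∈ I, ∑ j ∈ I, if G.Reachable (a i) (a j) then g i * g j else 0 := by
  classical
  have hs : Function.support (fun c : G.ConnectedComponent =>
      (∑ i ∈ I, g i * (if a i ∈ c.supp then (1 : ℝ) else 0)) ^ 2) ⊆
      ((I.image fun i => G.connectedComponentMk (a i) : Finset G.ConnectedComponent) :
        Set G.ConnectedComponent) := by
    intro c hc
    by_contra h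
    apply hc
    have : ∀ i ∈ I, ¬ (a i ∈ c.supp) := by
      intro i hi hic
      apply h
      rw [Finset.mem_coe, Finset.mem_image]
      exact ⟨i, hi, hic⟩
    change (∑ i ∈ I, g i * (if a i ∈ c.supp then (1 : ℝ) else 0)) ^ 2 = 0
    rw [Finset.sum_eq_zero, sq, mul_zero]
    intro i hi
    rw [if_neg (this i hi), mul_zero]
  rw [finsum_eq_sum_of_support_subset _ hs]
  have h2 : ∀ c : G.ConnectedComponent,
      (∑ i ∈ I, g i * (if a i ∈ c.supp then (1 : ℝ) else 0)) ^ 2 =
      ∑ i ∈ I, ∑ j ∈ I, (if G.connectedComponentMk (a i) = c then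
        (if G.connectedComponentMk (a j) = c then g i * g j else 0) else 0) := by
    intro c
    rw [sq, Finset.sum_mul_sum]
    refine Finset.sum_congr rfl fun x _ => Finset.sum_congr rfl fun y _ => ?_
    simp only [SimpleGraph.ConnectedComponent.mem_supp_iff]
    split_ifs <;> simp
  simp_rw [h2]
  rw [Finset.sum_comm]
  refine Finset.sum_congr rfl fun x hx => ?_
  rw [Finset.sum_comm]
  refine Finset.sum_congr rfl fun y hy => ?_
  rw [Finset.sum_ite_eq, if_pos (Finset.mem_image_of_mem _ hx)]
  by_cases h : G.connectedComponentMk (a y) = G.connectedComponentMk (a x)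
  · rw [if_pos h, if_pos (SimpleGraph.ConnectedComponent.eq.1 h.symm)]
  · rw [if_neg h, if_neg (fun h' => h (SimpleGraph.ConnectedComponent.eq.2 h').symm)]

/-- the quadratic form of the two-point function -/
noncomputable def quad {ι : Type*} (d : ℕ) (p : NNReal) (hp : p ≤ 1) (I : Finset ι) (a : ι → Fin d → ℤ)
    (g : ι → ℝ) : ℝ := ∑ i ∈ I, ∑ j ∈ I, g i * g j * tau d p hp (a j - a i)

open Classical in
/-- its probabilistic meaning -/
theorem integral_components {ι : Type*} (p : NNReal) (hp : p ≤ 1) (I : Finset ι) (a : ι → Fin d → ℤ)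
    (g : ι → ℝ) :
    ∫ ω, ∑ᶠ c : (opn ω).ConnectedComponent, (∑ i ∈ I, g i * (if a i ∈ c.supp then 1 else 0)) ^ 2 ∂(P d p hp) =
      quad d p hp I a g := by
  have h0 : ∀ ω, ∑ᶠ c : (opn (d := d) ω).ConnectedComponent,
      (∑ i ∈ I, g i * (if a i ∈ c.supp then (1 : ℝ) else 0)) ^ 2 =
      ∑ i ∈ I, ∑ j ∈ I, Set.indicator {ω | (opn (d := d) ω).Reachable (a i) (a j)} (fun _ => g i * g j) ω := by
    intro ω
    rw [sum_components]
    refine Finset.sum_congr rfl fun i _ => Finset.sum_congr rfl fun j _ => ?_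
    rw [Set.indicator_apply]
    rfl
  simp_rw [h0]
  have hint : ∀ i j : ι, Integrable (Set.indicator {ω | (opn (d := d) ω).Reachable (a i) (a j)}
        (fun _ => g i * g j)) (P d p hp) := fun i j =>
    (integrable_const _).indicator (meas_reach _ _)
  rw [integral_finset_sum _ (fun x _ => integrable_finset_sum _ (fun y _ => hint x y))]
  unfold quad
  refine Finset.sum_congr rfl fun i _ => ?_
  rw [integral_finset_sum _ (fun y _ => hint i y)]
  refine Finset.sum_congr rfl fun j _ => ?_
  rw [integral_indicator_const _ (meas_reach _ _), ← prob_reach p hp]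
  simp only [smul_eq_mul, measureReal_def]
  ring

/-- Fourier inversion for the two-point function -/
theorem inversion (p : NNReal) (hp : p ≤ 1) (hs : Summable (tau d p hp)) (x : Fin d → ℤ) :
    ∫ k in cube d, cs (tau d p hp) k * Real.cos (dot k x) = (2 * Real.pi) ^ d * tau d p hp x := by
  have ha : Summable fun x => |tau d p hp x| := by simpa only [abs_of_nonneg (tau_nonneg p hp _)] using hs
  rw [int_cs_mul _ ha (fun k => Real.cos (dot k x)) (by unfold dot; fun_prop) 1
    (fun k => Real.abs_cos_le_one _)]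
  simp_rw [int_cos_mul_cos]
  have e1 : HasSum (fun y : Fin d → ℤ => tau d p hp y * ((2 * Real.pi) ^ d * ((if y = x then 1 else 0) +
      (if y = -x then 1 else 0)) / 2)) ((2 * Real.pi) ^ d * tau d p hp x / 2 +
        (2 * Real.pi) ^ d * tau d p hp (-x) / 2) := by
    have f1 := hasSum_single (f := fun y : Fin d → ℤ =>
      tau d p hp y * ((2 * Real.pi) ^ d * (if y = x then 1 else 0) / 2)) x (by intro b hb; simp [hb])
    have f2 := hasSum_single (f := fun y : Fin d → ℤ =>
      tau d p hp y * ((2 * Real.pi) ^ d * (if y = -x then 1 else 0) / 2)) (-x) (by intro b hb; simp [hb])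
    have f3 := f1.add f2
    simp only [if_true, mul_one] at f3
    convert f3 using 1
    · funext y; ring
    · ring
  rw [e1.tsum_eq, tau_neg]
  ring

/-- the squared modulus of an exponential sum -/
theorem norm_sq_exp_sum {ι : Type*} (I : Finset ι) (a : ι → Fin d → ℤ) (g : ι → ℝ) (k : Fin d → ℝ) :
    ‖∑ i ∈ I, (g i : ℂ) * Complex.exp ((dot k (a i) : ℝ) * Complex.I)‖ ^ 2 =
      ∑ i ∈ I, ∑ j ∈ I, g i * g j * Real.cos (dot k (a j - a i)) := by
  have h1 : (∑ i ∈ I, (g i : ℂ) * Complex.exp ((dot k (a i) : ℝ) * Complex.I)).re =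
      ∑ i ∈ I, g i * Real.cos (dot k (a i)) := by
    rw [Complex.re_sum]
    refine Finset.sum_congr rfl fun i _ => ?_
    rw [Complex.re_ofReal_mul, Complex.exp_ofReal_mul_I_re]
  have h2 : (∑ i ∈ I, (g i : ℂ) * Complex.exp ((dot k (a i) : ℝ) * Complex.I)).im =
      ∑ i ∈ I, g i * Real.sin (dot k (a i)) := by
    rw [Complex.im_sum]
    refine Finset.sum_congr rfl fun i _ => ?_
    rw [Complex.im_ofReal_mul, Complex.exp_ofReal_mul_I_im]
  rw [← Complex.normSq_eq_norm_sq, Complex.normSq_apply, h1, h2, Finset.sum_mul_sum, Finset.sum_mul_sum,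
    ← Finset.sum_add_distrib]
  refine Finset.sum_congr rfl fun i _ => ?_
  rw [← Finset.sum_add_distrib]
  refine Finset.sum_congr rfl fun j _ => ?_
  rw [dot_sub, Real.cos_sub]
  ring

/-- the quadratic form as an integral over the wave vectors -/
theorem quad_eq_integral {ι : Type*} (p : NNReal) (hp : p ≤ 1) (hs : Summable (tau d p hp)) (I : Finset ι)
    (a : ι → Fin d → ℤ) (g : ι → ℝ) :
    (2 * Real.pi) ^ d * quad d p hp I a g = ∫ k in cube d, cs (tau d p hp) k *
      ‖∑ i ∈ I, (g i : ℂ) * Complex.exp ((dot k (a i) : ℝ) * Complex.I)‖ ^ 2 := by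
  have ha : Summable fun x => |tau d p hp x| := by simpa only [abs_of_nonneg (tau_nonneg p hp _)] using hs
  have hfm : IsFiniteMeasure (volume.restrict (cube d)) := ⟨by simpa using cube_fin⟩
  have hint : ∀ i j : ι, Integrable (fun k => g i * g j * (cs (tau d p hp) k * Real.cos (dot k (a j - a i))))
      (volume.restrict (cube d)) := by
    intro i j
    refine Integrable.const_mul ?_ _
    refine Integrable.of_bound (C := ∑' x, |tau d p hp x|) ?_ (Eventually.of_forall fun k => ?_)
    · exact ((cs_cont _ ha).mul (by unfold dot; fun_prop)).aestronglyMeasurable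
    · rw [norm_mul, Real.norm_eq_abs, Real.norm_eq_abs]
      exact (mul_le_of_le_one_right (abs_nonneg _) (Real.abs_cos_le_one _)).trans (cs_abs_le _ ha k)
  have h1 : ∀ k, cs (tau d p hp) k *
      ‖∑ i ∈ I, (g i : ℂ) * Complex.exp ((dot k (a i) : ℝ) * Complex.I)‖ ^ 2 =
      ∑ i ∈ I, ∑ j ∈ I, g i * g j * (cs (tau d p hp) k * Real.cos (dot k (a j - a i))) := by
    intro k
    rw [norm_sq_exp_sum, Finset.mul_sum]
    refine Finset.sum_congr rfl fun i _ => ?_
    rw [Finset.mul_sum]
    refine Finset.sum_congr rfl fun j _ => ?_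
    ring
  simp_rw [h1]
  rw [integral_finset_sum _ (fun x _ => integrable_finset_sum _ (fun y _ => hint x y))]
  unfold quad
  rw [Finset.mul_sum]
  refine Finset.sum_congr rfl fun i _ => ?_
  rw [integral_finset_sum _ (fun y _ => hint i y), Finset.mul_sum]
  refine Finset.sum_congr rfl fun j _ => ?_
  rw [integral_const_mul, inversion p hp hs]
  ring

/-- Plancherel for finite sums -/
theorem integral_norm_sq {ι : Type*} (I : Finset ι) (a : ι → Fin d → ℤ) (ha : Set.InjOn a I) (g : ι → ℝ) :
    ∫ k in cube d, ‖∑ i ∈ I, (g i : ℂ) * Complex.exp ((dot k (a i) : ℝ) * Complex.I)‖ ^ 2 =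
      (2 * Real.pi) ^ d * ∑ i ∈ I, g i ^ 2 := by
  classical
  have hfm : IsFiniteMeasure (volume.restrict (cube d)) := ⟨by simpa using cube_fin⟩
  have hint : ∀ i j : ι, Integrable (fun k => g i * g j * Real.cos (dot k (a j - a i)))
      (volume.restrict (cube d)) := by
    intro i j
    refine Integrable.const_mul ?_ _
    refine Integrable.of_bound (C := 1) ?_ (Eventually.of_forall fun k => ?_)
    · exact (by unfold dot; fun_prop : Continuous fun k : Fin d → ℝ => Real.cos (dot k (a j - a i))).aestronglyMeasurable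
    · rw [Real.norm_eq_abs]; exact Real.abs_cos_le_one _
  simp_rw [norm_sq_exp_sum]
  rw [integral_finset_sum _ (fun x _ => integrable_finset_sum _ (fun y _ => hint x y)), Finset.mul_sum]
  refine Finset.sum_congr rfl fun i hi => ?_
  rw [integral_finset_sum _ (fun y _ => hint i y), Finset.sum_eq_single i]
  · rw [integral_const_mul, int_cos, if_pos (sub_self _)]
    ring
  · intro j hj hji
    rw [integral_const_mul, int_cos, if_neg, mul_zero]
    intro h
    exact hji (ha hj hi (sub_eq_zero.1 h))
  · intro h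
    exact absurd hi h

end Pool.Agent.H74.IB
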