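import Pool.Agent.H74.IB.Critical

/-!
# Averages of transforms over cubes around the origin, for even functions of positive type
-/

set_option autoImplicit false

open MeasureTheory Filter Topology

namespace Pool.Agent.H74.IB

open Pool.Agent.Results.MP_54f242_pr.InfraredMean

variable {d : ℕ}

/-- nonnegative, summable and even, with a nonnegative transform -/
structure Good (a : (Fin d → ℤ) → ℝ) : Prop where
  nn : ∀ x, 0 ≤ a x
  sm : Summable a
  ev : ∀ x, a (-x) = a x
  ft : ∀ k, 0 ≤ cs a k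

theorem Good.abs {a : (Fin d → ℤ) → ℝ} (h : Good a) : Summable fun x => |a x| := by
  simpa only [abs_of_nonneg (h.nn _)] using h.sm

theorem Good.cont {a : (Fin d → ℤ) → ℝ} (h : Good a) : Continuous (cs a) := cs_cont a h.abs

theorem Good.int {a : (Fin d → ℤ) → ℝ} (h : Good a) : Integrable (cs a) (volume.restrict (cube d)) :=
  integrable_of_cont h.cont

/-- the sum over the box `[-n, n]^d` -/
noncomputable def SA (a : (Fin d → ℤ) → ℝ) (n : ℕ) : ℝ :=
  ∑ x ∈ Fintype.piFinset (fun _ : Fin d => Finset.Icc (-(n : ℤ)) (n : ℤ)), a x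

theorem SA_nonneg {a : (Fin d → ℤ) → ℝ} (h : Good a) (n : ℕ) : 0 ≤ SA a n :=
  Finset.sum_nonneg fun x _ => h.nn x

theorem zero_le_SA {a : (Fin d → ℤ) → ℝ} (h : Good a) (n : ℕ) : a 0 ≤ SA a n := by
  unfold SA
  refine Finset.single_le_sum (f := a) (fun x _ => h.nn x) ?_
  rw [Fintype.mem_piFinset]
  intro i
  simp

theorem inversionA {a : (Fin d → ℤ) → ℝ} (h : Good a) (x : Fin d → ℤ) :
    ∫ k in cube d, cs a k * Real.cos (dot k x) = (2 * Real.pi) ^ d * a x := by
  rw [int_cs_mul a h.abs (fun k => Real.cos (dot k x)) (by unfold dot; fun_prop) 1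
    (fun k => Real.abs_cos_le_one _)]
  simp_rw [int_cos_mul_cos]
  have e1 : HasSum (fun y : Fin d → ℤ => a y * ((2 * Real.pi) ^ d * ((if y = x then 1 else 0) +
      (if y = -x then 1 else 0)) / 2)) ((2 * Real.pi) ^ d * a x / 2 + (2 * Real.pi) ^ d * a (-x) / 2) := by
    have f1 := hasSum_single (f := fun y : Fin d → ℤ =>
      a y * ((2 * Real.pi) ^ d * (if y = x then 1 else 0) / 2)) x (by intro b hb; simp [hb])
    have f2 := hasSum_single (f := fun y : Fin d → ℤ =>
      a y * ((2 * Real.pi) ^ d * (if y = -x then 1 else 0) / 2)) (-x) (by intro b hb; simp [hb])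
    have f3 := f1.add f2
    simp only [if_true, mul_one] at f3
    convert f3 using 1
    · funext y; ring
    · ring
  rw [e1.tsum_eq, h.ev]
  ring

theorem int_csA {a : (Fin d → ℤ) → ℝ} (h : Good a) : ∫ k in cube d, cs a k = (2 * Real.pi) ^ d * a 0 := by
  have h1 := inversionA h 0
  have h0 : ∀ k : Fin d → ℝ, cs a k * Real.cos (dot k 0) = cs a k := by
    intro k
    simp [dot]
  simp_rw [h0] at h1
  exact h1

theorem sum_box_leA {a : (Fin d → ℤ) → ℝ} (h : Good a) (n : ℕ) :
    ∑ x ∈ box d n, ∑ y ∈ box d n, a (y - x) ≤ (n : ℝ) ^ d * SA a n := by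
  classical
  have h1 : ∀ x ∈ box d n, ∑ y ∈ box d n, a (y - x) ≤ SA a n := by
    intro x hx
    have h2 : ∑ y ∈ box d n, a (y - x) =
        ∑ z ∈ (box d n).map (Equiv.subRight x).toEmbedding, a z := by
      rw [Finset.sum_map]
      rfl
    rw [h2]
    refine Finset.sum_le_sum_of_subset_of_nonneg ?_ (fun z _ _ => h.nn z)
    intro z hz
    rw [Finset.mem_map] at hz
    obtain ⟨y, hy, rfl⟩ := hz
    rw [Fintype.mem_piFinset]
    intro i
    have hyi := Fintype.mem_piFinset.1 hy i
    have hxi := Fintype.mem_piFinset.1 hx i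
    rw [Finset.mem_Ico] at hyi hxi
    rw [Finset.mem_Icc]
    change -(n : ℤ) ≤ y i - x i ∧ y i - x i ≤ n
    omega
  calc ∑ x ∈ box d n, ∑ y ∈ box d n, a (y - x) ≤ ∑ x ∈ box d n, SA a n :=
        Finset.sum_le_sum h1
    _ = (n : ℝ) ^ d * SA a n := by rw [Finset.sum_const, nsmul_eq_mul, box_card]

/-- the Fejer kernel of the box -/
noncomputable def Fej (n : ℕ) (k : Fin d → ℝ) : ℝ :=
  ∑ x ∈ box d n, ∑ y ∈ box d n, Real.cos (dot k (y - x))

theorem Fej_cont (n : ℕ) : Continuous (Fej (d := d) n) := by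
  unfold Fej dot
  fun_prop

theorem Fej_nonneg (n : ℕ) (k : Fin d → ℝ) : 0 ≤ Fej n k := by
  have h : Fej n k = (∑ x ∈ box d n, Real.cos (dot k x)) ^ 2 + (∑ x ∈ box d n, Real.sin (dot k x)) ^ 2 := by
    unfold Fej
    rw [sq, sq, Finset.sum_mul_sum, Finset.sum_mul_sum, ← Finset.sum_add_distrib]
    refine Finset.sum_congr rfl fun x _ => ?_
    rw [← Finset.sum_add_distrib]
    refine Finset.sum_congr rfl fun y _ => ?_
    rw [dot_sub, Real.cos_sub]
    ring
  rw [h]
  positivity

theorem Fej_lower (hd : 1 ≤ d) (n : ℕ) (hn : 1 ≤ n) (k : Fin d → ℝ)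
    (hk : k ∈ cell (0 : Fin d → ℝ) (1 / (d * n))) : ((n : ℝ) ^ d) ^ 2 / 2 ≤ Fej n k := by
  have hd0 : (0 : ℝ) < d := by exact_mod_cast hd
  have hn0 : (0 : ℝ) < n := by exact_mod_cast hn
  have h1 : ∀ x ∈ box d n, ∀ y ∈ box d n, (1 : ℝ) / 2 ≤ Real.cos (dot k (y - x)) := by
    intro x hx y hy
    have h4 : |dot k (y - x)| ≤ 1 := by
      unfold dot
      refine (Finset.abs_sum_le_sum_abs _ _).trans ?_
      have h6 : ∀ i ∈ (Finset.univ : Finset (Fin d)), |k i * (((y - x) i : ℤ) : ℝ)| ≤ 1 / (d : ℝ) := by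
        intro i _
        have hxi := Fintype.mem_piFinset.1 hx i
        have hyi := Fintype.mem_piFinset.1 hy i
        rw [Finset.mem_Ico] at hxi hyi
        have h7 : |(((y - x) i : ℤ) : ℝ)| ≤ n := by
          have h8 : |(y - x) i| ≤ (n : ℤ) := by
            rw [Pi.sub_apply, abs_le]
            omega
          exact_mod_cast h8
        have hki : |k i| ≤ 1 / (d * n) := by simpa [cell] using hk i
        rw [abs_mul]
        calc |k i| * |(((y - x) i : ℤ) : ℝ)| ≤ 1 / (d * n) * n :=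
              mul_le_mul hki h7 (abs_nonneg _) (by positivity)
          _ = 1 / (d : ℝ) := by field_simp
      refine (Finset.sum_le_sum h6).trans ?_
      rw [Finset.sum_const, Finset.card_univ, Fintype.card_fin, nsmul_eq_mul]
      rw [mul_one_div, div_self hd0.ne']
    have h8 := Real.one_sub_sq_div_two_le_cos (x := dot k (y - x))
    have h9 : (dot k (y - x)) ^ 2 ≤ 1 := by
      rw [← sq_abs]
      exact pow_le_one₀ (abs_nonneg _) h4
    linarith
  unfold Fej
  calc ((n : ℝ) ^ d) ^ 2 / 2 = ∑ _x ∈ box d n, ∑ _y ∈ box d n, (1 : ℝ) / 2 := by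
        rw [Finset.sum_const, Finset.sum_const, nsmul_eq_mul, nsmul_eq_mul, box_card]
        ring
    _ ≤ _ := Finset.sum_le_sum fun x hx => Finset.sum_le_sum fun y hy => h1 x hx y hy

theorem int_Fej {a : (Fin d → ℤ) → ℝ} (h : Good a) (n : ℕ) :
    ∫ k in cube d, cs a k * Fej n k = (2 * Real.pi) ^ d * ∑ x ∈ box d n, ∑ y ∈ box d n, a (y - x) := by
  have hi : ∀ z : Fin d → ℤ, Integrable (fun k => cs a k * Real.cos (dot k z)) (volume.restrict (cube d)) := by
    intro z
    exact integrable_of_cont (h.cont.mul (by unfold dot; fun_prop))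
  have h1 : ∀ k : Fin d → ℝ, cs a k * Fej n k =
      ∑ x ∈ box d n, ∑ y ∈ box d n, cs a k * Real.cos (dot k (y - x)) := by
    intro k
    unfold Fej
    rw [Finset.mul_sum]
    exact Finset.sum_congr rfl fun x _ => Finset.mul_sum _ _ _
  simp_rw [h1]
  rw [integral_finsetSum _ (fun x _ => integrable_finsetSum _ fun y _ => hi (y - x)), Finset.mul_sum]
  refine Finset.sum_congr rfl fun x _ => ?_
  rw [integral_finsetSum _ (fun y _ => hi (y - x)), Finset.mul_sum]
  exact Finset.sum_congr rfl fun y _ => inversionA h _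

/-- the mass of the cube of radius `1 / (d n)` -/
theorem mass_leA (hd : 1 ≤ d) {a : (Fin d → ℤ) → ℝ} (h : Good a) (n : ℕ) (hn : 1 ≤ n) :
    (n : ℝ) ^ d * ∫ k in cube d ∩ cell (0 : Fin d → ℝ) (1 / (d * n)), cs a k ≤
      2 * (2 * Real.pi) ^ d * SA a n := by
  have hn0 : (0 : ℝ) < n := by exact_mod_cast hn
  have hi3 : Integrable (fun k => cs a k * Fej n k) (volume.restrict (cube d)) :=
    integrable_of_cont (h.cont.mul (Fej_cont n))
  have h6 : ((n : ℝ) ^ d) ^ 2 / 2 * ∫ k in cube d ∩ cell (0 : Fin d → ℝ) (1 / (d * n)), cs a k ≤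
      ∫ k in cube d, cs a k * Fej n k := by
    rw [← integral_const_mul]
    calc ∫ k in cube d ∩ cell (0 : Fin d → ℝ) (1 / (d * n)), ((n : ℝ) ^ d) ^ 2 / 2 * cs a k
        ≤ ∫ k in cube d ∩ cell (0 : Fin d → ℝ) (1 / (d * n)), cs a k * Fej n k := by
          refine setIntegral_mono_on ?_ ?_ (cube_meas.inter (cell_meas _ _)) (fun k hk => ?_)
          · exact (h.int.const_mul _).mono_measure (Measure.restrict_mono Set.inter_subset_left le_rfl)
          · exact hi3.mono_measure (Measure.restrict_mono Set.inter_subset_left le_rfl)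
          · rw [mul_comm]
            exact mul_le_mul_of_nonneg_left (Fej_lower hd n hn k hk.2) (h.ft k)
      _ ≤ ∫ k in cube d, cs a k * Fej n k :=
          setIntegral_mono_set hi3 (Eventually.of_forall fun k => mul_nonneg (h.ft k) (Fej_nonneg n k))
            (Eventually.of_forall Set.inter_subset_left)
  rw [int_Fej h] at h6
  have h8 := mul_le_mul_of_nonneg_left (sum_box_leA h n) (by positivity : (0 : ℝ) ≤ (2 * Real.pi) ^ d)
  have h7 : (n : ℝ) ^ d * ((n : ℝ) ^ d * ∫ k in cube d ∩ cell (0 : Fin d → ℝ) (1 / (d * n)), cs a k) ≤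
      (n : ℝ) ^ d * (2 * (2 * Real.pi) ^ d * SA a n) := by
    nlinarith
  exact le_of_mul_le_mul_left h7 (by positivity)

/-- growth implies the bound on average -/
theorem avg_leA (hd : 1 ≤ d) {a : (Fin d → ℤ) → ℝ} (h : Good a) (m : ℕ) (b : ℝ)
    (hb : ∀ n : ℕ, 1 ≤ n → SA a n ≤ b * (n : ℝ) ^ (2 * m)) (r : ℝ) (hr0 : 0 < r) :
    ∫ k in cube d ∩ cell (0 : Fin d → ℝ) r, cs a k * (1 - Dhat k) ^ m ≤
      2 * 2 ^ m * (4 * Real.pi * d) ^ d * b * r ^ d := by
  have hd0 : (0 : ℝ) < d := by exact_mod_cast hd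
  have hd1 : (1 : ℝ) ≤ d := by exact_mod_cast hd
  have hpi := Real.pi_pos
  have hgc : Continuous fun k : Fin d → ℝ => cs a k * (1 - Dhat k) ^ m := by
    refine h.cont.mul (Continuous.pow ?_ m)
    unfold Dhat
    fun_prop
  have hgi : Integrable (fun k : Fin d → ℝ => cs a k * (1 - Dhat k) ^ m) (volume.restrict (cube d)) :=
    integrable_of_cont hgc
  have hb0 : 0 ≤ b := by
    have := (SA_nonneg h 1).trans (hb 1 le_rfl)
    simpa using this
  have hbz : a 0 ≤ b := by
    have := (zero_le_SA h 1).trans (hb 1 le_rfl)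
    simpa using this
  have h2m : (1 : ℝ) ≤ 2 ^ m := one_le_pow₀ one_le_two
  rcases le_or_gt r (1 / d) with hr | hr
  · set x : ℝ := 1 / (d * r) with hx
    have hx1 : 1 ≤ x := by
      rw [hx, le_div_iff₀ (by positivity), one_mul]
      rw [le_div_iff₀ hd0] at hr
      linarith
    set n : ℕ := ⌊x⌋₊ with hn
    have hn1 : 1 ≤ n := Nat.one_le_iff_ne_zero.2 (by
      rw [hn]; exact (Nat.floor_pos.2 hx1).ne')
    have hnx : (n : ℝ) ≤ x := Nat.floor_le (by linarith)
    have hxn : x ≤ 2 * n := by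
      have h1 : x < n + 1 := Nat.lt_floor_add_one x
      have h2 : (1 : ℝ) ≤ n := by exact_mod_cast hn1
      linarith
    have hn0 : (0 : ℝ) < n := by exact_mod_cast hn1
    have hrn : r ≤ 1 / (d * n) := by
      rw [le_div_iff₀ (by positivity)]
      rw [hx, le_div_iff₀ (by positivity)] at hnx
      linarith
    set I := ∫ k in cube d ∩ cell (0 : Fin d → ℝ) r, cs a k * (1 - Dhat k) ^ m with hI
    have h1 : I ≤ (r ^ 2 / 2) ^ m * ∫ k in cube d ∩ cell (0 : Fin d → ℝ) (1 / (d * n)), cs a k := by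
      calc I ≤ ∫ k in cube d ∩ cell (0 : Fin d → ℝ) r, (r ^ 2 / 2) ^ m * cs a k := by
            refine setIntegral_mono_on ?_ ?_ (cube_meas.inter (cell_meas _ _)) (fun k hk => ?_)
            · exact hgi.mono_measure (Measure.restrict_mono Set.inter_subset_left le_rfl)
            · exact (h.int.const_mul _).mono_measure (Measure.restrict_mono Set.inter_subset_left le_rfl)
            · rw [mul_comm]
              exact mul_le_mul_of_nonneg_right
                (pow_le_pow_left₀ (one_sub_Dhat_nonneg k) (one_sub_Dhat_le hd k r hk.2) m) (h.ft k)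
        _ = (r ^ 2 / 2) ^ m * ∫ k in cube d ∩ cell (0 : Fin d → ℝ) r, cs a k := integral_const_mul _ _
        _ ≤ _ := by
            refine mul_le_mul_of_nonneg_left ?_ (by positivity)
            refine setIntegral_mono_set
              (h.int.mono_measure (Measure.restrict_mono Set.inter_subset_left le_rfl))
              (Eventually.of_forall fun k => h.ft k) (Eventually.of_forall fun k hk => ?_)
            exact ⟨hk.1, fun j => (hk.2 j).trans hrn⟩
    have h3 := mass_leA hd h n hn1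
    have h4 := hb n hn1
    have h6 : r * (n : ℝ) ≤ 1 := by
      rw [hx, le_div_iff₀ (by positivity)] at hnx
      have h0 : r * (n : ℝ) * 1 ≤ r * n * d := mul_le_mul_of_nonneg_left hd1 (by positivity)
      linarith
    have h7 : (n : ℝ) ^ d * I ≤ 2 * (2 * Real.pi) ^ d * b := by
      have h8 : ((r * (n : ℝ)) ^ 2 / 2) ^ m ≤ 1 := by
        refine pow_le_one₀ (by positivity) ?_
        have : (r * (n : ℝ)) ^ 2 ≤ 1 := pow_le_one₀ (by positivity) h6
        linarith
      calc (n : ℝ) ^ d * I ≤ (n : ℝ) ^ d * ((r ^ 2 / 2) ^ m *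
            ∫ k in cube d ∩ cell (0 : Fin d → ℝ) (1 / (d * n)), cs a k) :=
            mul_le_mul_of_nonneg_left h1 (by positivity)
        _ = (r ^ 2 / 2) ^ m * ((n : ℝ) ^ d *
            ∫ k in cube d ∩ cell (0 : Fin d → ℝ) (1 / (d * n)), cs a k) := by ring
        _ ≤ (r ^ 2 / 2) ^ m * (2 * (2 * Real.pi) ^ d * (b * (n : ℝ) ^ (2 * m))) := by
            refine mul_le_mul_of_nonneg_left (h3.trans ?_) (by positivity)
            exact mul_le_mul_of_nonneg_left h4 (by positivity)
        _ = 2 * (2 * Real.pi) ^ d * b * ((r * (n : ℝ)) ^ 2 / 2) ^ m := by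
            rw [pow_mul, div_pow, div_pow, mul_pow r (n : ℝ) 2, mul_pow (r ^ 2)]
            ring
        _ ≤ 2 * (2 * Real.pi) ^ d * b * 1 := mul_le_mul_of_nonneg_left h8 (by positivity)
        _ = _ := mul_one _
    have h9 : 1 ≤ (2 * d * r * n) ^ d := by
      refine one_le_pow₀ ?_
      have h10 : 1 / (d * r) ≤ 2 * n := hxn
      rw [div_le_iff₀ (by positivity)] at h10
      linarith
    have h11 : (n : ℝ) ^ d * I ≤ (n : ℝ) ^ d * (2 * 2 ^ m * (4 * Real.pi * d) ^ d * b * r ^ d) := by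
      refine h7.trans ?_
      calc 2 * (2 * Real.pi) ^ d * b = 2 * 1 * (2 * Real.pi) ^ d * b * 1 := by ring
        _ ≤ 2 * 2 ^ m * (2 * Real.pi) ^ d * b * (2 * d * r * n) ^ d := by gcongr
        _ = (n : ℝ) ^ d * (2 * 2 ^ m * (4 * Real.pi * d) ^ d * b * r ^ d) := by
            have : (4 * Real.pi * d) ^ d = (2 * Real.pi) ^ d * (2 * d) ^ d := by
              rw [← mul_pow]; congr 1; ring
            rw [this]
            simp only [mul_pow]
            ring
    exact le_of_mul_le_mul_left h11 (by positivity)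
  · have h1 : ∫ k in cube d ∩ cell (0 : Fin d → ℝ) r, cs a k * (1 - Dhat k) ^ m ≤
        ∫ k in cube d, cs a k * (1 - Dhat k) ^ m :=
      setIntegral_mono_set hgi
        (Eventually.of_forall fun k => mul_nonneg (h.ft k) (pow_nonneg (one_sub_Dhat_nonneg k) m))
        (Eventually.of_forall Set.inter_subset_left)
    have h2 : ∫ k in cube d, cs a k * (1 - Dhat k) ^ m ≤ 2 ^ m * ∫ k in cube d, cs a k := by
      rw [← integral_const_mul]
      refine integral_mono hgi (h.int.const_mul _) fun k => ?_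
      have h3 : 1 - Dhat k ≤ 2 := by
        have := (abs_le.1 (Dhat_le k)).1; linarith
      change cs a k * (1 - Dhat k) ^ m ≤ 2 ^ m * cs a k
      rw [mul_comm]
      exact mul_le_mul_of_nonneg_right (pow_le_pow_left₀ (one_sub_Dhat_nonneg k) h3 m) (h.ft k)
    rw [int_csA h] at h2
    have h4 : 1 ≤ (d * r) ^ d := by
      refine one_le_pow₀ ?_
      rw [div_lt_iff₀ hd0] at hr
      linarith
    have h5 : (4 * Real.pi * d) ^ d * r ^ d = (4 * Real.pi) ^ d * (d * r) ^ d := by
      rw [← mul_pow, ← mul_pow]; congr 1; ring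
    refine h1.trans (h2.trans ?_)
    calc 2 ^ m * ((2 * Real.pi) ^ d * a 0) ≤ 2 ^ m * ((2 * Real.pi) ^ d * b) := by gcongr
      _ = 1 * 2 ^ m * ((2 * Real.pi) ^ d * 1) * b := by ring
      _ ≤ 2 * 2 ^ m * ((4 * Real.pi) ^ d * (d * r) ^ d) * b := by
          have : 2 * Real.pi ≤ 4 * Real.pi := by linarith
          gcongr
          norm_num
      _ = _ := by rw [← h5]; ring

end Pool.Agent.H74.IB
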