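import Pool.Agent.H74.IB.ConvA

/-!
# From averages over cubes around the origin to growth
-/

set_option autoImplicit false

open MeasureTheory Filter Topology

namespace Pool.Agent.H74.IB

open Pool.Agent.Results.MP_54f242_pr.InfraredMean

variable {d : ℕ}

theorem shell_lower (hd : 1 ≤ d) (k : Fin d → ℝ) (hk : k ∈ cube d) (r : ℝ) (hr : 0 < r)
    (h : k ∉ cell (0 : Fin d → ℝ) (r / 2)) : 1 ≤ 2 * d * Real.pi ^ 2 / r ^ 2 * (1 - Dhat k) := by
  have hd0 : (0 : ℝ) < d := by exact_mod_cast hd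
  have hpi := Real.pi_pos
  have h1 : ∃ i, r / 2 < |k i| := by
    by_contra hcon
    push Not at hcon
    exact h fun j => by simpa using hcon j
  obtain ⟨i, hi⟩ := h1
  have hki : |k i| ≤ Real.pi := by
    have := Set.mem_univ_pi.1 hk i
    exact abs_le.2 ⟨this.1.le, this.2⟩
  have h2 := Real.cos_le_one_sub_mul_cos_sq hki
  have h3 : (r / 2) ^ 2 ≤ (k i) ^ 2 := by
    rw [← sq_abs (k i)]
    exact pow_le_pow_left₀ (by positivity) hi.le 2
  have h4 : 2 / Real.pi ^ 2 * (r / 2) ^ 2 ≤ 1 - Real.cos (k i) := by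
    have h5 : 2 / Real.pi ^ 2 * (r / 2) ^ 2 ≤ 2 / Real.pi ^ 2 * (k i) ^ 2 :=
      mul_le_mul_of_nonneg_left h3 (by positivity)
    linarith
  have h5 : 1 - Real.cos (k i) ≤ ∑ j : Fin d, (1 - Real.cos (k j)) :=
    Finset.single_le_sum (f := fun j => 1 - Real.cos (k j))
      (fun j _ => by have := Real.cos_le_one (k j); linarith) (Finset.mem_univ i)
  rw [one_sub_Dhat hd]
  have h6 := h4.trans h5
  calc (1 : ℝ) = 2 * d * Real.pi ^ 2 / r ^ 2 * (1 / d * (2 / Real.pi ^ 2 * (r / 2) ^ 2)) := by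
        field_simp
    _ ≤ _ := by gcongr

/-- one dyadic step -/
theorem shell_stepA (hd : 1 ≤ d) {a : (Fin d → ℤ) → ℝ} (h : Good a) (m e : ℕ) (hde : d = 2 * m + e) (A : ℝ)
    (hA0 : 0 ≤ A)
    (hA : ∀ r : ℝ, 0 < r → r ≤ Real.pi →
      ∫ k in cube d ∩ cell (0 : Fin d → ℝ) r, cs a k * (1 - Dhat k) ^ m ≤ A * r ^ d) (r : ℝ) (hr : 0 < r) :
    ∫ k in cube d ∩ cell (0 : Fin d → ℝ) r, cs a k ≤
      (∫ k in cube d ∩ cell (0 : Fin d → ℝ) (r / 2), cs a k) +
        (2 * d * Real.pi ^ 2) ^ m * A * r ^ e := by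
  have hd0 : (0 : ℝ) < d := by exact_mod_cast hd
  have hpi := Real.pi_pos
  have hgc : Continuous fun k : Fin d → ℝ => cs a k * (1 - Dhat k) ^ m := by
    refine h.cont.mul (Continuous.pow ?_ m)
    unfold Dhat
    fun_prop
  have hgi : Integrable (fun k : Fin d → ℝ => cs a k * (1 - Dhat k) ^ m) (volume.restrict (cube d)) :=
    integrable_of_cont hgc
  have hg0 : ∀ k : Fin d → ℝ, 0 ≤ cs a k * (1 - Dhat k) ^ m := fun k =>
    mul_nonneg (h.ft k) (pow_nonneg (one_sub_Dhat_nonneg k) m)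
  have hA' : ∫ k in cube d ∩ cell (0 : Fin d → ℝ) r, cs a k * (1 - Dhat k) ^ m ≤ A * r ^ d := by
    rcases le_or_gt r Real.pi with h1 | h1
    · exact hA r hr h1
    · have h2 : cube d ∩ cell (0 : Fin d → ℝ) r = cube d ∩ cell (0 : Fin d → ℝ) Real.pi := by
        rw [Set.inter_eq_left.2 (cube_sub_cell r h1.le), Set.inter_eq_left.2 (cube_sub_cell Real.pi le_rfl)]
      rw [h2]
      refine (hA Real.pi Real.pi_pos le_rfl).trans ?_
      exact mul_le_mul_of_nonneg_left (pow_le_pow_left₀ Real.pi_pos.le h1.le d) hA0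
  set c : ℝ := (2 * d * Real.pi ^ 2 / r ^ 2) ^ m with hc
  have hc0 : 0 ≤ c := by positivity
  have hsub : cell (0 : Fin d → ℝ) (r / 2) ⊆ cell (0 : Fin d → ℝ) r := fun k hk j =>
    (hk j).trans (by linarith)
  have h1 : ∀ k ∈ cube d ∩ cell (0 : Fin d → ℝ) r, cs a k ≤
      (cell (0 : Fin d → ℝ) (r / 2)).indicator (cs a) k + c * (cs a k * (1 - Dhat k) ^ m) := by
    intro k hk
    by_cases h2 : k ∈ cell (0 : Fin d → ℝ) (r / 2)
    · rw [Set.indicator_of_mem h2]
      have := mul_nonneg hc0 (hg0 k)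
      linarith
    · rw [Set.indicator_of_notMem h2, zero_add]
      have h3 := shell_lower hd k hk.1 r hr h2
      have h4 : 1 ≤ c * (1 - Dhat k) ^ m := by
        rw [hc, ← mul_pow]
        exact one_le_pow₀ h3
      have h5 := mul_le_mul_of_nonneg_left h4 (h.ft k)
      calc cs a k = cs a k * 1 := (mul_one _).symm
        _ ≤ _ := h5
        _ = _ := by ring
  have hm : Measure.restrict volume (cube d ∩ cell (0 : Fin d → ℝ) r) ≤ volume.restrict (cube d) :=
    Measure.restrict_mono Set.inter_subset_left le_rfl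
  have hi1 : Integrable (fun k => (cell (0 : Fin d → ℝ) (r / 2)).indicator (cs a) k)
      (volume.restrict (cube d ∩ cell (0 : Fin d → ℝ) r)) :=
    (h.int.mono_measure hm).indicator (cell_meas _ _)
  have hi2 : Integrable (fun k => c * (cs a k * (1 - Dhat k) ^ m))
      (volume.restrict (cube d ∩ cell (0 : Fin d → ℝ) r)) := (hgi.mono_measure hm).const_mul _
  calc ∫ k in cube d ∩ cell (0 : Fin d → ℝ) r, cs a k
      ≤ ∫ k in cube d ∩ cell (0 : Fin d → ℝ) r,
          ((cell (0 : Fin d → ℝ) (r / 2)).indicator (cs a) k + c * (cs a k * (1 - Dhat k) ^ m)) :=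
        setIntegral_mono_on (h.int.mono_measure hm) (hi1.add hi2) (cube_meas.inter (cell_meas _ _)) h1
    _ = (∫ k in cube d ∩ cell (0 : Fin d → ℝ) (r / 2), cs a k) +
          c * ∫ k in cube d ∩ cell (0 : Fin d → ℝ) r, cs a k * (1 - Dhat k) ^ m := by
        rw [integral_add hi1 hi2, integral_const_mul, integral_indicator (cell_meas _ _),
          Measure.restrict_restrict (cell_meas _ _)]
        have h6 : cell (0 : Fin d → ℝ) (r / 2) ∩ (cube d ∩ cell (0 : Fin d → ℝ) r) =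
            cube d ∩ cell (0 : Fin d → ℝ) (r / 2) := by
          ext k
          constructor
          · rintro ⟨h7, h8, _⟩
            exact ⟨h8, h7⟩
          · rintro ⟨h7, h8⟩
            exact ⟨h8, h7, hsub h8⟩
        rw [h6]
    _ ≤ (∫ k in cube d ∩ cell (0 : Fin d → ℝ) (r / 2), cs a k) + c * (A * r ^ d) := by
        have := mul_le_mul_of_nonneg_left hA' hc0
        linarith
    _ = _ := by
        have hr2 : (r ^ 2) ^ m ≠ 0 := by positivity
        rw [hc, div_pow]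
        have h7 : r ^ d = (r ^ 2) ^ m * r ^ e := by
          rw [← pow_mul, ← pow_add, ← hde]
        rw [h7]
        field_simp

/-- the mass of the cubes around the origin -/
theorem massA (hd : 1 ≤ d) {a : (Fin d → ℤ) → ℝ} (h : Good a) (m e : ℕ) (he : 1 ≤ e) (hde : d = 2 * m + e)
    (A : ℝ) (hA0 : 0 ≤ A)
    (hA : ∀ r : ℝ, 0 < r → r ≤ Real.pi →
      ∫ k in cube d ∩ cell (0 : Fin d → ℝ) r, cs a k * (1 - Dhat k) ^ m ≤ A * r ^ d) (r : ℝ) (hr : 0 < r) :
    ∫ k in cube d ∩ cell (0 : Fin d → ℝ) r, cs a k ≤ 2 * (2 * d * Real.pi ^ 2) ^ m * A * r ^ e := by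
  have hpi := Real.pi_pos
  set C : ℝ := (2 * d * Real.pi ^ 2) ^ m * A with hC
  have hC0 : 0 ≤ C := by positivity
  set F : ℝ → ℝ := fun ρ => ∫ k in cube d ∩ cell (0 : Fin d → ℝ) ρ, cs a k with hF
  have hstep : ∀ ρ : ℝ, 0 < ρ → F ρ ≤ F (ρ / 2) + C * ρ ^ e := fun ρ hρ =>
    shell_stepA hd h m e hde A hA0 hA ρ hρ
  have hit : ∀ J : ℕ, F r ≤ F (r * (1 / 2) ^ J) + 2 * C * r ^ e * (1 - (1 / 2) ^ J) := by
    intro J
    induction J with
    | zero => simp
    | succ J ih =>
      have h1 := hstep (r * (1 / 2) ^ J) (by positivity)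
      have h2 : r * (1 / 2) ^ J / 2 = r * (1 / 2) ^ (J + 1) := by rw [pow_succ]; ring
      rw [h2] at h1
      have h3 : C * (r * (1 / 2) ^ J) ^ e ≤ C * r ^ e * (1 / 2) ^ J := by
        rw [mul_pow, ← mul_assoc]
        refine mul_le_mul_of_nonneg_left ?_ (by positivity)
        rw [← pow_mul]
        exact pow_le_pow_of_le_one (by norm_num) (by norm_num) (Nat.le_mul_of_pos_right J (by omega))
      have h4 : 2 * C * r ^ e * (1 - (1 / 2) ^ (J + 1)) =
          2 * C * r ^ e * (1 - (1 / 2) ^ J) + C * r ^ e * (1 / 2) ^ J := by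
        rw [pow_succ]; ring
      rw [h4]
      linarith
  set χ := ∑' x, a x with hχ
  have hχ0 : 0 ≤ χ := tsum_nonneg h.nn
  have hbd : ∀ k, cs a k ≤ χ := fun k => by
    have := (le_abs_self _).trans (cs_abs_le _ h.abs k)
    simpa only [abs_of_nonneg (h.nn _)] using this
  have hFs : ∀ ρ : ℝ, 0 < ρ → F ρ ≤ χ * (2 * ρ) ^ d := by
    intro ρ hρ
    have hcell : cell (0 : Fin d → ℝ) ρ = Set.Icc (fun _ => -ρ) (fun _ => ρ) := by
      ext k
      simp only [cell, Set.mem_setOf_eq, Pi.zero_apply, sub_zero, Set.mem_Icc, Pi.le_def]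
      constructor
      · intro h1
        exact ⟨fun i => (abs_le.1 (h1 i)).1, fun i => (abs_le.1 (h1 i)).2⟩
      · intro h1 i
        exact abs_le.2 ⟨h1.1 i, h1.2 i⟩
    have hvol : volume.real (cell (0 : Fin d → ℝ) ρ) = (2 * ρ) ^ d := by
      rw [hcell, measureReal_def, Real.volume_Icc_pi_toReal (fun _ => by linarith)]
      simp only [Finset.prod_const, Finset.card_univ, Fintype.card_fin]
      congr 1
      ring
    have hfin : volume (cell (0 : Fin d → ℝ) ρ) < ⊤ := by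
      rw [hcell]
      exact isCompact_Icc.measure_lt_top
    have h1 : F ρ ≤ ∫ k in cube d ∩ cell (0 : Fin d → ℝ) ρ, χ := by
      refine setIntegral_mono_on ?_ ?_ (cube_meas.inter (cell_meas _ _)) (fun k _ => hbd k)
      · exact h.int.mono_measure (Measure.restrict_mono Set.inter_subset_left le_rfl)
      · exact integrableOn_const (hs := (measure_mono Set.inter_subset_right).trans_lt hfin |>.ne)
    refine h1.trans ?_
    rw [setIntegral_const, smul_eq_mul, mul_comm]
    refine mul_le_mul_of_nonneg_left ?_ hχ0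
    rw [← hvol]
    exact measureReal_mono Set.inter_subset_right hfin.ne
  have hlim : Tendsto (fun J : ℕ => χ * (2 * r) ^ d * (1 / 2) ^ J + 2 * C * r ^ e) atTop
      (𝓝 (2 * C * r ^ e)) := by
    have h1 : Tendsto (fun J : ℕ => ((1 : ℝ) / 2) ^ J) atTop (𝓝 0) :=
      tendsto_pow_atTop_nhds_zero_of_lt_one (by norm_num) (by norm_num)
    have h2 := (h1.const_mul (χ * (2 * r) ^ d)).add_const (2 * C * r ^ e)
    simpa using h2
  have hfinal : F r ≤ 2 * C * r ^ e := by
    refine ge_of_tendsto' hlim fun J => (hit J).trans ?_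
    have h1 := hFs (r * (1 / 2) ^ J) (by positivity)
    have h2 : (2 * (r * (1 / 2) ^ J)) ^ d ≤ (2 * r) ^ d * (1 / 2) ^ J := by
      have h3 : (2 * (r * (1 / 2) ^ J)) ^ d = (2 * r) ^ d * ((1 / 2) ^ J) ^ d := by
        rw [← mul_pow]; ring
      rw [h3]
      refine mul_le_mul_of_nonneg_left ?_ (by positivity)
      rw [← pow_mul]
      exact pow_le_pow_of_le_one (by norm_num) (by norm_num) (Nat.le_mul_of_pos_right J (by omega))
    have h4 := mul_le_mul_of_nonneg_left h2 hχ0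
    have h5 : 2 * C * r ^ e * (1 - (1 / 2) ^ J) ≤ 2 * C * r ^ e := by
      have h6 : (0 : ℝ) ≤ (1 / 2) ^ J := by positivity
      have h7 : 0 ≤ 2 * C * r ^ e := by positivity
      nlinarith
    linarith
  calc F r ≤ 2 * C * r ^ e := hfinal
    _ = _ := by rw [hC]; ring

/-- averages against the kernels -/
theorem kernelA {a : (Fin d → ℤ) → ℝ} (h : Good a) (e : ℕ) (B : ℝ)
    (hB : ∀ r : ℝ, 0 < r → ∫ k in cube d ∩ cell (0 : Fin d → ℝ) r, cs a k ≤ B * r ^ e)
    (N : ℕ) (hN : 1 ≤ N) : ∫ k in cube d, cs a k * psi N k ≤ B * Z e / Real.sqrt N ^ e := by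
  classical
  have hB0 : 0 ≤ B := by
    have h1 := hB 1 zero_lt_one
    have h2 : 0 ≤ ∫ k in cube d ∩ cell (0 : Fin d → ℝ) 1, cs a k := integral_nonneg fun k => h.ft k
    simpa using h2.trans h1
  have hsq : 0 < Real.sqrt N := Real.sqrt_pos.2 (by exact_mod_cast hN)
  set J := ⌊Real.pi * Real.sqrt N⌋₊ + 1 with hJ
  set c : ℕ → Set (Fin d → ℝ) := fun m => cell (0 : Fin d → ℝ) ((m + 1) / Real.sqrt N) with hc
  have hpt : ∀ k ∈ cube d, cs a k * psi N k ≤ ∑ m ∈ Finset.range J,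
      Real.exp (-(m / Real.pi ^ 2)) * (c m).indicator (cs a) k := by
    intro k hk
    obtain ⟨m, hm, hmc, hmpsi⟩ := psi_shells N hN k hk
    have hG0 := h.ft k
    have h1 : cs a k * psi N k ≤ Real.exp (-(m / Real.pi ^ 2)) * (c m).indicator (cs a) k := by
      rw [Set.indicator_of_mem hmc, mul_comm]
      exact mul_le_mul_of_nonneg_right hmpsi hG0
    refine h1.trans ?_
    refine Finset.single_le_sum (f := fun m : ℕ =>
      Real.exp (-(m / Real.pi ^ 2)) * (c m).indicator (cs a) k) (fun q _ => ?_) (Finset.mem_range.2 hm)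
    exact mul_nonneg (Real.exp_pos _).le (Set.indicator_nonneg (fun x _ => h.ft x) k)
  have hint : ∀ m : ℕ, Integrable (fun k => Real.exp (-(m / Real.pi ^ 2)) * (c m).indicator (cs a) k)
      (volume.restrict (cube d)) := fun m =>
    (h.int.indicator (cell_meas _ _)).const_mul _
  calc ∫ k in cube d, cs a k * psi N k
      ≤ ∫ k in cube d, ∑ m ∈ Finset.range J,
          Real.exp (-(m / Real.pi ^ 2)) * (c m).indicator (cs a) k := by
        refine setIntegral_mono_on (integrable_of_cont (h.cont.mul (psi_cont N)))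
          (integrable_finsetSum _ fun m _ => hint m) cube_meas hpt
    _ = ∑ m ∈ Finset.range J, Real.exp (-(m / Real.pi ^ 2)) * ∫ k in cube d ∩ c m, cs a k := by
        rw [integral_finsetSum _ (fun m _ => hint m)]
        refine Finset.sum_congr rfl fun m _ => ?_
        rw [integral_const_mul, integral_indicator (cell_meas _ _), Measure.restrict_restrict (cell_meas _ _),
          Set.inter_comm]
    _ ≤ ∑ m ∈ Finset.range J, B / Real.sqrt N ^ e * (((m : ℝ) + 1) ^ e * Real.exp (-(m / Real.pi ^ 2))) := by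
        refine Finset.sum_le_sum fun m _ => ?_
        have h2 := hB (((m : ℝ) + 1) / Real.sqrt N) (by positivity)
        rw [div_pow] at h2
        calc Real.exp (-(m / Real.pi ^ 2)) * ∫ k in cube d ∩ c m, cs a k
            ≤ Real.exp (-(m / Real.pi ^ 2)) * (B * (((m : ℝ) + 1) ^ e / Real.sqrt N ^ e)) :=
              mul_le_mul_of_nonneg_left h2 (Real.exp_pos _).le
          _ = _ := by ring
    _ = B / Real.sqrt N ^ e * ∑ m ∈ Finset.range J, (((m : ℝ) + 1) ^ e * Real.exp (-(m / Real.pi ^ 2))) := by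
        rw [Finset.mul_sum]
    _ ≤ B / Real.sqrt N ^ e * Z e := by
        refine mul_le_mul_of_nonneg_left ?_ (by positivity)
        exact (Z_summable e).sum_le_tsum _ (fun j _ => by positivity)
    _ = _ := by ring

theorem SA_le_U {a : (Fin d → ℤ) → ℝ} (h : Good a) (N n : ℕ) (hN : 1 ≤ N)
    (hn : 2 * n ^ 2 ≤ N) : SA a n ≤ (Real.sqrt N) ^ d * ∫ k in cube d, cs a k * psi N k := by
  have hsq : 0 < Real.sqrt N := Real.sqrt_pos.2 (by exact_mod_cast hN)
  have hpi := Real.pi_gt_three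
  have hnn : ∀ x : Fin d → ℤ, 0 ≤ ∏ j, (2 * Real.pi * wZ N (x j)) := fun x =>
    Finset.prod_nonneg fun j _ => by have := wZ_nonneg N (x j); positivity
  have hsum : Summable fun x => a x * ∏ j, (2 * Real.pi * wZ N (x j)) := by
    refine Summable.of_nonneg_of_le (fun x => mul_nonneg (h.nn x) (hnn x)) (fun x => ?_)
      (h.sm.mul_right ((2 * Real.pi) ^ d))
    refine mul_le_mul_of_nonneg_left ?_ (h.nn x)
    calc ∏ j, (2 * Real.pi * wZ N (x j)) ≤ ∏ _j : Fin d, (2 * Real.pi) := by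
          refine Finset.prod_le_prod (fun j _ => by have := wZ_nonneg N (x j); positivity) (fun j _ => ?_)
          have := wZ_le_one N (x j)
          nlinarith
      _ = (2 * Real.pi) ^ d := by simp
  have hU : ∫ k in cube d, cs a k * psi N k = ∑' x, a x * ∏ j, (2 * Real.pi * wZ N (x j)) := by
    rw [int_cs_mul _ h.abs (psi N) (psi_cont N) 1
      (fun k => by rw [abs_of_nonneg (psi_nonneg N k)]; exact psi_le_one N k)]
    simp_rw [psi_coeff]
  rw [hU]
  have h1 : ∑ x ∈ Fintype.piFinset (fun _ : Fin d => Finset.Icc (-(n : ℤ)) (n : ℤ)),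
      a x * ∏ j, (2 * Real.pi * wZ N (x j)) ≤
      ∑' x, a x * ∏ j, (2 * Real.pi * wZ N (x j)) :=
    hsum.sum_le_tsum _ (fun x _ => mul_nonneg (h.nn x) (hnn x))
  refine le_trans ?_ (mul_le_mul_of_nonneg_left h1 (by positivity))
  unfold SA
  rw [Finset.mul_sum]
  refine Finset.sum_le_sum fun x hx => ?_
  have h2 : 1 ≤ (Real.sqrt N) ^ d * ∏ j, (2 * Real.pi * wZ N (x j)) := by
    have h3 : (Real.sqrt N) ^ d * ∏ j, (2 * Real.pi * wZ N (x j)) =
        ∏ j : Fin d, (Real.sqrt N * (2 * Real.pi * wZ N (x j))) := by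
      rw [Finset.prod_mul_distrib (f := fun _ : Fin d => Real.sqrt N)
        (g := fun j => 2 * Real.pi * wZ N (x j)), Finset.prod_const, Finset.card_univ, Fintype.card_fin]
    rw [h3]
    have h7 : ∏ _j : Fin d, (1 : ℝ) = 1 := by simp
    rw [← h7]
    refine Finset.prod_le_prod (fun _ _ => zero_le_one) ?_
    intro j _
    have hxj : |x j| ≤ n := by
      have := Fintype.mem_piFinset.1 hx j
      rw [Finset.mem_Icc] at this
      exact abs_le.2 this
    have h4 := wZ_lower N n hN hn (x j) hxj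
    have h5 : 0 ≤ wZ N (x j) * Real.sqrt N := mul_nonneg (wZ_nonneg _ _) hsq.le
    nlinarith
  have h6 := mul_le_mul_of_nonneg_left h2 (h.nn x)
  calc a x = a x * 1 := (mul_one _).symm
    _ ≤ a x * ((Real.sqrt N) ^ d * ∏ j, (2 * Real.pi * wZ N (x j))) := h6
    _ = _ := by ring

/-- the bound on average implies growth, and bounds the value at the origin -/
theorem growthA (hd : 1 ≤ d) {a : (Fin d → ℤ) → ℝ} (h : Good a) (m e : ℕ) (he : 1 ≤ e) (hde : d = 2 * m + e)
    (A : ℝ)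
    (hA : ∀ r : ℝ, 0 < r → r ≤ Real.pi →
      ∫ k in cube d ∩ cell (0 : Fin d → ℝ) r, cs a k * (1 - Dhat k) ^ m ≤ A * r ^ d) :
    ∀ n : ℕ, 1 ≤ n → SA a n ≤ 2 * (2 * d * Real.pi ^ 2) ^ m * 2 ^ m * Z e * A * (n : ℝ) ^ (2 * m) := by
  intro n hn
  have hn0 : (0 : ℝ) < n := by exact_mod_cast hn
  have hA0 : 0 ≤ A := by
    have h1 := hA Real.pi Real.pi_pos le_rfl
    have h2 : 0 ≤ ∫ k in cube d ∩ cell (0 : Fin d → ℝ) Real.pi, cs a k * (1 - Dhat k) ^ m :=
      integral_nonneg fun k => mul_nonneg (h.ft k) (pow_nonneg (one_sub_Dhat_nonneg k) m)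
    exact nonneg_of_mul_nonneg_left (h2.trans h1) (by have := Real.pi_pos; positivity)
  have hm := massA hd h m e he hde A hA0 hA
  have hN : 1 ≤ 2 * n ^ 2 := by
    have : 0 < n ^ 2 := by positivity
    omega
  have h1 := kernelA h e _ hm (2 * n ^ 2) hN
  have h2 := SA_le_U h (2 * n ^ 2) n hN le_rfl
  set s := Real.sqrt ((2 * n ^ 2 : ℕ) : ℝ) with hs
  have hs0 : 0 < s := Real.sqrt_pos.2 (by positivity)
  have hs2 : s ^ 2 = 2 * (n : ℝ) ^ 2 := by
    rw [hs, Real.sq_sqrt (Nat.cast_nonneg _)]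
    push_cast
    ring
  refine h2.trans ((mul_le_mul_of_nonneg_left h1 (by positivity)).trans (le_of_eq ?_))
  have h3 : s ^ d = (2 * (n : ℝ) ^ 2) ^ m * s ^ e := by
    rw [← hs2, ← pow_mul, ← pow_add, ← hde]
  rw [h3, mul_pow, ← pow_mul]
  have : s ^ e ≠ 0 := by positivity
  field_simp

end Pool.Agent.H74.IB
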