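import Pool.Agent.H74.IB.ConvB

/-!
# Convolution powers of the two-point function
-/

set_option autoImplicit false

open MeasureTheory Filter Topology
open scoped ENNReal

namespace Pool.Agent.H74.IB

open Pool.Agent.Results.MP_54f242_pr.InfraredMean

variable {d : ℕ}

/-- the two-point function with values in `[0, ∞]` -/
noncomputable def et (d : ℕ) (p : NNReal) (hp : p ≤ 1) (x : Fin d → ℤ) : ℝ≥0∞ :=
  P d p hp {ω | (opn ω).Reachable 0 x}

/-- the convolution powers -/
noncomputable def ep (d : ℕ) (p : NNReal) (hp : p ≤ 1) : ℕ → (Fin d → ℤ) → ℝ≥0∞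
  | 0, x => if x = 0 then 1 else 0
  | m + 1, x => ∑' y : Fin d → ℤ, et d p hp y * ep d p hp m (x - y)

theorem et_toReal (p : NNReal) (hp : p ≤ 1) (x : Fin d → ℤ) : (et d p hp x).toReal = tau d p hp x := rfl

theorem et_ne_top (p : NNReal) (hp : p ≤ 1) (x : Fin d → ℤ) : et d p hp x ≠ ⊤ := measure_ne_top _ _

theorem et_neg (p : NNReal) (hp : p ≤ 1) (x : Fin d → ℤ) : et d p hp (-x) = et d p hp x := by
  rw [← ENNReal.toReal_eq_toReal_iff' (et_ne_top p hp _) (et_ne_top p hp _), et_toReal, et_toReal, tau_neg]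

theorem ep_neg (p : NNReal) (hp : p ≤ 1) : ∀ (m : ℕ) (x : Fin d → ℤ), ep d p hp m (-x) = ep d p hp m x
  | 0, x => by simp [ep]
  | m + 1, x => by
    unfold ep
    rw [← (Equiv.neg (Fin d → ℤ)).tsum_eq]
    refine tsum_congr fun y => ?_
    simp only [Equiv.neg_apply]
    rw [et_neg, ← ep_neg p hp m]
    congr 2
    abel

theorem sum_et (p : NNReal) (hp : p ≤ 1) (hs : Summable (tau d p hp)) : ∑' x, et d p hp x ≠ ⊤ := by
  have h : ∀ x, et d p hp x = ENNReal.ofReal (tau d p hp x) := fun x => by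
    rw [← et_toReal, ENNReal.ofReal_toReal (et_ne_top p hp x)]
  simp_rw [h]
  rw [← ENNReal.ofReal_tsum_of_nonneg (fun x => tau_nonneg p hp x) hs]
  exact ENNReal.ofReal_ne_top

theorem sum_ep (p : NNReal) (hp : p ≤ 1) : ∀ m : ℕ, ∑' x, ep d p hp m x = (∑' x, et d p hp x) ^ m
  | 0 => by
    unfold ep
    rw [tsum_ite_eq, pow_zero]
  | m + 1 => by
    unfold ep
    rw [ENNReal.tsum_comm]
    have h : ∀ y : Fin d → ℤ, ∑' x, et d p hp y * ep d p hp m (x - y) =
        et d p hp y * ∑' x, ep d p hp m x := by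
      intro y
      rw [ENNReal.tsum_mul_left]
      congr 1
      exact (Equiv.subRight y).tsum_eq (fun x => ep d p hp m x)
    simp_rw [h]
    rw [ENNReal.tsum_mul_right, sum_ep p hp m, pow_succ, mul_comm]

theorem sum_ep_ne_top (p : NNReal) (hp : p ≤ 1) (hs : Summable (tau d p hp)) (m : ℕ) :
    ∑' x, ep d p hp m x ≠ ⊤ := by
  rw [sum_ep]
  exact ENNReal.pow_ne_top (sum_et p hp hs)

theorem ep_ne_top (p : NNReal) (hp : p ≤ 1) (hs : Summable (tau d p hp)) (m : ℕ) (x : Fin d → ℤ) :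
    ep d p hp m x ≠ ⊤ := ne_top_of_le_ne_top (sum_ep_ne_top p hp hs m) (ENNReal.le_tsum x)

/-- the convolution powers as real functions -/
noncomputable def rp (d : ℕ) (p : NNReal) (hp : p ≤ 1) (m : ℕ) (x : Fin d → ℤ) : ℝ := (ep d p hp m x).toReal

theorem rp_nonneg (p : NNReal) (hp : p ≤ 1) (m : ℕ) (x : Fin d → ℤ) : 0 ≤ rp d p hp m x :=
  ENNReal.toReal_nonneg

theorem rp_neg (p : NNReal) (hp : p ≤ 1) (m : ℕ) (x : Fin d → ℤ) : rp d p hp m (-x) = rp d p hp m x := by
  unfold rp; rw [ep_neg]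

theorem rp_summable (p : NNReal) (hp : p ≤ 1) (hs : Summable (tau d p hp)) (m : ℕ) :
    Summable (rp d p hp m) := ENNReal.summable_toReal (sum_ep_ne_top p hp hs m)

theorem rp_succ (p : NNReal) (hp : p ≤ 1) (hs : Summable (tau d p hp)) (m : ℕ) (x : Fin d → ℤ) :
    rp d p hp (m + 1) x = ∑' y, tau d p hp y * rp d p hp m (x - y) := by
  unfold rp
  rw [ep, ENNReal.tsum_toReal_eq (fun y => ENNReal.mul_ne_top (et_ne_top p hp y) (ep_ne_top p hp hs m _))]
  refine tsum_congr fun y => ?_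
  rw [ENNReal.toReal_mul, et_toReal]

theorem sin_sum (b : (Fin d → ℤ) → ℝ) (hev : ∀ x, b (-x) = b x) (k : Fin d → ℝ) :
    ∑' x, b x * Real.sin (dot k x) = 0 := by
  have h : ∑' x, b x * Real.sin (dot k x) = -∑' x, b x * Real.sin (dot k x) := by
    conv_lhs => rw [← (Equiv.neg (Fin d → ℤ)).tsum_eq]
    rw [← tsum_neg]
    refine tsum_congr fun x => ?_
    simp only [Equiv.neg_apply]
    have h1 : dot k (-x) = -dot k x := by
      unfold dot
      rw [← Finset.sum_neg_distrib]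
      refine Finset.sum_congr rfl fun i _ => ?_
      rw [Pi.neg_apply]
      push_cast
      ring
    rw [hev, h1, Real.sin_neg]
    ring
  linarith

theorem cs_conv (f g : (Fin d → ℤ) → ℝ) (hf : ∀ x, 0 ≤ f x) (hg : ∀ x, 0 ≤ g x) (hsf : Summable f)
    (hsg : Summable g) (hev : ∀ x, g (-x) = g x) (k : Fin d → ℝ) :
    cs (fun x => ∑' y, f y * g (x - y)) k = cs f k * cs g k := by
  have h1 : Summable fun q : (Fin d → ℤ) × (Fin d → ℤ) => f q.1 * g q.2 :=
    hsf.mul_of_nonneg hsg hf hg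
  let e : (Fin d → ℤ) × (Fin d → ℤ) ≃ (Fin d → ℤ) × (Fin d → ℤ) :=
    { toFun := fun q => (q.2, q.1 - q.2)
      invFun := fun q => (q.1 + q.2, q.1)
      left_inv := fun q => by
        ext i <;> simp
      right_inv := fun q => by
        ext i <;> simp }
  have h2 : Summable fun q : (Fin d → ℤ) × (Fin d → ℤ) => f q.2 * g (q.1 - q.2) := by
    have := (Equiv.summable_iff e).2 h1
    exact this
  have h3 : Summable fun q : (Fin d → ℤ) × (Fin d → ℤ) => f q.2 * g (q.1 - q.2) * Real.cos (dot k q.1) := by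
    refine Summable.of_norm_bounded h2 fun q => ?_
    rw [norm_mul, Real.norm_eq_abs, Real.norm_eq_abs, abs_of_nonneg (mul_nonneg (hf _) (hg _))]
    exact mul_le_of_le_one_right (mul_nonneg (hf _) (hg _)) (Real.abs_cos_le_one _)
  have hc : Summable fun z => g z * Real.cos (dot k z) := by
    refine Summable.of_norm_bounded hsg fun z => ?_
    rw [norm_mul, Real.norm_eq_abs, Real.norm_eq_abs, abs_of_nonneg (hg _)]
    exact mul_le_of_le_one_right (hg _) (Real.abs_cos_le_one _)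
  have hsn : Summable fun z => g z * Real.sin (dot k z) := by
    refine Summable.of_norm_bounded hsg fun z => ?_
    rw [norm_mul, Real.norm_eq_abs, Real.norm_eq_abs, abs_of_nonneg (hg _)]
    exact mul_le_of_le_one_right (hg _) (Real.abs_sin_le_one _)
  have h4 : ∀ y : Fin d → ℤ, ∑' x, f y * g (x - y) * Real.cos (dot k x) =
      f y * Real.cos (dot k y) * cs g k := by
    intro y
    rw [← (Equiv.addRight y).tsum_eq]
    have h5 : ∀ z : Fin d → ℤ, f y * g ((Equiv.addRight y) z - y) * Real.cos (dot k ((Equiv.addRight y) z)) =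
        f y * Real.cos (dot k y) * (g z * Real.cos (dot k z)) -
          f y * Real.sin (dot k y) * (g z * Real.sin (dot k z)) := by
      intro z
      rw [Equiv.coe_addRight, add_sub_cancel_right, dot_add, Real.cos_add]
      ring
    simp_rw [h5]
    rw [(hc.mul_left _).tsum_sub (hsn.mul_left _), tsum_mul_left, tsum_mul_left, sin_sum g hev k, mul_zero,
      sub_zero]
    rfl
  have h5 : cs (fun x => ∑' y, f y * g (x - y)) k =
      ∑' x, ∑' y, f y * g (x - y) * Real.cos (dot k x) := by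
    unfold cs
    exact tsum_congr fun x => tsum_mul_right.symm
  have h6 : ∑' x, ∑' y, f y * g (x - y) * Real.cos (dot k x) =
      ∑' y, ∑' x, f y * g (x - y) * Real.cos (dot k x) :=
    (Summable.tsum_comm (f := fun x y => f y * g (x - y) * Real.cos (dot k x)) h3).symm
  rw [h5, h6]
  simp_rw [h4]
  rw [tsum_mul_right]
  rfl

theorem cs_rp (p : NNReal) (hp : p ≤ 1) (hs : Summable (tau d p hp)) (k : Fin d → ℝ) :
    ∀ m : ℕ, cs (rp d p hp m) k = (cs (tau d p hp) k) ^ m
  | 0 => by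
    rw [pow_zero]
    unfold cs
    rw [tsum_eq_single (0 : Fin d → ℤ)]
    · simp [rp, ep, dot]
    · intro x hx
      simp [rp, ep, hx]
  | m + 1 => by
    have h1 : rp d p hp (m + 1) = fun x => ∑' y, tau d p hp y * rp d p hp m (x - y) :=
      funext fun x => rp_succ p hp hs m x
    rw [h1, cs_conv _ _ (tau_nonneg p hp) (rp_nonneg p hp m) hs (rp_summable p hp hs m) (rp_neg p hp m),
      cs_rp p hp hs k m, pow_succ, mul_comm]

theorem good_rp (p : NNReal) (hp : p ≤ 1) (hs : Summable (tau d p hp)) (m : ℕ) : Good (rp d p hp m) where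
  nn := rp_nonneg p hp m
  sm := rp_summable p hp hs m
  ev := rp_neg p hp m
  ft := fun k => by
    rw [cs_rp p hp hs]
    exact pow_nonneg (cs_nonneg p hp hs k) m

theorem G_pow (p : NNReal) (hp : p ≤ 1) (hs : Summable (tau d p hp)) (m : ℕ) (k : Fin d → ℝ) :
    (G d p hp k) ^ m = cs (rp d p hp m) k * (1 - Dhat k) ^ m := by
  rw [cs_rp p hp hs, G_def, mul_pow]

/-! ### the critical point -/

theorem et_mono (p q : NNReal) (hp : p ≤ 1) (hq : q ≤ 1) (h : p ≤ q) (x : Fin d → ℤ) :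
    et d p hp x ≤ et d q hq x := by
  rw [← ENNReal.toReal_le_toReal (et_ne_top p hp x) (et_ne_top q hq x), et_toReal, et_toReal]
  exact tau_mono p q hp hq h x

theorem ep_mono (p q : NNReal) (hp : p ≤ 1) (hq : q ≤ 1) (h : p ≤ q) :
    ∀ (m : ℕ) (x : Fin d → ℤ), ep d p hp m x ≤ ep d q hq m x
  | 0, _ => le_refl _
  | m + 1, x => by
    unfold ep
    exact ENNReal.tsum_le_tsum fun y => mul_le_mul' (et_mono p q hp hq h y) (ep_mono p q hp hq h m _)

theorem et_iSup (p : NNReal) (hp : p ≤ 1) (q : ℕ → NNReal) (hq : ∀ n, q n ≤ 1) (hmono : Monotone q)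
    (hle : ∀ n, q n ≤ p) (hlim : Tendsto q atTop (𝓝 p)) (x : Fin d → ℤ) :
    et d p hp x ≤ ⨆ n, et d (q n) (hq n) x := by
  have h1 := tau_tendsto p hp q hq hmono hle hlim x
  have h2 : Tendsto (fun n => et d (q n) (hq n) x) atTop (𝓝 (et d p hp x)) := by
    have h3 := (ENNReal.tendsto_ofReal h1)
    rw [← et_toReal, ENNReal.ofReal_toReal (et_ne_top p hp x)] at h3
    refine h3.congr fun n => ?_
    rw [← et_toReal, ENNReal.ofReal_toReal (et_ne_top _ _ x)]
  exact le_of_tendsto' h2 fun n => le_iSup (fun n => et d (q n) (hq n) x) n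

theorem tsum_iSup_le {ι : Type*} (f : ℕ → ι → ℝ≥0∞) (hf : Monotone f) :
    ∑' y, ⨆ n, f n y ≤ ⨆ n, ∑' y, f n y := by
  rw [ENNReal.tsum_eq_iSup_sum]
  refine iSup_le fun s => ?_
  rw [ENNReal.finsetSum_iSup_of_monotone (fun y => fun m n h => hf h y)]
  exact iSup_mono fun n => ENNReal.sum_le_tsum s

theorem ep_iSup (p : NNReal) (hp : p ≤ 1) (q : ℕ → NNReal) (hq : ∀ n, q n ≤ 1) (hmono : Monotone q)
    (hle : ∀ n, q n ≤ p) (hlim : Tendsto q atTop (𝓝 p)) :
    ∀ (m : ℕ) (x : Fin d → ℤ), ep d p hp m x ≤ ⨆ n, ep d (q n) (hq n) m x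
  | 0, x => le_iSup (fun n => ep d (q n) (hq n) 0 x) 0
  | m + 1, x => by
    have h1 : ∀ y : Fin d → ℤ, et d p hp y * ep d p hp m (x - y) ≤
        ⨆ n, et d (q n) (hq n) y * ep d (q n) (hq n) m (x - y) := by
      intro y
      refine (mul_le_mul' (et_iSup p hp q hq hmono hle hlim y)
        (ep_iSup p hp q hq hmono hle hlim m (x - y))).trans ?_
      rw [ENNReal.iSup_mul]
      refine iSup_le fun i => ?_
      rw [ENNReal.mul_iSup]
      refine iSup_le fun j => ?_
      refine le_trans ?_ (le_iSup (fun n => et d (q n) (hq n) y * ep d (q n) (hq n) m (x - y)) (max i j))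
      exact mul_le_mul' (et_mono _ _ _ _ (hmono (le_max_left i j)) y)
        (ep_mono _ _ _ _ (hmono (le_max_right i j)) m _)
    have h2 : Monotone fun (n : ℕ) (y : Fin d → ℤ) => et d (q n) (hq n) y * ep d (q n) (hq n) m (x - y) := by
      intro i j hij y
      exact mul_le_mul' (et_mono _ _ _ _ (hmono hij) y) (ep_mono _ _ _ _ (hmono hij) m _)
    calc ep d p hp (m + 1) x = ∑' y, et d p hp y * ep d p hp m (x - y) := rfl
      _ ≤ ∑' y, ⨆ n, et d (q n) (hq n) y * ep d (q n) (hq n) m (x - y) := ENNReal.tsum_le_tsum h1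
      _ ≤ ⨆ n, ∑' y, et d (q n) (hq n) y * ep d (q n) (hq n) m (x - y) := tsum_iSup_le _ h2
      _ = _ := rfl

/-- bounds for box sums below the critical point are bounds at the critical point -/
theorem ep_at_pc (m n : ℕ) (B : ℝ≥0∞) :
    (∀ (p : NNReal) (hp : p ≤ 1), Summable (tau d p hp) →
      ∑ x ∈ Fintype.piFinset (fun _ : Fin d => Finset.Icc (-(n : ℤ)) (n : ℤ)), ep d p hp m x ≤ B) ↔
    ∑ x ∈ Fintype.piFinset (fun _ : Fin d => Finset.Icc (-(n : ℤ)) (n : ℤ)),
      ep d (sSup (Sub d)) (sSup_Sub_le d) m x ≤ B := by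
  constructor
  · intro h
    obtain ⟨q, h1, h2, h3, h4⟩ := exists_seq d
    have h5 := ep_iSup (d := d) (sSup (Sub d)) (sSup_Sub_le d) q (fun n => (h2 n).choose) h1 h3 h4 m
    calc ∑ x ∈ Fintype.piFinset (fun _ : Fin d => Finset.Icc (-(n : ℤ)) (n : ℤ)),
        ep d (sSup (Sub d)) (sSup_Sub_le d) m x
        ≤ ∑ x ∈ Fintype.piFinset (fun _ : Fin d => Finset.Icc (-(n : ℤ)) (n : ℤ)),
          ⨆ i, ep d (q i) (h2 i).choose m x := Finset.sum_le_sum fun x _ => h5 x
      _ = ⨆ i, ∑ x ∈ Fintype.piFinset (fun _ : Fin d => Finset.Icc (-(n : ℤ)) (n : ℤ)),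
          ep d (q i) (h2 i).choose m x :=
          ENNReal.finsetSum_iSup_of_monotone fun x => fun i j hij => ep_mono _ _ _ _ (h1 hij) m x
      _ ≤ B := iSup_le fun i => h (q i) (h2 i).choose (h2 i).choose_spec
  · intro h p hp hs
    refine (Finset.sum_le_sum fun x _ => ?_).trans h
    exact ep_mono p _ hp _ (le_csSup (Sub_bdd d) ⟨hp, hs⟩) m x

theorem ep_zero_at_pc (m : ℕ) (B : ℝ≥0∞)
    (h : ∀ (p : NNReal) (hp : p ≤ 1), Summable (tau d p hp) → ep d p hp m 0 ≤ B) :
    ep d (sSup (Sub d)) (sSup_Sub_le d) m 0 ≤ B := by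
  obtain ⟨q, h1, h2, h3, h4⟩ := exists_seq d
  refine (ep_iSup (sSup (Sub d)) (sSup_Sub_le d) q (fun n => (h2 n).choose) h1 h3 h4 m 0).trans ?_
  exact iSup_le fun i => h (q i) (h2 i).choose (h2 i).choose_spec

theorem box_ep (p : NNReal) (hp : p ≤ 1) (hs : Summable (tau d p hp)) (m n : ℕ) :
    ∑ x ∈ Fintype.piFinset (fun _ : Fin d => Finset.Icc (-(n : ℤ)) (n : ℤ)), ep d p hp m x =
      ENNReal.ofReal (SA (rp d p hp m) n) := by
  unfold SA
  rw [ENNReal.ofReal_sum_of_nonneg (fun x _ => rp_nonneg p hp m x)]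
  refine Finset.sum_congr rfl fun x _ => ?_
  unfold rp
  rw [ENNReal.ofReal_toReal (ep_ne_top p hp hs m x)]

end Pool.Agent.H74.IB
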