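import Pool.Agent.H74.IB.GrowthF

/-!
# Continuity from the left of the two-point function, and the critical point
-/

set_option autoImplicit false

open MeasureTheory Filter Topology

namespace Pool.Agent.H74.IB

open Pool.Agent.Results.MP_54f242_pr.InfraredMean

variable {d : ℕ}

/-- the edges with a label below `r` -/
noncomputable def thr (r : NNReal) (V : (Fin d → ℤ) × Fin d → unitInterval) (e : (Fin d → ℤ) × Fin d) : Bool :=
  decide ((V e : ℝ) < r)

theorem thr_one_meas (r : NNReal) : Measurable (fun u : unitInterval => decide ((u : ℝ) < r)) := by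
  refine measurable_to_bool ?_
  have : (fun u : unitInterval => decide ((u : ℝ) < r)) ⁻¹' {true} = {u : unitInterval | (u : ℝ) < r} := by
    ext u; simp
  rw [this]
  exact measurableSet_lt (by fun_prop) measurable_const

theorem thr_meas (r : NNReal) : Measurable (thr (d := d) r) :=
  measurable_pi_iff.2 fun e => (thr_one_meas r).comp (measurable_pi_apply e)

theorem thr_one_map (r : NNReal) (hr : r ≤ 1) :
    (volume : Measure unitInterval).map (fun u : unitInterval => decide ((u : ℝ) < r)) =
      (PMF.bernoulli r hr).toMeasure := by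
  have : IsProbabilityMeasure ((volume : Measure unitInterval).map
      (fun u : unitInterval => decide ((u : ℝ) < r))) :=
    Measure.isProbabilityMeasure_map (thr_one_meas r).aemeasurable
  refine bool_ext _ _ ?_
  rw [Measure.map_apply (thr_one_meas r) (MeasurableSet.singleton true), ber_true]
  have h1 : (fun u : unitInterval => decide ((u : ℝ) < r)) ⁻¹' {true} =
      Set.Iio (⟨(r : ℝ), r.2, by exact_mod_cast hr⟩ : unitInterval) := by
    ext u
    simp only [Set.mem_preimage, Set.mem_singleton_iff, decide_eq_true_eq, Set.mem_Iio]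
    rfl
  rw [h1, unitInterval.volume_Iio]
  exact ENNReal.ofReal_coe_nnreal

theorem thr_map (r : NNReal) (hr : r ≤ 1) :
    (Measure.infinitePi (fun _ : (Fin d → ℤ) × Fin d => (volume : Measure unitInterval))).map (thr r) =
      P d r hr := by
  have := Measure.infinitePi_map_pi (μ := fun _ : (Fin d → ℤ) × Fin d => (volume : Measure unitInterval))
    (f := fun _ => (fun u : unitInterval => decide ((u : ℝ) < r))) (fun _ => thr_one_meas r)
  simp only [thr_one_map r hr] at this
  exact this

theorem tau_thr (r : NNReal) (hr : r ≤ 1) (x : Fin d → ℤ) :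
    tau d r hr x = ((Measure.infinitePi (fun _ : (Fin d → ℤ) × Fin d => (volume : Measure unitInterval)))
      {V | (opn (thr r V)).Reachable 0 x}).toReal := by
  unfold tau
  rw [← thr_map r hr, Measure.map_apply (thr_meas r) (meas_reach _ _)]
  rfl

/-- continuity from the left -/
theorem tau_tendsto (p : NNReal) (hp : p ≤ 1) (q : ℕ → NNReal) (hq : ∀ n, q n ≤ 1) (hmono : Monotone q)
    (hle : ∀ n, q n ≤ p) (hlim : Tendsto q atTop (𝓝 p)) (x : Fin d → ℤ) :
    Tendsto (fun n => tau d (q n) (hq n) x) atTop (𝓝 (tau d p hp x)) := by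
  set M := Measure.infinitePi (fun _ : (Fin d → ℤ) × Fin d => (volume : Measure unitInterval)) with hM
  set A : ℕ → Set ((Fin d → ℤ) × Fin d → unitInterval) := fun n => {V | (opn (thr (q n) V)).Reachable 0 x}
    with hA
  have hopn : ∀ (V : (Fin d → ℤ) × Fin d → unitInterval) (r s : NNReal), r ≤ s →
      opn (thr r V) ≤ opn (thr s V) := by
    intro V r s hrs
    refine opn_mono fun e he => ?_
    simp only [thr, decide_eq_true_eq] at he ⊢
    exact he.trans_le (by exact_mod_cast hrs)
  have hAm : Monotone A := by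
    intro m n hmn V hV
    exact SimpleGraph.Reachable.mono (hopn V _ _ (hmono hmn)) hV
  have hlim' : Tendsto (fun n => ((q n : NNReal) : ℝ)) atTop (𝓝 (p : ℝ)) :=
    (NNReal.tendsto_coe.2 hlim)
  have hadj : ∀ (V : (Fin d → ℤ) × Fin d → unitInterval) (a b : Fin d → ℤ), (opn (thr p V)).Adj a b →
      ∃ n, (opn (thr (q n) V)).Adj a b := by
    intro V a b hab
    have key : ∀ e, thr p V e = true → ∃ n, thr (q n) V e = true := by
      intro e he
      simp only [thr, decide_eq_true_eq] at he
      obtain ⟨n, hn⟩ := (hlim'.eventually (lt_mem_nhds he)).exists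
      exact ⟨n, by simp only [thr, decide_eq_true_eq]; exact hn⟩
    rw [opn, SimpleGraph.fromRel_adj] at hab
    rcases hab.2 with ⟨i, h1, h2⟩ | ⟨i, h1, h2⟩
    · obtain ⟨n, hn⟩ := key _ h2
      refine ⟨n, ?_⟩
      rw [opn, SimpleGraph.fromRel_adj]
      exact ⟨hab.1, Or.inl ⟨i, h1, hn⟩⟩
    · obtain ⟨n, hn⟩ := key _ h2
      refine ⟨n, ?_⟩
      rw [opn, SimpleGraph.fromRel_adj]
      exact ⟨hab.1, Or.inr ⟨i, h1, hn⟩⟩
  have hreach : ∀ (V : (Fin d → ℤ) × Fin d → unitInterval) (a b : Fin d → ℤ),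
      (opn (thr p V)).Reachable a b → ∃ n, (opn (thr (q n) V)).Reachable a b := by
    rintro V a b ⟨W⟩
    induction W with
    | nil => exact ⟨0, SimpleGraph.Reachable.refl _⟩
    | cons h _ ih =>
      obtain ⟨n, hn⟩ := ih
      obtain ⟨m, hm⟩ := hadj V _ _ h
      refine ⟨max m n, ?_⟩
      have h1 := SimpleGraph.Reachable.mono (hopn V _ _ (hmono (le_max_left m n))) hm.reachable
      have h2 := SimpleGraph.Reachable.mono (hopn V _ _ (hmono (le_max_right m n))) hn
      exact h1.trans h2
  have hU : ⋃ n, A n = {V | (opn (thr p V)).Reachable 0 x} := by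
    ext V
    simp only [Set.mem_iUnion, hA, Set.mem_setOf_eq]
    constructor
    · rintro ⟨n, hn⟩
      exact SimpleGraph.Reachable.mono (hopn V _ _ (hle n)) hn
    · exact hreach V 0 x
  have h1 : Tendsto (fun n => M (A n)) atTop (𝓝 (M (⋃ n, A n))) := tendsto_measure_iUnion_atTop hAm
  rw [hU] at h1
  have h2 := (ENNReal.tendsto_toReal (measure_ne_top M {V | (opn (thr p V)).Reachable 0 x})).comp h1
  have h3 : (fun n => tau d (q n) (hq n) x) = fun n => (M (A n)).toReal := by
    funext n
    rw [tau_thr]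
  rw [h3, tau_thr]
  exact h2

/-- the parameters of finite susceptibility -/
def Sub (d : ℕ) : Set NNReal := {p | ∃ hp : p ≤ 1, Summable (tau d p hp)}

theorem zero_mem_Sub (d : ℕ) : (0 : NNReal) ∈ Sub d := by
  refine ⟨zero_le_one, ?_⟩
  refine (hasSum_single (0 : Fin d → ℤ) fun x hx => tau_zero_param x hx).summable

theorem Sub_bdd (d : ℕ) : BddAbove (Sub d) := ⟨1, fun _ hp => hp.choose⟩

theorem sSup_Sub_le (d : ℕ) : sSup (Sub d) ≤ 1 := csSup_le ⟨0, zero_mem_Sub d⟩ fun _ hp => hp.choose

theorem exists_seq (d : ℕ) : ∃ q : ℕ → NNReal, Monotone q ∧ (∀ n, q n ∈ Sub d) ∧ (∀ n, q n ≤ sSup (Sub d)) ∧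
    Tendsto q atTop (𝓝 (sSup (Sub d))) := by
  obtain ⟨q, h1, h2, h3⟩ := exists_seq_tendsto_sSup ⟨0, zero_mem_Sub d⟩ (Sub_bdd d)
  exact ⟨q, h1, h3, fun n => le_csSup (Sub_bdd d) (h3 n), h2⟩

/-- the growth is nondecreasing in `p` -/
theorem S_mono_param (p q : NNReal) (hp : p ≤ 1) (hq : q ≤ 1) (h : p ≤ q) (n : ℕ) :
    S d p hp n ≤ S d q hq n :=
  Finset.sum_le_sum fun x _ => tau_mono p q hp hq h x

/-- a bound for finite combinations below the critical point holds at the critical point -/
theorem critical_of_sub (n : ℕ) (B : ℝ) (h : ∀ (p : NNReal) (hp : p ≤ 1), Summable (tau d p hp) → S d p hp n ≤ B) :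
    S d (sSup (Sub d)) (sSup_Sub_le d) n ≤ B := by
  obtain ⟨q, h1, h2, h3, h4⟩ := exists_seq d
  have h5 : Tendsto (fun m => S d (q m) (h2 m).choose n) atTop (𝓝 (S d (sSup (Sub d)) (sSup_Sub_le d) n)) := by
    unfold S
    exact tendsto_finset_sum _ fun x _ => tau_tendsto _ _ q _ h1 h3 h4 x
  exact le_of_tendsto' h5 fun m => h _ _ (h2 m).choose_spec

end Pool.Agent.H74.IB
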