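import Pool.Agent.H74.IB.Lower

/-!
# Averages of the transform of the two-point function over small cubes, upper bound
-/

set_option autoImplicit false

open MeasureTheory Filter Topology

namespace Pool.Agent.H74.IB

open Pool.Agent.Results.MP_54f242_pr.InfraredMean

variable {d : ℕ}

/-- the expected number of points of the cluster of the origin in `[-n, n]^d` -/
noncomputable def S (d : ℕ) (p : NNReal) (hp : p ≤ 1) (n : ℕ) : ℝ :=
  ∑ x ∈ Fintype.piFinset (fun _ : Fin d => Finset.Icc (-(n : ℤ)) (n : ℤ)), tau d p hp x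

theorem S_ge_one (p : NNReal) (hp : p ≤ 1) (n : ℕ) : 1 ≤ S d p hp n := by
  unfold S
  rw [← tau_zero (d := d) p hp]
  refine Finset.single_le_sum (f := tau d p hp) (fun x _ => tau_nonneg p hp x) ?_
  rw [Fintype.mem_piFinset]
  intro i
  simp

theorem sum_box_le (p : NNReal) (hp : p ≤ 1) (n : ℕ) :
    ∑ x ∈ box d n, ∑ y ∈ box d n, tau d p hp (y - x) ≤ (n : ℝ) ^ d * S d p hp n := by
  classical
  have h1 : ∀ x ∈ box d n, ∑ y ∈ box d n, tau d p hp (y - x) ≤ S d p hp n := by
    intro x hx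
    have h2 : ∑ y ∈ box d n, tau d p hp (y - x) =
        ∑ z ∈ (box d n).map (Equiv.subRight x).toEmbedding, tau d p hp z := by
      rw [Finset.sum_map]
      rfl
    rw [h2]
    refine Finset.sum_le_sum_of_subset_of_nonneg ?_ (fun z _ _ => tau_nonneg p hp z)
    intro z hz
    rw [Finset.mem_map] at hz
    obtain ⟨y, hy, rfl⟩ := hz
    rw [Fintype.mem_piFinset]
    intro i
    have hyi := Fintype.mem_piFinset.1 hy i
    have hxi := Fintype.mem_piFinset.1 hx i
    rw [Finset.mem_Ico] at hyi hxi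
    rw [Finset.mem_Icc]
    change -(n : ℤ) ≤ y i - x i ∧ y i - x i ≤ n
    omega
  calc ∑ x ∈ box d n, ∑ y ∈ box d n, tau d p hp (y - x) ≤ ∑ x ∈ box d n, S d p hp n :=
        Finset.sum_le_sum h1
    _ = (n : ℝ) ^ d * S d p hp n := by rw [Finset.sum_const, nsmul_eq_mul, box_card]

theorem sum_box_ge (p : NNReal) (hp : p ≤ 1) (m : ℕ) :
    (m : ℝ) ^ d * S d p hp m ≤ ∑ x ∈ box d (3 * m), ∑ y ∈ box d (3 * m), tau d p hp (y - x) := by
  classical
  set mid : Finset (Fin d → ℤ) := Fintype.piFinset (fun _ => Finset.Ico (m : ℤ) (2 * m : ℤ)) with hmid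
  have hc : ((mid.card : ℕ) : ℝ) = (m : ℝ) ^ d := by
    rw [hmid, Fintype.card_piFinset]
    simp [two_mul]
  have hsub : mid ⊆ box d (3 * m) := by
    intro x hx
    rw [hmid, Fintype.mem_piFinset] at hx
    rw [box, Fintype.mem_piFinset]
    intro i
    have := hx i
    rw [Finset.mem_Ico] at this ⊢
    push_cast
    omega
  rw [← hc, ← nsmul_eq_mul, ← Finset.sum_const]
  refine le_trans ?_ (Finset.sum_le_sum_of_subset_of_nonneg hsub
    (fun x _ _ => Finset.sum_nonneg fun y _ => tau_nonneg p hp _))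
  refine Finset.sum_le_sum fun x hx => ?_
  unfold S
  have h2 : ∑ z ∈ Fintype.piFinset (fun _ : Fin d => Finset.Icc (-(m : ℤ)) (m : ℤ)), tau d p hp z =
      ∑ y ∈ (Fintype.piFinset (fun _ : Fin d => Finset.Icc (-(m : ℤ)) (m : ℤ))).map
        (Equiv.addRight x).toEmbedding, tau d p hp (y - x) := by
    rw [Finset.sum_map]
    refine Finset.sum_congr rfl fun z _ => ?_
    change tau d p hp z = tau d p hp (z + x - x)
    rw [add_sub_cancel_right]
  rw [h2]
  refine Finset.sum_le_sum_of_subset_of_nonneg ?_ (fun z _ _ => tau_nonneg p hp _)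
  intro y hy
  rw [Finset.mem_map] at hy
  obtain ⟨z, hz, rfl⟩ := hy
  rw [box, Fintype.mem_piFinset]
  intro i
  have hzi := Fintype.mem_piFinset.1 hz i
  have hxi := Fintype.mem_piFinset.1 hx i
  rw [Finset.mem_Icc] at hzi
  rw [Finset.mem_Ico] at hxi ⊢
  change 0 ≤ z i + x i ∧ z i + x i < ((3 * m : ℕ) : ℤ)
  push_cast
  omega

/-- the cube with centre `k₀` and radius `r` -/
def cell (k₀ : Fin d → ℝ) (r : ℝ) : Set (Fin d → ℝ) := {k | ∀ j, |k j - k₀ j| ≤ r}

theorem cell_meas (k₀ : Fin d → ℝ) (r : ℝ) : MeasurableSet (cell k₀ r) := by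
  have : cell k₀ r = ⋂ j, {k : Fin d → ℝ | |k j - k₀ j| ≤ r} := by
    ext k; simp [cell]
  rw [this]
  refine MeasurableSet.iInter fun j => ?_
  exact (isClosed_le (by fun_prop) continuous_const).measurableSet

theorem tau_abs_summable (p : NNReal) (hp : p ≤ 1) (hs : Summable (tau d p hp)) :
    Summable fun x => |tau d p hp x| := by
  simpa only [abs_of_nonneg (tau_nonneg p hp _)] using hs

theorem cs_nonneg (p : NNReal) (hp : p ≤ 1) (hs : Summable (tau d p hp)) (k : Fin d → ℝ) :
    0 ≤ cs (tau d p hp) k := hat_nonneg p hp hs k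

theorem near_lower (hd : 1 ≤ d) (n : ℕ) (hn : 1 ≤ n) (k₀ k : Fin d → ℝ)
    (hk : k ∈ cell k₀ (1 / (d * n))) :
    ((n : ℝ) ^ d) ^ 2 / 8 ≤
      ‖∑ x ∈ box d n, ((Real.cos (dot k₀ x) : ℝ) : ℂ) * Complex.exp ((dot k x : ℝ) * Complex.I)‖ ^ 2 +
      ‖∑ x ∈ box d n, ((Real.sin (dot k₀ x) : ℝ) : ℂ) * Complex.exp ((dot k x : ℝ) * Complex.I)‖ ^ 2 := by
  have hd0 : (0 : ℝ) < d := by exact_mod_cast hd
  have hn0 : (0 : ℝ) < n := by exact_mod_cast hn
  set a := ∑ x ∈ box d n, ((Real.cos (dot k₀ x) : ℝ) : ℂ) * Complex.exp ((dot k x : ℝ) * Complex.I) with ha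
  set b := ∑ x ∈ box d n, ((Real.sin (dot k₀ x) : ℝ) : ℂ) * Complex.exp ((dot k x : ℝ) * Complex.I) with hb
  have h1 : a - Complex.I * b = ∑ x ∈ box d n, Complex.exp (((dot k x - dot k₀ x : ℝ) : ℂ) * Complex.I) := by
    rw [ha, hb, Finset.mul_sum, ← Finset.sum_sub_distrib]
    refine Finset.sum_congr rfl fun x _ => ?_
    have e1 : Complex.exp (((dot k x - dot k₀ x : ℝ) : ℂ) * Complex.I) =
        Complex.exp (((-(dot k₀ x) : ℝ) : ℂ) * Complex.I) * Complex.exp (((dot k x : ℝ) : ℂ) * Complex.I) := by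
      rw [← Complex.exp_add]
      push_cast
      ring_nf
    rw [e1, Complex.exp_mul_I (((-(dot k₀ x) : ℝ) : ℂ)), ← Complex.ofReal_cos, ← Complex.ofReal_sin,
      Real.cos_neg, Real.sin_neg]
    push_cast
    ring
  have h2 : (n : ℝ) ^ d / 2 ≤ (a - Complex.I * b).re := by
    rw [h1, Complex.re_sum]
    have h3 : ∀ x ∈ box d n, (1 : ℝ) / 2 ≤ (Complex.exp (((dot k x - dot k₀ x : ℝ) : ℂ) * Complex.I)).re := by
      intro x hx
      rw [Complex.exp_ofReal_mul_I_re]
      have h4 : |dot k x - dot k₀ x| ≤ 1 := by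
        have h5 : dot k x - dot k₀ x = ∑ i, (k i - k₀ i) * (x i : ℝ) := by
          unfold dot
          rw [← Finset.sum_sub_distrib]
          exact Finset.sum_congr rfl fun i _ => by ring
        rw [h5]
        refine (Finset.abs_sum_le_sum_abs _ _).trans ?_
        have h6 : ∀ i ∈ (Finset.univ : Finset (Fin d)), |(k i - k₀ i) * (x i : ℝ)| ≤ 1 / (d : ℝ) := by
          intro i _
          have hxi := Fintype.mem_piFinset.1 hx i
          rw [Finset.mem_Ico] at hxi
          have h7 : |(x i : ℝ)| ≤ n := by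
            rw [abs_of_nonneg (by exact_mod_cast hxi.1)]
            exact_mod_cast hxi.2.le
          rw [abs_mul]
          calc |k i - k₀ i| * |(x i : ℝ)| ≤ 1 / (d * n) * n :=
                mul_le_mul (hk i) h7 (abs_nonneg _) (by positivity)
            _ = 1 / (d : ℝ) := by field_simp
        refine (Finset.sum_le_sum h6).trans ?_
        rw [Finset.sum_const, Finset.card_univ, Fintype.card_fin, nsmul_eq_mul]
        rw [mul_one_div, div_self hd0.ne']
      have h8 := Real.one_sub_sq_div_two_le_cos (x := dot k x - dot k₀ x)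
      have h9 : (dot k x - dot k₀ x) ^ 2 ≤ 1 := by
        rw [← sq_abs]
        exact pow_le_one₀ (abs_nonneg _) h4
      linarith
    calc (n : ℝ) ^ d / 2 = ∑ _x ∈ box d n, (1 : ℝ) / 2 := by
          rw [Finset.sum_const, nsmul_eq_mul, box_card]; ring
      _ ≤ _ := Finset.sum_le_sum h3
  have h10 : (n : ℝ) ^ d / 2 ≤ ‖a‖ + ‖b‖ := by
    refine h2.trans ((Complex.re_le_norm _).trans ((norm_sub_le _ _).trans ?_))
    rw [norm_mul, Complex.norm_I, one_mul]
  have h11 : 0 ≤ (n : ℝ) ^ d / 2 := by positivity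
  have h12 : ((n : ℝ) ^ d / 2) ^ 2 ≤ (‖a‖ + ‖b‖) ^ 2 := pow_le_pow_left₀ h11 h10 2
  nlinarith [sq_nonneg (‖a‖ - ‖b‖)]

theorem mass_le (hd : 1 ≤ d) (p : NNReal) (hp : p ≤ 1) (hs : Summable (tau d p hp)) (n : ℕ) (hn : 1 ≤ n)
    (k₀ : Fin d → ℝ) :
    (n : ℝ) ^ d * ∫ k in cube d ∩ cell k₀ (1 / (d * n)), cs (tau d p hp) k ≤
      8 * (2 * Real.pi) ^ d * S d p hp n := by
  have hfm : IsFiniteMeasure (volume.restrict (cube d)) := ⟨by simpa using cube_fin⟩
  have hn0 : (0 : ℝ) < n := by exact_mod_cast hn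
  set f : (Fin d → ℝ) → ℝ := fun k =>
      ‖∑ x ∈ box d n, ((Real.cos (dot k₀ x) : ℝ) : ℂ) * Complex.exp ((dot k x : ℝ) * Complex.I)‖ ^ 2 with hf
  set g : (Fin d → ℝ) → ℝ := fun k =>
      ‖∑ x ∈ box d n, ((Real.sin (dot k₀ x) : ℝ) : ℂ) * Complex.exp ((dot k x : ℝ) * Complex.I)‖ ^ 2 with hg
  have hcs := cs_cont _ (tau_abs_summable p hp hs)
  have hfc : Continuous f := by simp only [hf]; unfold dot; fun_prop
  have hgc : Continuous g := by simp only [hg]; unfold dot; fun_prop
  have h1 := quad_eq_integral p hp hs (box d n) (fun x => x) (fun x => Real.cos (dot k₀ x))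
  have h2 := quad_eq_integral p hp hs (box d n) (fun x => x) (fun x => Real.sin (dot k₀ x))
  have hi1 : Integrable (fun k => cs (tau d p hp) k * f k) (volume.restrict (cube d)) :=
    integrable_of_cont (hcs.mul hfc)
  have hi2 : Integrable (fun k => cs (tau d p hp) k * g k) (volume.restrict (cube d)) :=
    integrable_of_cont (hcs.mul hgc)
  have h3 : ∫ k in cube d, cs (tau d p hp) k * (f k + g k) =
      (2 * Real.pi) ^ d * (quad d p hp (box d n) (fun x => x) (fun x => Real.cos (dot k₀ x)) +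
        quad d p hp (box d n) (fun x => x) (fun x => Real.sin (dot k₀ x))) := by
    rw [mul_add, h1, h2, ← integral_add hi1 hi2]
    refine integral_congr_ae (Eventually.of_forall fun k => ?_)
    simp only [hf, hg]
    ring
  have h4 : quad d p hp (box d n) (fun x => x) (fun x => Real.cos (dot k₀ x)) +
        quad d p hp (box d n) (fun x => x) (fun x => Real.sin (dot k₀ x)) ≤ (n : ℝ) ^ d * S d p hp n := by
    refine le_trans ?_ (sum_box_le p hp n)
    unfold quad
    rw [← Finset.sum_add_distrib]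
    refine Finset.sum_le_sum fun x _ => ?_
    rw [← Finset.sum_add_distrib]
    refine Finset.sum_le_sum fun y _ => ?_
    rw [← add_mul]
    have h5 : Real.cos (dot k₀ x) * Real.cos (dot k₀ y) + Real.sin (dot k₀ x) * Real.sin (dot k₀ y) ≤ 1 := by
      rw [← Real.cos_sub]
      exact Real.cos_le_one _
    calc _ ≤ 1 * tau d p hp (y - x) := mul_le_mul_of_nonneg_right h5 (tau_nonneg p hp _)
      _ = _ := one_mul _
  have h6 : ((n : ℝ) ^ d) ^ 2 / 8 * ∫ k in cube d ∩ cell k₀ (1 / (d * n)), cs (tau d p hp) k ≤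
      ∫ k in cube d, cs (tau d p hp) k * (f k + g k) := by
    rw [← integral_const_mul]
    have hi3 : Integrable (fun k => cs (tau d p hp) k * (f k + g k)) (volume.restrict (cube d)) :=
      integrable_of_cont (hcs.mul (hfc.add hgc))
    calc ∫ k in cube d ∩ cell k₀ (1 / (d * n)), ((n : ℝ) ^ d) ^ 2 / 8 * cs (tau d p hp) k
        ≤ ∫ k in cube d ∩ cell k₀ (1 / (d * n)), cs (tau d p hp) k * (f k + g k) := by
          refine setIntegral_mono_on ?_ ?_ (cube_meas.inter (cell_meas _ _)) (fun k hk => ?_)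
          · exact ((integrable_of_cont (hcs.const_mul _)).mono_measure
              (Measure.restrict_mono Set.inter_subset_left le_rfl) :
                Integrable (fun k => ((n : ℝ) ^ d) ^ 2 / 8 * cs (tau d p hp) k) _)
          · exact hi3.mono_measure (Measure.restrict_mono Set.inter_subset_left le_rfl)
          · have := near_lower hd n hn k₀ k hk.2
            rw [mul_comm]
            exact mul_le_mul_of_nonneg_left this (cs_nonneg p hp hs k)
      _ ≤ ∫ k in cube d, cs (tau d p hp) k * (f k + g k) := by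
          refine setIntegral_mono_set hi3 (Eventually.of_forall fun k => ?_)
            (Eventually.of_forall Set.inter_subset_left)
          exact mul_nonneg (cs_nonneg p hp hs k) (add_nonneg (by positivity) (by positivity))
  have h7 : (n : ℝ) ^ d * ((n : ℝ) ^ d * ∫ k in cube d ∩ cell k₀ (1 / (d * n)), cs (tau d p hp) k) ≤
      (n : ℝ) ^ d * (8 * (2 * Real.pi) ^ d * S d p hp n) := by
    rw [h3] at h6
    have h8 := mul_le_mul_of_nonneg_left h4 (by positivity : (0 : ℝ) ≤ (2 * Real.pi) ^ d)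
    nlinarith
  exact le_of_mul_le_mul_left h7 (by positivity)

end Pool.Agent.H74.IB
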