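import Pool.Agent.H74.IB.GrowthA

/-!
# Quadratic growth implies the infrared bound on average over the cubes around the origin
-/

set_option autoImplicit false

open MeasureTheory Filter Topology

namespace Pool.Agent.H74.IB

open Pool.Agent.Results.MP_54f242_pr.InfraredMean

variable {d : ℕ}

theorem G_def (p : NNReal) (hp : p ≤ 1) (k : Fin d → ℝ) :
    G d p hp k = cs (tau d p hp) k * (1 - Dhat k) := rfl

theorem one_sub_Dhat (hd : 1 ≤ d) (k : Fin d → ℝ) :
    1 - Dhat k = (1 / (d : ℝ)) * ∑ i : Fin d, (1 - Real.cos (k i)) := by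
  rw [Finset.sum_sub_distrib, Finset.sum_const, Finset.card_univ, Fintype.card_fin, Dhat]
  have : (d : ℝ) ≠ 0 := by positivity
  field_simp
  simp

theorem one_sub_Dhat_le (hd : 1 ≤ d) (k : Fin d → ℝ) (r : ℝ) (hk : k ∈ cell (0 : Fin d → ℝ) r) :
    1 - Dhat k ≤ r ^ 2 / 2 := by
  have hd0 : (0 : ℝ) < d := by exact_mod_cast hd
  rw [one_sub_Dhat hd]
  have h1 : ∀ i ∈ (Finset.univ : Finset (Fin d)), 1 - Real.cos (k i) ≤ r ^ 2 / 2 := by
    intro i _
    have h2 := Real.one_sub_sq_div_two_le_cos (x := k i)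
    have h3 : |k i| ≤ r := by simpa [cell] using hk i
    have h4 : (k i) ^ 2 ≤ r ^ 2 := by
      rw [← sq_abs]
      exact pow_le_pow_left₀ (abs_nonneg _) h3 2
    linarith
  have h5 := Finset.sum_le_sum h1
  rw [Finset.sum_const, Finset.card_univ, Fintype.card_fin, nsmul_eq_mul] at h5
  rw [one_div, inv_mul_le_iff₀ hd0]
  exact h5

theorem one_sub_Dhat_nonneg (k : Fin d → ℝ) : 0 ≤ 1 - Dhat k := by
  have := (abs_le.1 (Dhat_le k)).2; linarith

theorem avg_small (hd : 1 ≤ d) (p : NNReal) (hp : p ≤ 1) (hs : Summable (tau d p hp)) (n : ℕ) (hn : 1 ≤ n)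
    (r : ℝ) (hr0 : 0 < r) (hr : r ≤ 1 / (d * n)) :
    (n : ℝ) ^ d * ∫ k in cube d ∩ cell (0 : Fin d → ℝ) r, G d p hp k ≤
      (r ^ 2 / 2) * (8 * (2 * Real.pi) ^ d * S d p hp n) := by
  have hcs := cs_cont _ (tau_abs_summable p hp hs)
  have hci : Integrable (cs (tau d p hp)) (volume.restrict (cube d)) := integrable_of_cont hcs
  have h1 : ∫ k in cube d ∩ cell (0 : Fin d → ℝ) r, G d p hp k ≤
      (r ^ 2 / 2) * ∫ k in cube d ∩ cell (0 : Fin d → ℝ) (1 / (d * n)), cs (tau d p hp) k := by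
    calc ∫ k in cube d ∩ cell (0 : Fin d → ℝ) r, G d p hp k
        ≤ ∫ k in cube d ∩ cell (0 : Fin d → ℝ) r, (r ^ 2 / 2) * cs (tau d p hp) k := by
          refine setIntegral_mono_on ?_ ?_ (cube_meas.inter (cell_meas _ _)) (fun k hk => ?_)
          · exact (G_integrable p hp hs).mono_measure (Measure.restrict_mono Set.inter_subset_left le_rfl)
          · exact (hci.const_mul _).mono_measure (Measure.restrict_mono Set.inter_subset_left le_rfl)
          · rw [G_def, mul_comm]
            exact mul_le_mul_of_nonneg_right (one_sub_Dhat_le hd k r hk.2) (cs_nonneg p hp hs k)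
      _ = (r ^ 2 / 2) * ∫ k in cube d ∩ cell (0 : Fin d → ℝ) r, cs (tau d p hp) k := integral_const_mul _ _
      _ ≤ _ := by
          refine mul_le_mul_of_nonneg_left ?_ (by positivity)
          refine setIntegral_mono_set
            (hci.mono_measure (Measure.restrict_mono Set.inter_subset_left le_rfl))
            (Eventually.of_forall fun k => cs_nonneg p hp hs k) (Eventually.of_forall fun k hk => ?_)
          exact ⟨hk.1, fun j => (hk.2 j).trans hr⟩
  have h2 := mass_le hd p hp hs n hn (0 : Fin d → ℝ)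
  calc (n : ℝ) ^ d * ∫ k in cube d ∩ cell (0 : Fin d → ℝ) r, G d p hp k
      ≤ (n : ℝ) ^ d * ((r ^ 2 / 2) *
          ∫ k in cube d ∩ cell (0 : Fin d → ℝ) (1 / (d * n)), cs (tau d p hp) k) :=
        mul_le_mul_of_nonneg_left h1 (by positivity)
    _ = (r ^ 2 / 2) * ((n : ℝ) ^ d *
          ∫ k in cube d ∩ cell (0 : Fin d → ℝ) (1 / (d * n)), cs (tau d p hp) k) := by ring
    _ ≤ _ := mul_le_mul_of_nonneg_left h2 (by positivity)

/-- quadratic growth implies the infrared bound on average -/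
theorem avg_le (hd : 1 ≤ d) (p : NNReal) (hp : p ≤ 1) (hs : Summable (tau d p hp)) (b : ℝ)
    (hb : ∀ n : ℕ, 1 ≤ n → S d p hp n ≤ b * (n : ℝ) ^ 2) (r : ℝ) (hr0 : 0 < r) :
    ∫ k in cube d ∩ cell (0 : Fin d → ℝ) r, G d p hp k ≤ 4 * (4 * Real.pi * d) ^ d * b * r ^ d := by
  have hd0 : (0 : ℝ) < d := by exact_mod_cast hd
  have hd1 : (1 : ℝ) ≤ d := by exact_mod_cast hd
  have hpi := Real.pi_pos
  have hb1 : 1 ≤ b := by
    have := (S_ge_one (d := d) p hp 1).trans (hb 1 le_rfl)
    simpa using this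
  rcases le_or_gt r (1 / d) with hr | hr
  · set x : ℝ := 1 / (d * r) with hx
    have hx1 : 1 ≤ x := by
      rw [hx, le_div_iff₀ (by positivity), one_mul]
      rw [le_div_iff₀ hd0] at hr
      linarith
    set n : ℕ := ⌊x⌋₊ with hn
    have hn1 : 1 ≤ n := Nat.one_le_iff_ne_zero.2 (by
      rw [hn]; exact (Nat.floor_pos.2 hx1).ne')
    have hnx : (n : ℝ) ≤ x := Nat.floor_le (by linarith)
    have hxn : x ≤ 2 * n := by
      have h1 : x < n + 1 := Nat.lt_floor_add_one x
      have h2 : (1 : ℝ) ≤ n := by exact_mod_cast hn1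
      linarith
    have hn0 : (0 : ℝ) < n := by exact_mod_cast hn1
    have hrn : r ≤ 1 / (d * n) := by
      rw [le_div_iff₀ (by positivity)]
      rw [hx, le_div_iff₀ (by positivity)] at hnx
      linarith
    have h3 := avg_small hd p hp hs n hn1 r hr0 hrn
    have h4 := hb n hn1
    set I := ∫ k in cube d ∩ cell (0 : Fin d → ℝ) r, G d p hp k with hI
    have h5 : (n : ℝ) ^ d * I ≤ (r ^ 2 / 2) * (8 * (2 * Real.pi) ^ d * (b * (n : ℝ) ^ 2)) := by
      refine h3.trans ?_
      gcongr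
    have h6 : r * (n : ℝ) ≤ 1 := by
      rw [hx, le_div_iff₀ (by positivity)] at hnx
      have h0 : r * (n : ℝ) * 1 ≤ r * n * d := mul_le_mul_of_nonneg_left hd1 (by positivity)
      linarith
    have h7 : (n : ℝ) ^ d * I ≤ 4 * (2 * Real.pi) ^ d * b := by
      refine h5.trans ?_
      have h8 : (r * (n : ℝ)) ^ 2 ≤ 1 := pow_le_one₀ (by positivity) h6
      calc (r ^ 2 / 2) * (8 * (2 * Real.pi) ^ d * (b * (n : ℝ) ^ 2)) =
            4 * (2 * Real.pi) ^ d * b * (r * (n : ℝ)) ^ 2 := by ring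
        _ ≤ 4 * (2 * Real.pi) ^ d * b * 1 := by gcongr
        _ = _ := mul_one _
    have h9 : 1 ≤ (2 * d * r * n) ^ d := by
      refine one_le_pow₀ ?_
      have h10 : 1 / (d * r) ≤ 2 * n := hxn
      rw [div_le_iff₀ (by positivity)] at h10
      linarith
    have h11 : (n : ℝ) ^ d * I ≤ (n : ℝ) ^ d * (4 * (4 * Real.pi * d) ^ d * b * r ^ d) := by
      refine h7.trans ?_
      calc 4 * (2 * Real.pi) ^ d * b = 4 * (2 * Real.pi) ^ d * b * 1 := (mul_one _).symm
        _ ≤ 4 * (2 * Real.pi) ^ d * b * (2 * d * r * n) ^ d := by gcongr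
        _ = (n : ℝ) ^ d * (4 * (4 * Real.pi * d) ^ d * b * r ^ d) := by
            have : (4 * Real.pi * d) ^ d = (2 * Real.pi) ^ d * (2 * d) ^ d := by
              rw [← mul_pow]; congr 1; ring
            rw [this]
            simp only [mul_pow]
            ring
    exact le_of_mul_le_mul_left h11 (by positivity)
  · have h1 : ∫ k in cube d ∩ cell (0 : Fin d → ℝ) r, G d p hp k ≤ ∫ k in cube d, G d p hp k :=
      setIntegral_mono_set (G_integrable p hp hs) (Eventually.of_forall fun k => G_nonneg p hp hs k)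
        (Eventually.of_forall Set.inter_subset_left)
    have h2 := int_G_le hd p hp hs
    have h3 : (2 * Real.pi) ^ d * (1 - (p : ℝ)) ≤ (2 * Real.pi) ^ d * 1 := by
      refine mul_le_mul_of_nonneg_left ?_ (by positivity)
      have : (0 : ℝ) ≤ p := p.2
      linarith
    refine (h1.trans (h2.trans h3)).trans ?_
    have h4 : 1 ≤ (d * r) ^ d := by
      refine one_le_pow₀ ?_
      rw [div_lt_iff₀ hd0] at hr
      linarith
    have h5 : (4 * Real.pi * d) ^ d * r ^ d = (4 * Real.pi) ^ d * (d * r) ^ d := by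
      rw [← mul_pow, ← mul_pow]; congr 1; ring
    calc (2 * Real.pi) ^ d * 1 ≤ (4 * Real.pi) ^ d * (d * r) ^ d := by
          gcongr
          linarith
      _ = (4 * Real.pi * d) ^ d * r ^ d := h5.symm
      _ ≤ 4 * (4 * Real.pi * d) ^ d * b * r ^ d := by
          have h6 : 0 ≤ (4 * Real.pi * d) ^ d * r ^ d := by positivity
          nlinarith

end Pool.Agent.H74.IB
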