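import Pool.Agent.H74.IB.GrowthB

/-!
# The kernels `∏ ((1 + cos k_j) / 2)^N`
-/

set_option autoImplicit false

open MeasureTheory Filter Topology

namespace Pool.Agent.H74.IB

open Pool.Agent.Results.MP_54f242_pr.InfraredMean

variable {d : ℕ}

/-- the law of the lazy simple random walk on `ℤ` -/
noncomputable def wZ : ℕ → ℤ → ℝ
  | 0, x => if x = 0 then 1 else 0
  | N + 1, x => wZ N x / 2 + (wZ N (x + 1) + wZ N (x - 1)) / 4

theorem wZ_nonneg (N : ℕ) : ∀ x, 0 ≤ wZ N x := by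
  induction N with
  | zero => intro x; simp only [wZ]; split_ifs <;> norm_num
  | succ N ih =>
    intro x
    simp only [wZ]
    have := ih x
    have := ih (x + 1)
    have := ih (x - 1)
    positivity

theorem wZ_le_one (N : ℕ) : ∀ x, wZ N x ≤ 1 := by
  induction N with
  | zero => intro x; simp only [wZ]; split_ifs <;> norm_num
  | succ N ih =>
    intro x
    simp only [wZ]
    have := ih x
    have := ih (x + 1)
    have := ih (x - 1)
    linarith

theorem wZ_neg (N : ℕ) : ∀ x, wZ N (-x) = wZ N x := by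
  induction N with
  | zero => intro x; simp only [wZ, neg_eq_zero]
  | succ N ih =>
    intro x
    simp only [wZ]
    have h1 : -x + 1 = -(x - 1) := by ring
    have h2 : -x - 1 = -(x + 1) := by ring
    rw [h1, h2, ih, ih, ih]
    ring

theorem wZ_nat (N : ℕ) : ∀ x : ℕ, wZ N (x : ℤ) = ((2 * N).choose (N + x) : ℝ) / 4 ^ N := by
  induction N with
  | zero =>
    intro x
    rcases Nat.eq_zero_or_pos x with h | h
    · subst h; simp [wZ]
    · have h1 : ¬ ((x : ℤ) = 0) := by exact_mod_cast h.ne'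
      have h2 : (2 * 0).choose (0 + x) = 0 := Nat.choose_eq_zero_of_lt (by omega)
      simp only [wZ, h1, if_false]
      rw [h2]
      simp
  | succ N ih =>
    intro x
    simp only [wZ]
    rcases x with _ | x
    · have h1 : wZ N (((0 : ℕ) : ℤ) - 1) = wZ N ((1 : ℕ) : ℤ) := by
        have : ((0 : ℕ) : ℤ) - 1 = -((1 : ℕ) : ℤ) := by norm_num
        rw [this, wZ_neg]
      have h2 : wZ N (((0 : ℕ) : ℤ) + 1) = wZ N ((1 : ℕ) : ℤ) := by
        congr 1
      rw [h1, h2, ih 0, ih 1]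
      have h3 : (2 * (N + 1)).choose (N + 1 + 0) = 2 * ((2 * N).choose (N + 0) + (2 * N).choose (N + 1)) := by
        have e1 : 2 * (N + 1) = (2 * N + 1) + 1 := by ring
        have e5 : (2 * N + 1).choose N = (2 * N + 1).choose (N + 1) := (Nat.choose_symm_half N).symm
        have e6 : (2 * N + 1).choose (N + 1) = (2 * N).choose N + (2 * N).choose (N + 1) :=
          Nat.choose_succ_succ (2 * N) N
        have e7 : (2 * N + 1 + 1).choose (N + 1) = (2 * N + 1).choose N + (2 * N + 1).choose (N + 1) :=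
          Nat.choose_succ_succ (2 * N + 1) N
        rw [e1, Nat.add_zero, Nat.add_zero, e7, e5, e6]
        ring
      rw [h3]
      push_cast
      rw [pow_succ]
      field_simp
      ring
    · have h1 : (((x + 1 : ℕ) : ℤ) + 1) = ((x + 2 : ℕ) : ℤ) := by push_cast; ring
      have h2 : (((x + 1 : ℕ) : ℤ) - 1) = ((x : ℕ) : ℤ) := by push_cast; ring
      rw [h1, h2, ih (x + 1), ih (x + 2), ih x]
      have h3 : (2 * (N + 1)).choose (N + 1 + (x + 1)) = (2 * N).choose (N + x) +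
          2 * (2 * N).choose (N + (x + 1)) + (2 * N).choose (N + (x + 2)) := by
        have e1 : 2 * (N + 1) = (2 * N + 1) + 1 := by ring
        have e2 : N + 1 + (x + 1) = (N + x + 1) + 1 := by ring
        rw [e1, e2, Nat.choose_succ_succ (2 * N + 1) (N + x + 1), Nat.choose_succ_succ (2 * N) (N + x),
          Nat.choose_succ_succ (2 * N) (N + x + 1)]
        have e3 : N + (x + 1) = N + x + 1 := by ring
        have e4 : N + (x + 2) = N + x + 1 + 1 := by ring
        rw [e3, e4]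
        ring
      rw [h3]
      push_cast
      rw [pow_succ]
      field_simp
      ring

theorem central_rec (N : ℕ) : (wZ (N + 1) 0) * (2 * N + 2) = wZ N 0 * (2 * N + 1) := by
  have h1 := wZ_nat (N + 1) 0
  have h2 := wZ_nat N 0
  have h3 := Nat.succ_mul_centralBinom_succ N
  rw [Nat.centralBinom_eq_two_mul_choose, Nat.centralBinom_eq_two_mul_choose] at h3
  have h4 : ((N : ℝ) + 1) * ((2 * (N + 1)).choose (N + 1) : ℝ) = 2 * (2 * N + 1) * ((2 * N).choose N : ℝ) := by
    exact_mod_cast h3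
  simp only [Nat.cast_zero, add_zero] at h1 h2
  rw [h1, h2, pow_succ]
  have h5 : (4 : ℝ) ^ N ≠ 0 := by positivity
  field_simp
  linarith

theorem central_upper (N : ℕ) : (wZ N 0) ^ 2 * (2 * N + 1) ≤ 1 := by
  induction N with
  | zero => simp [wZ]
  | succ N ih =>
    have h1 := central_rec N
    have h2 : wZ (N + 1) 0 = wZ N 0 * (2 * N + 1) / (2 * N + 2) := by
      rw [eq_div_iff (by positivity)]; exact h1
    rw [h2]
    have h3 : (wZ N 0 * (2 * N + 1) / (2 * N + 2)) ^ 2 * (2 * ((N + 1 : ℕ) : ℝ) + 1) =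
        ((wZ N 0) ^ 2 * (2 * N + 1)) * (((2 * N + 1) * (2 * N + 3)) / (2 * N + 2) ^ 2) := by
      push_cast
      field_simp
      ring
    rw [h3]
    have h4 : ((2 * (N : ℝ) + 1) * (2 * N + 3)) / (2 * N + 2) ^ 2 ≤ 1 := by
      rw [div_le_one (by positivity)]
      nlinarith
    have h5 : 0 ≤ ((2 * (N : ℝ) + 1) * (2 * N + 3)) / (2 * N + 2) ^ 2 := by positivity
    calc ((wZ N 0) ^ 2 * (2 * N + 1)) * (((2 * N + 1) * (2 * N + 3)) / (2 * N + 2) ^ 2) ≤ 1 * 1 :=
          mul_le_mul ih h4 h5 zero_le_one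
      _ = 1 := one_mul 1

theorem central_lower (N : ℕ) : 1 ≤ (wZ (N + 1) 0) ^ 2 * (4 * (N + 1)) := by
  induction N with
  | zero =>
    have h1 := wZ_nat 1 0
    simp only [Nat.cast_zero, add_zero, zero_add] at h1 ⊢
    rw [h1]
    norm_num
  | succ N ih =>
    have h1 := central_rec (N + 1)
    push_cast at h1 ih ⊢
    have h2 : wZ (N + 1 + 1) 0 = wZ (N + 1) 0 * (2 * (N + 1) + 1) / (2 * (N + 1) + 2) := by
      rw [eq_div_iff (by positivity)]; exact h1
    rw [h2]
    have h3 : (wZ (N + 1) 0 * (2 * (N + 1) + 1) / (2 * (N + 1) + 2)) ^ 2 * (4 * ((N : ℝ) + 1 + 1)) =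
        ((wZ (N + 1) 0) ^ 2 * (4 * (N + 1))) * ((2 * (N + 1) + 1) ^ 2 / (4 * (N + 1) * (N + 2))) := by
      field_simp
      ring
    rw [h3]
    have h4 : 1 ≤ (2 * ((N : ℝ) + 1) + 1) ^ 2 / (4 * (N + 1) * (N + 2)) := by
      rw [one_le_div (by positivity)]
      nlinarith
    nlinarith

theorem ratio (N : ℕ) (hN : 1 ≤ N) : ∀ x : ℕ, wZ N x ≤ wZ N 0 ∧ wZ N 0 * (1 - (x : ℝ) ^ 2 / N) ≤ wZ N x := by
  have hN0 : (0 : ℝ) < N := by exact_mod_cast hN
  intro x
  induction x with
  | zero => simp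
  | succ x ih =>
    obtain ⟨h1, h2⟩ := ih
    have hw0 := wZ_nonneg N 0
    rcases Nat.lt_or_ge x N with hx | hx
    · have h3 : wZ N ((x + 1 : ℕ) : ℤ) * (N + x + 1) = wZ N (x : ℤ) * (N - x) := by
        rw [wZ_nat, wZ_nat]
        have h4 := Nat.choose_succ_right_eq (2 * N) (N + x)
        have h5 : 2 * N - (N + x) = N - x := by omega
        rw [h5] at h4
        have h6 : ((2 * N).choose (N + x + 1) : ℝ) * (N + x + 1) = (2 * N).choose (N + x) * ((N : ℝ) - x) := by
          rw [← Nat.cast_sub hx.le]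
          exact_mod_cast h4
        have h7 : N + (x + 1) = N + x + 1 := by ring
        rw [h7, div_mul_eq_mul_div, div_mul_eq_mul_div, h6]
      have hx0 : (0 : ℝ) ≤ x := Nat.cast_nonneg x
      have hwx := wZ_nonneg N (x : ℤ)
      have hpos : (0 : ℝ) < N + x + 1 := by positivity
      have h8 : wZ N ((x + 1 : ℕ) : ℤ) = wZ N (x : ℤ) - wZ N (x : ℤ) * (2 * x + 1) / (N + x + 1) := by
        field_simp
        linarith
      have h9 : wZ N (x : ℤ) * (2 * x + 1) / (N + x + 1) ≤ wZ N 0 * (2 * x + 1) / N := by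
        refine div_le_div₀ (by positivity) ?_ hN0 (by linarith)
        exact mul_le_mul_of_nonneg_right h1 (by positivity)
      constructor
      · rw [h8]
        have : 0 ≤ wZ N (x : ℤ) * (2 * x + 1) / (N + x + 1) := by positivity
        linarith
      · rw [h8]
        have h10 : wZ N 0 * (1 - ((x + 1 : ℕ) : ℝ) ^ 2 / N) =
            wZ N 0 * (1 - (x : ℝ) ^ 2 / N) - wZ N 0 * (2 * x + 1) / N := by
          push_cast
          field_simp
          ring
        rw [h10]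
        linarith
    · have h3 : wZ N ((x + 1 : ℕ) : ℤ) = 0 := by
        rw [wZ_nat, Nat.choose_eq_zero_of_lt (by omega)]
        simp
      rw [h3]
      refine ⟨hw0, ?_⟩
      refine mul_nonpos_of_nonneg_of_nonpos hw0 ?_
      rw [sub_nonpos, le_div_iff₀ hN0, one_mul]
      have h4 : N ≤ (x + 1) ^ 2 := by nlinarith
      exact_mod_cast h4

/-- lower bound for the weights -/
theorem wZ_lower (N n : ℕ) (hN : 1 ≤ N) (h : 2 * n ^ 2 ≤ N) (x : ℤ) (hx : |x| ≤ n) :
    1 ≤ wZ N x * (4 * Real.sqrt N) := by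
  have hN0 : (0 : ℝ) < N := by exact_mod_cast hN
  have h0 : wZ N x = wZ N (x.natAbs : ℤ) := by
    rcases Int.natAbs_eq x with h | h
    · rw [← h]
    · conv_lhs => rw [h, wZ_neg]
  rw [h0]
  have h1 := (ratio N hN x.natAbs).2
  have h2 : ((x.natAbs : ℕ) : ℝ) ^ 2 / N ≤ 1 / 2 := by
    rw [div_le_iff₀ hN0]
    have h3 : x.natAbs ≤ n := by
      rw [← Int.natCast_natAbs] at hx
      exact_mod_cast hx
    have h4 : 2 * x.natAbs ^ 2 ≤ N := le_trans (by gcongr) h
    have h5 : (2 : ℝ) * (x.natAbs : ℝ) ^ 2 ≤ N := by exact_mod_cast h4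
    linarith
  have hw := wZ_nonneg N 0
  have h6 : wZ N 0 * (1 / 2) ≤ wZ N (x.natAbs : ℤ) := by
    refine le_trans ?_ h1
    exact mul_le_mul_of_nonneg_left (by linarith) hw
  have h7 : 1 ≤ wZ N 0 * (2 * Real.sqrt N) := by
    obtain ⟨M, rfl⟩ : ∃ M, N = M + 1 := ⟨N - 1, by omega⟩
    have h8 := central_lower M
    have h9 : (wZ (M + 1) 0 * (2 * Real.sqrt ((M + 1 : ℕ) : ℝ))) ^ 2 = (wZ (M + 1) 0) ^ 2 * (4 * (M + 1)) := by
      rw [mul_pow, mul_pow, Real.sq_sqrt (Nat.cast_nonneg _)]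
      push_cast
      ring
    rw [← h9] at h8
    have h10 : 0 ≤ wZ (M + 1) 0 * (2 * Real.sqrt ((M + 1 : ℕ) : ℝ)) := by positivity
    nlinarith
  have hsq := Real.sqrt_nonneg (N : ℝ)
  calc (1 : ℝ) ≤ wZ N 0 * (2 * Real.sqrt N) := h7
    _ = (wZ N 0 * (1 / 2)) * (4 * Real.sqrt N) := by ring
    _ ≤ _ := mul_le_mul_of_nonneg_right h6 (by positivity)

theorem wZ_zero_le (N : ℕ) : wZ N 0 * Real.sqrt N ≤ 1 := by
  have h1 := central_upper N
  have h2 : (wZ N 0 * Real.sqrt N) ^ 2 ≤ 1 := by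
    rw [mul_pow, Real.sq_sqrt (Nat.cast_nonneg _)]
    have : (0 : ℝ) ≤ N := Nat.cast_nonneg N
    nlinarith [sq_nonneg (wZ N 0)]
  have h3 : 0 ≤ wZ N 0 * Real.sqrt N := mul_nonneg (wZ_nonneg _ _) (Real.sqrt_nonneg _)
  nlinarith

end Pool.Agent.H74.IB
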