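import Pool.Agent.H74.IB.GrowthC

/-!
# From the average infrared bound to quadratic growth
-/

set_option autoImplicit false

open MeasureTheory Filter Topology

namespace Pool.Agent.H74.IB

open Pool.Agent.Results.MP_54f242_pr.InfraredMean

variable {d : ℕ}

/-- the kernel `∏ ((1 + cos k_j) / 2)^N` -/
noncomputable def psi (N : ℕ) (k : Fin d → ℝ) : ℝ := ∏ j, ((1 + Real.cos (k j)) / 2) ^ N

theorem psi_cont (N : ℕ) : Continuous (psi (d := d) N) := by
  unfold psi
  fun_prop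

theorem half_nonneg (t : ℝ) : 0 ≤ (1 + Real.cos t) / 2 := by
  have := Real.neg_one_le_cos t; linarith

theorem half_le_one (t : ℝ) : (1 + Real.cos t) / 2 ≤ 1 := by
  have := Real.cos_le_one t; linarith

theorem psi_nonneg (N : ℕ) (k : Fin d → ℝ) : 0 ≤ psi N k :=
  Finset.prod_nonneg fun _ _ => pow_nonneg (half_nonneg _) _

theorem psi_le_one (N : ℕ) (k : Fin d → ℝ) : psi N k ≤ 1 :=
  Finset.prod_le_one (fun _ _ => pow_nonneg (half_nonneg _) _)
    (fun _ _ => pow_le_one₀ (half_nonneg _) (half_le_one _))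

theorem one_dim_psi (N : ℕ) : ∀ x : ℤ, ∫ t in Set.Ioc (-Real.pi) Real.pi,
    Complex.exp ((t * (x : ℝ) : ℝ) * Complex.I) * (((1 + Real.cos t) / 2 : ℝ) : ℂ) ^ N =
      2 * Real.pi * (wZ N x : ℂ) := by
  induction N with
  | zero =>
    intro x
    simp only [pow_zero, mul_one]
    rw [one_dim]
    simp only [wZ]
    split_ifs <;> simp
  | succ N ih =>
    intro x
    have hc : ∀ y : ℤ, Continuous fun t : ℝ => Complex.exp ((t * (y : ℝ) : ℝ) * Complex.I) *
        (((1 + Real.cos t) / 2 : ℝ) : ℂ) ^ N := by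
      intro y
      fun_prop
    have hi : ∀ y : ℤ, IntegrableOn (fun t : ℝ => Complex.exp ((t * (y : ℝ) : ℝ) * Complex.I) *
        (((1 + Real.cos t) / 2 : ℝ) : ℂ) ^ N) (Set.Ioc (-Real.pi) Real.pi) := fun y =>
      ((hc y).continuousOn.integrableOn_compact isCompact_Icc).mono_set Set.Ioc_subset_Icc_self
    have h1 : ∀ t : ℝ, Complex.exp ((t * (x : ℝ) : ℝ) * Complex.I) *
        (((1 + Real.cos t) / 2 : ℝ) : ℂ) ^ (N + 1) =
        (1 / 2 : ℂ) * (Complex.exp ((t * (x : ℝ) : ℝ) * Complex.I) * (((1 + Real.cos t) / 2 : ℝ) : ℂ) ^ N) +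
        (1 / 4 : ℂ) * (Complex.exp ((t * ((x + 1 : ℤ) : ℝ) : ℝ) * Complex.I) *
          (((1 + Real.cos t) / 2 : ℝ) : ℂ) ^ N +
        Complex.exp ((t * ((x - 1 : ℤ) : ℝ) : ℝ) * Complex.I) * (((1 + Real.cos t) / 2 : ℝ) : ℂ) ^ N) := by
      intro t
      have e1 : Complex.exp ((t * ((x + 1 : ℤ) : ℝ) : ℝ) * Complex.I) =
          Complex.exp ((t * (x : ℝ) : ℝ) * Complex.I) * Complex.exp ((t : ℂ) * Complex.I) := by
        rw [← Complex.exp_add]
        push_cast
        ring_nf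
      have e2 : Complex.exp ((t * ((x - 1 : ℤ) : ℝ) : ℝ) * Complex.I) =
          Complex.exp ((t * (x : ℝ) : ℝ) * Complex.I) * Complex.exp (-(t : ℂ) * Complex.I) := by
        rw [← Complex.exp_add]
        push_cast
        ring_nf
      have e3 : ((Real.cos t : ℝ) : ℂ) = (Complex.exp ((t : ℂ) * Complex.I) +
          Complex.exp (-(t : ℂ) * Complex.I)) / 2 := by
        rw [Complex.ofReal_cos, Complex.cos]
      rw [e1, e2, pow_succ]
      have e4 : ((((1 + Real.cos t) / 2 : ℝ)) : ℂ) = (1 + ((Real.cos t : ℝ) : ℂ)) / 2 := by push_cast; ring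
      generalize hg : ((((1 + Real.cos t) / 2 : ℝ)) : ℂ) ^ N = g
      rw [e4, e3]
      ring
    simp_rw [h1]
    have hBC : Integrable (fun t : ℝ => (1 / 4 : ℂ) * (Complex.exp ((t * ((x + 1 : ℤ) : ℝ) : ℝ) * Complex.I) *
          (((1 + Real.cos t) / 2 : ℝ) : ℂ) ^ N +
        Complex.exp ((t * ((x - 1 : ℤ) : ℝ) : ℝ) * Complex.I) * (((1 + Real.cos t) / 2 : ℝ) : ℂ) ^ N))
        (volume.restrict (Set.Ioc (-Real.pi) Real.pi)) :=
      ((hi (x + 1)).add (hi (x - 1))).const_mul _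
    have hBC' : ∫ t in Set.Ioc (-Real.pi) Real.pi, (Complex.exp ((t * ((x + 1 : ℤ) : ℝ) : ℝ) * Complex.I) *
          (((1 + Real.cos t) / 2 : ℝ) : ℂ) ^ N +
        Complex.exp ((t * ((x - 1 : ℤ) : ℝ) : ℝ) * Complex.I) * (((1 + Real.cos t) / 2 : ℝ) : ℂ) ^ N) =
        2 * Real.pi * (wZ N (x + 1) : ℂ) + 2 * Real.pi * (wZ N (x - 1) : ℂ) := by
      rw [integral_add (hi (x + 1)) (hi (x - 1)), ih, ih]
    rw [integral_add ((hi x).const_mul _) hBC, integral_const_mul, integral_const_mul, hBC', ih]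
    simp only [wZ]
    push_cast
    ring

theorem psi_coeff (N : ℕ) (x : Fin d → ℤ) : ∫ k in cube d, Real.cos (dot k x) * psi N k =
    ∏ j, (2 * Real.pi * wZ N (x j)) := by
  have h2 : ∀ k : Fin d → ℝ, Complex.exp ((dot k x : ℝ) * Complex.I) * ((psi N k : ℝ) : ℂ) =
      ∏ i, (Complex.exp ((k i * (x i : ℝ) : ℝ) * Complex.I) *
        (((1 + Real.cos (k i)) / 2 : ℝ) : ℂ) ^ N) := by
    intro k
    rw [Finset.prod_mul_distrib, ← Complex.exp_sum, ← Finset.sum_mul]
    unfold psi dot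
    push_cast
    rfl
  have h1 : ∫ k in cube d, Complex.exp ((dot k x : ℝ) * Complex.I) * ((psi N k : ℝ) : ℂ) =
      ∏ j, (2 * Real.pi * (wZ N (x j) : ℂ)) := by
    simp_rw [h2]
    rw [cube, volume_pi, Measure.restrict_pi_pi,
      integral_fintype_prod_eq_prod (fun i t => Complex.exp ((t * (x i : ℝ) : ℝ) * Complex.I) *
        (((1 + Real.cos t) / 2 : ℝ) : ℂ) ^ N)]
    simp_rw [one_dim_psi]
  have hcont : Continuous fun k : Fin d → ℝ => Complex.exp ((dot k x : ℝ) * Complex.I) *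
      ((psi N k : ℝ) : ℂ) := by
    unfold dot psi; fun_prop
  have hint : Integrable (fun k : Fin d → ℝ => Complex.exp ((dot k x : ℝ) * Complex.I) *
      ((psi N k : ℝ) : ℂ)) (volume.restrict (cube d)) :=
    (hcont.continuousOn.integrableOn_compact isCompact_Icc).mono_set cube_sub
  have h3 : ∫ k in cube d, Real.cos (dot k x) * psi N k =
      (∫ k in cube d, Complex.exp ((dot k x : ℝ) * Complex.I) * ((psi N k : ℝ) : ℂ)).re := by
    rw [← Complex.reCLM_apply, ← Complex.reCLM.integral_comp_comm hint]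
    refine integral_congr_ae (Eventually.of_forall fun k => ?_)
    simp [Complex.exp_ofReal_mul_I_re]
  rw [h3, h1]
  have h4 : ∏ j, (2 * Real.pi * (wZ N (x j) : ℂ)) = ((∏ j, (2 * Real.pi * wZ N (x j)) : ℝ) : ℂ) := by
    push_cast
    rfl
  rw [h4, Complex.ofReal_re]

theorem int_psi_le (N : ℕ) (hN : 1 ≤ N) :
    ∫ k in cube d, psi N k ≤ (2 * Real.pi) ^ d / (Real.sqrt N) ^ d := by
  have h := psi_coeff (d := d) N 0
  have h0 : ∀ k : Fin d → ℝ, Real.cos (dot k 0) * psi N k = psi N k := by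
    intro k
    simp [dot]
  simp_rw [h0] at h
  rw [h]
  have hs : 0 < Real.sqrt N := Real.sqrt_pos.2 (by exact_mod_cast hN)
  simp only [Pi.zero_apply, Finset.prod_const, Finset.card_univ, Fintype.card_fin]
  rw [← div_pow]
  refine pow_le_pow_left₀ (by have := wZ_nonneg N 0; positivity) ?_ d
  rw [le_div_iff₀ hs, mul_assoc]
  have := wZ_zero_le N
  have hpi := Real.pi_pos
  nlinarith

/-- the integral of the transform against the kernel -/
noncomputable def U (d : ℕ) (p : NNReal) (hp : p ≤ 1) (N : ℕ) : ℝ :=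
  ∫ k in cube d, cs (tau d p hp) k * psi N k

theorem U_eq (p : NNReal) (hp : p ≤ 1) (hs : Summable (tau d p hp)) (N : ℕ) :
    U d p hp N = ∑' x, tau d p hp x * ∏ j, (2 * Real.pi * wZ N (x j)) := by
  unfold U
  rw [int_cs_mul _ (tau_abs_summable p hp hs) (psi N) (psi_cont N) 1
    (fun k => by rw [abs_of_nonneg (psi_nonneg N k)]; exact psi_le_one N k)]
  simp_rw [psi_coeff]

theorem S_le_U (p : NNReal) (hp : p ≤ 1) (hs : Summable (tau d p hp)) (N n : ℕ) (hN : 1 ≤ N)
    (h : 2 * n ^ 2 ≤ N) : S d p hp n ≤ (Real.sqrt N) ^ d * U d p hp N := by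
  have hsq : 0 < Real.sqrt N := Real.sqrt_pos.2 (by exact_mod_cast hN)
  have hpi := Real.pi_gt_three
  have hnn : ∀ x : Fin d → ℤ, 0 ≤ ∏ j, (2 * Real.pi * wZ N (x j)) := fun x =>
    Finset.prod_nonneg fun j _ => by have := wZ_nonneg N (x j); positivity
  have hsum : Summable fun x => tau d p hp x * ∏ j, (2 * Real.pi * wZ N (x j)) := by
    refine Summable.of_nonneg_of_le (fun x => mul_nonneg (tau_nonneg p hp x) (hnn x)) (fun x => ?_)
      (hs.mul_right ((2 * Real.pi) ^ d))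
    refine mul_le_mul_of_nonneg_left ?_ (tau_nonneg p hp x)
    calc ∏ j, (2 * Real.pi * wZ N (x j)) ≤ ∏ _j : Fin d, (2 * Real.pi) := by
          refine Finset.prod_le_prod (fun j _ => by have := wZ_nonneg N (x j); positivity) (fun j _ => ?_)
          have := wZ_le_one N (x j)
          nlinarith
      _ = (2 * Real.pi) ^ d := by simp
  rw [U_eq p hp hs]
  have h1 : ∑ x ∈ Fintype.piFinset (fun _ : Fin d => Finset.Icc (-(n : ℤ)) (n : ℤ)),
      tau d p hp x * ∏ j, (2 * Real.pi * wZ N (x j)) ≤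
      ∑' x, tau d p hp x * ∏ j, (2 * Real.pi * wZ N (x j)) :=
    hsum.sum_le_tsum _ (fun x _ => mul_nonneg (tau_nonneg p hp x) (hnn x))
  refine le_trans ?_ (mul_le_mul_of_nonneg_left h1 (by positivity))
  unfold S
  rw [Finset.mul_sum]
  refine Finset.sum_le_sum fun x hx => ?_
  have h2 : 1 ≤ (Real.sqrt N) ^ d * ∏ j, (2 * Real.pi * wZ N (x j)) := by
    have h3 : (Real.sqrt N) ^ d * ∏ j, (2 * Real.pi * wZ N (x j)) =
        ∏ j : Fin d, (Real.sqrt N * (2 * Real.pi * wZ N (x j))) := by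
      rw [Finset.prod_mul_distrib (f := fun _ : Fin d => Real.sqrt N)
        (g := fun j => 2 * Real.pi * wZ N (x j)), Finset.prod_const, Finset.card_univ, Fintype.card_fin]
    rw [h3]
    have h7 : ∏ _j : Fin d, (1 : ℝ) = 1 := by simp
    rw [← h7]
    refine Finset.prod_le_prod (fun _ _ => zero_le_one) ?_
    intro j _
    have hxj : |x j| ≤ n := by
      have := Fintype.mem_piFinset.1 hx j
      rw [Finset.mem_Icc] at this
      exact abs_le.2 this
    have h4 := wZ_lower N n hN h (x j) hxj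
    have h5 : 0 ≤ wZ N (x j) * Real.sqrt N := mul_nonneg (wZ_nonneg _ _) hsq.le
    nlinarith
  have h6 := mul_le_mul_of_nonneg_left h2 (tau_nonneg p hp x)
  calc tau d p hp x = tau d p hp x * 1 := (mul_one _).symm
    _ ≤ tau d p hp x * ((Real.sqrt N) ^ d * ∏ j, (2 * Real.pi * wZ N (x j))) := h6
    _ = _ := by ring

theorem one_sub_prod_le {ι : Type*} (s : Finset ι) (y : ι → ℝ) (h0 : ∀ i, 0 ≤ y i) (h1 : ∀ i, y i ≤ 1) :
    1 - ∏ i ∈ s, (1 - y i) ≤ ∑ i ∈ s, y i := by
  classical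
  induction s using Finset.induction_on with
  | empty => simp
  | insert a s ha ih =>
    rw [Finset.prod_insert ha, Finset.sum_insert ha]
    have h2 : ∏ i ∈ s, (1 - y i) ≤ 1 :=
      Finset.prod_le_one (fun i _ => by have := h1 i; linarith) (fun i _ => by have := h0 i; linarith)
    have h3 := h0 a
    nlinarith

theorem psi_step (hd : 1 ≤ d) (N : ℕ) (k : Fin d → ℝ) :
    psi N k - psi (N + 1) k ≤ psi N k * (d / 2 * (1 - Dhat k)) := by
  have h1 : psi (N + 1) k = psi N k * ∏ j, (1 - (1 - Real.cos (k j)) / 2) := by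
    unfold psi
    rw [← Finset.prod_mul_distrib]
    refine Finset.prod_congr rfl fun j _ => ?_
    rw [pow_succ]
    ring
  have h2 := one_sub_prod_le (Finset.univ : Finset (Fin d)) (fun j => (1 - Real.cos (k j)) / 2)
    (fun j => by have := Real.cos_le_one (k j); linarith)
    (fun j => by have := Real.neg_one_le_cos (k j); linarith)
  have h3 : ∑ j : Fin d, (1 - Real.cos (k j)) / 2 = d / 2 * (1 - Dhat k) := by
    rw [one_sub_Dhat hd, ← Finset.sum_div]
    have : (d : ℝ) ≠ 0 := by positivity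
    field_simp
  rw [h3] at h2
  rw [h1]
  calc psi N k - psi N k * ∏ j, (1 - (1 - Real.cos (k j)) / 2) =
        psi N k * (1 - ∏ j, (1 - (1 - Real.cos (k j)) / 2)) := by ring
    _ ≤ _ := mul_le_mul_of_nonneg_left h2 (psi_nonneg N k)

theorem U_step (hd : 1 ≤ d) (p : NNReal) (hp : p ≤ 1) (hs : Summable (tau d p hp)) (N : ℕ) :
    U d p hp N ≤ U d p hp (N + 1) + d / 2 * ∫ k in cube d, G d p hp k * psi N k := by
  have hcs := cs_cont _ (tau_abs_summable p hp hs)
  have hi : ∀ N, Integrable (fun k => cs (tau d p hp) k * psi N k) (volume.restrict (cube d)) := fun N =>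
    integrable_of_cont (hcs.mul (psi_cont N))
  have hg : Integrable (fun k => G d p hp k * psi N k) (volume.restrict (cube d)) :=
    integrable_of_cont ((G_cont p hp hs).mul (psi_cont N))
  unfold U
  rw [← integral_const_mul, ← integral_add (hi (N + 1)) (hg.const_mul _)]
  refine integral_mono (hi N) ((hi (N + 1)).add (hg.const_mul _)) (fun k => ?_)
  have h1 := psi_step hd N k
  have h2 := mul_le_mul_of_nonneg_left h1 (cs_nonneg p hp hs k)
  change cs (tau d p hp) k * psi N k ≤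
    cs (tau d p hp) k * psi (N + 1) k + d / 2 * (G d p hp k * psi N k)
  rw [G_def]
  linarith

theorem chi_bound (p : NNReal) (hp : p ≤ 1) (hs : Summable (tau d p hp)) (k : Fin d → ℝ) :
    cs (tau d p hp) k ≤ ∑' x, tau d p hp x := by
  have := (le_abs_self _).trans (cs_abs_le _ (tau_abs_summable p hp hs) k)
  simpa only [abs_of_nonneg (tau_nonneg p hp _)] using this

theorem U_tendsto (hd : 1 ≤ d) (p : NNReal) (hp : p ≤ 1) (hs : Summable (tau d p hp)) :
    Tendsto (fun N => U d p hp N) atTop (𝓝 0) := by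
  have hcs := cs_cont _ (tau_abs_summable p hp hs)
  set χ := ∑' x, tau d p hp x with hχ
  have hχ0 : 0 ≤ χ := tsum_nonneg fun x => tau_nonneg p hp x
  have h1 : ∀ᶠ N : ℕ in atTop, U d p hp N ≤ χ * (2 * Real.pi) ^ d * (1 / Real.sqrt N) := by
    filter_upwards [eventually_ge_atTop 1] with N hN
    have hN1 : 1 ≤ Real.sqrt N := by
      rw [Real.one_le_sqrt]; exact_mod_cast hN
    have hN0 : 0 < Real.sqrt N := by linarith
    have h2 : U d p hp N ≤ χ * ∫ k in cube d, psi N k := by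
      unfold U
      rw [← integral_const_mul]
      refine integral_mono (integrable_of_cont (hcs.mul (psi_cont N)))
        ((integrable_of_cont (psi_cont N)).const_mul _) (fun k => ?_)
      exact mul_le_mul_of_nonneg_right (chi_bound p hp hs k) (psi_nonneg N k)
    refine h2.trans ?_
    have h3 := int_psi_le (d := d) N hN
    have h4 : (2 * Real.pi) ^ d / (Real.sqrt N) ^ d ≤ (2 * Real.pi) ^ d * (1 / Real.sqrt N) := by
      rw [mul_one_div]
      refine div_le_div_of_nonneg_left (by positivity) hN0 ?_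
      exact le_self_pow₀ hN1 (by omega)
    calc χ * ∫ k in cube d, psi N k ≤ χ * ((2 * Real.pi) ^ d * (1 / Real.sqrt N)) :=
          mul_le_mul_of_nonneg_left (h3.trans h4) hχ0
      _ = _ := by ring
  have h5 : Tendsto (fun N : ℕ => χ * (2 * Real.pi) ^ d * (1 / Real.sqrt N)) atTop (𝓝 0) := by
    have h6 : Tendsto (fun N : ℕ => 1 / Real.sqrt (N : ℝ)) atTop (𝓝 0) := by
      simp_rw [one_div]
      exact tendsto_inv_atTop_zero.comp (Real.tendsto_sqrt_atTop.comp tendsto_natCast_atTop_atTop)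
    simpa using h6.const_mul (χ * (2 * Real.pi) ^ d)
  refine tendsto_of_tendsto_of_tendsto_of_le_of_le' tendsto_const_nhds h5
    (Eventually.of_forall fun N => ?_) h1
  exact integral_nonneg fun k => mul_nonneg (cs_nonneg p hp hs k) (psi_nonneg N k)

theorem sqrt_step (N : ℕ) (hN : 1 ≤ N) :
    1 / (4 * Real.sqrt N ^ 3) ≤ 1 / Real.sqrt N - 1 / Real.sqrt ((N + 1 : ℕ) : ℝ) := by
  set a := Real.sqrt N with ha
  set b := Real.sqrt ((N + 1 : ℕ) : ℝ) with hb
  have ha1 : 1 ≤ a := by rw [ha, Real.one_le_sqrt]; exact_mod_cast hN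
  have hb0 : 0 < b := Real.sqrt_pos.2 (by positivity)
  have ha2 : a ^ 2 = N := Real.sq_sqrt (Nat.cast_nonneg _)
  have hb2 : b ^ 2 = N + 1 := by
    rw [hb, Real.sq_sqrt (Nat.cast_nonneg _)]; push_cast; ring
  have hab : (b - a) * (b + a) = 1 := by nlinarith
  have hb3 : b ≤ 3 / 2 * a := by nlinarith
  have hab0 : 0 < b + a := by linarith
  have h1 : 1 / a - 1 / b = 1 / (a * b * (b + a)) := by
    have : b - a = 1 / (b + a) := by rw [eq_div_iff hab0.ne']; exact hab
    rw [div_sub_div _ _ (by linarith : a ≠ 0) hb0.ne', one_mul, mul_one, this]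
    field_simp
  rw [h1]
  refine one_div_le_one_div_of_le (by positivity) ?_
  have h2 : b * (b + a) ≤ 4 * a ^ 2 := by nlinarith
  calc a * b * (b + a) = a * (b * (b + a)) := by ring
    _ ≤ a * (4 * a ^ 2) := mul_le_mul_of_nonneg_left h2 (by linarith)
    _ = 4 * a ^ 3 := by ring

theorem potential_step (hd : 3 ≤ d) (N : ℕ) (hN : 1 ≤ N) :
    1 / (4 * Real.sqrt N ^ d) ≤ 1 / Real.sqrt N ^ (d - 2) - 1 / Real.sqrt ((N + 1 : ℕ) : ℝ) ^ (d - 2) := by
  obtain ⟨m, rfl⟩ : ∃ m, d = m + 3 := ⟨d - 3, by omega⟩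
  have e1 : m + 3 - 2 = m + 1 := by omega
  rw [e1]
  have h := sqrt_step N hN
  set a := Real.sqrt N with ha
  set b := Real.sqrt ((N + 1 : ℕ) : ℝ) with hb
  have ha1 : 1 ≤ a := by rw [ha, Real.one_le_sqrt]; exact_mod_cast hN
  have hab : a ≤ b := by
    rw [ha, hb]
    exact Real.sqrt_le_sqrt (by push_cast; linarith)
  have ha0 : 0 < a := by linarith
  have hb0 : 0 < b := by linarith
  have h1 : 1 / b ^ (m + 1) ≤ 1 / a ^ m * (1 / b) := by
    rw [pow_succ, one_div_mul_one_div]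
    refine one_div_le_one_div_of_le (by positivity) ?_
    exact mul_le_mul_of_nonneg_right (pow_le_pow_left₀ ha0.le hab m) hb0.le
  have h2 : 1 / a ^ (m + 1) = 1 / a ^ m * (1 / a) := by
    rw [pow_succ, one_div_mul_one_div]
  have h3 : 1 / (4 * a ^ (m + 3)) = 1 / a ^ m * (1 / (4 * a ^ 3)) := by
    rw [one_div_mul_one_div]
    congr 1
    ring
  rw [h2, h3]
  have h4 := mul_le_mul_of_nonneg_left h (by positivity : 0 ≤ 1 / a ^ m)
  linarith

/-- from the averages against the kernels to quadratic growth -/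
theorem growth_of_kernel (hd : 3 ≤ d) (p : NNReal) (hp : p ≤ 1) (hs : Summable (tau d p hp)) (α : ℝ)
    (hα : ∀ N : ℕ, 1 ≤ N → ∫ k in cube d, G d p hp k * psi N k ≤ α / Real.sqrt N ^ d) (n : ℕ) (hn : 1 ≤ n) :
    S d p hp n ≤ 4 * d * α * (n : ℝ) ^ 2 := by
  have hd1 : 1 ≤ d := by omega
  have hα0 : 0 ≤ α := by
    have h1 := hα 1 le_rfl
    have h2 : 0 ≤ ∫ k in cube d, G d p hp k * psi 1 k :=
      integral_nonneg fun k => mul_nonneg (G_nonneg p hp hs k) (psi_nonneg 1 k)
    simpa using h2.trans h1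
  set Φ : ℕ → ℝ := fun N => 2 * d * α * (1 / Real.sqrt N ^ (d - 2)) with hΦ
  have hstep : ∀ N : ℕ, 1 ≤ N → U d p hp N - Φ N ≤ U d p hp (N + 1) - Φ (N + 1) := by
    intro N hN
    have h1 := U_step hd1 p hp hs N
    have h2 := hα N hN
    have h3 := potential_step hd N hN
    have hN0 : 0 < Real.sqrt N := Real.sqrt_pos.2 (by exact_mod_cast hN)
    have h4 : (d : ℝ) / 2 * ∫ k in cube d, G d p hp k * psi N k ≤ d / 2 * (α / Real.sqrt N ^ d) :=
      mul_le_mul_of_nonneg_left h2 (by positivity)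
    have h5 : (d : ℝ) / 2 * (α / Real.sqrt N ^ d) = 2 * d * α * (1 / (4 * Real.sqrt N ^ d)) := by
      field_simp
      ring
    have h6 : 2 * d * α * (1 / (4 * Real.sqrt N ^ d)) ≤ 2 * d * α *
        (1 / Real.sqrt N ^ (d - 2) - 1 / Real.sqrt ((N + 1 : ℕ) : ℝ) ^ (d - 2)) :=
      mul_le_mul_of_nonneg_left h3 (by positivity)
    simp only [hΦ]
    linarith
  have hmono : ∀ N M : ℕ, 1 ≤ N → N ≤ M → U d p hp N - Φ N ≤ U d p hp M - Φ M := by
    intro N M hN hNM
    induction M, hNM using Nat.le_induction with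
    | base => exact le_rfl
    | succ M hM ih => exact ih.trans (hstep M (hN.trans hM))
  have hU : ∀ N : ℕ, 1 ≤ N → U d p hp N ≤ Φ N := by
    intro N hN
    have h1 : ∀ᶠ M in atTop, U d p hp N - Φ N ≤ U d p hp M := by
      filter_upwards [eventually_ge_atTop N] with M hM
      have h2 := hmono N M hN hM
      have h3 : 0 ≤ Φ M := by simp only [hΦ]; positivity
      linarith
    have h4 := ge_of_tendsto (U_tendsto hd1 p hp hs) h1
    linarith
  have hN : 1 ≤ 2 * n ^ 2 := by nlinarith [Nat.one_le_pow 2 n hn]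
  have h1 := S_le_U p hp hs (2 * n ^ 2) n hN le_rfl
  have h2 := hU (2 * n ^ 2) hN
  set s := Real.sqrt ((2 * n ^ 2 : ℕ) : ℝ) with hs'
  have hs0 : 0 < s := Real.sqrt_pos.2 (by exact_mod_cast hN)
  have hs2 : s ^ 2 = 2 * (n : ℝ) ^ 2 := by
    rw [hs', Real.sq_sqrt (Nat.cast_nonneg _)]; push_cast; ring
  calc S d p hp n ≤ s ^ d * U d p hp (2 * n ^ 2) := h1
    _ ≤ s ^ d * Φ (2 * n ^ 2) := mul_le_mul_of_nonneg_left h2 (by positivity)
    _ = 2 * d * α * s ^ 2 := by
        simp only [hΦ]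
        rw [← hs']
        obtain ⟨m, rfl⟩ : ∃ m, d = m + 3 := ⟨d - 3, by omega⟩
        have e1 : m + 3 - 2 = m + 1 := by omega
        rw [e1]
        field_simp
        ring
    _ = _ := by rw [hs2]; ring

/-- the infrared bound gives quadratic growth -/
theorem growth_of_bound (hd : 3 ≤ d) (p : NNReal) (hp : p ≤ 1) (hs : Summable (tau d p hp)) (A : ℝ)
    (hA : ∀ k, G d p hp k ≤ A) (n : ℕ) (hn : 1 ≤ n) :
    S d p hp n ≤ 4 * d * ((2 * Real.pi) ^ d * A) * (n : ℝ) ^ 2 := by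
  have hA0 : 0 ≤ A := (G_nonneg p hp hs 0).trans (hA 0)
  refine growth_of_kernel hd p hp hs _ (fun N hN => ?_) n hn
  have h1 : ∫ k in cube d, G d p hp k * psi N k ≤ A * ∫ k in cube d, psi N k := by
    rw [← integral_const_mul]
    refine integral_mono (integrable_of_cont ((G_cont p hp hs).mul (psi_cont N)))
      ((integrable_of_cont (psi_cont N)).const_mul _) (fun k => ?_)
    exact mul_le_mul_of_nonneg_right (hA k) (psi_nonneg N k)
  refine h1.trans ((mul_le_mul_of_nonneg_left (int_psi_le N hN) hA0).trans (le_of_eq ?_))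
  ring

end Pool.Agent.H74.IB
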