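import Pool.Agent.H74.IB.GrowthD

/-!
# From the averages over cubes to the averages against the kernels
-/

set_option autoImplicit false

open MeasureTheory Filter Topology

namespace Pool.Agent.H74.IB

open Pool.Agent.Results.MP_54f242_pr.InfraredMean

variable {d : ℕ}

theorem cube_sub_cell (r : ℝ) (hr : Real.pi ≤ r) : cube d ⊆ cell (0 : Fin d → ℝ) r := by
  intro k hk j
  have := Set.mem_univ_pi.1 hk j
  simp only [Pi.zero_apply, sub_zero]
  exact (abs_le.2 ⟨this.1.le, this.2⟩).trans hr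

theorem avg_ext (p : NNReal) (hp : p ≤ 1) (a : ℝ) (ha0 : 0 ≤ a)
    (ha : ∀ r : ℝ, 0 < r → r ≤ Real.pi → ∫ k in cube d ∩ cell (0 : Fin d → ℝ) r, G d p hp k ≤ a * r ^ d)
    (r : ℝ) (hr : 0 < r) : ∫ k in cube d ∩ cell (0 : Fin d → ℝ) r, G d p hp k ≤ a * r ^ d := by
  rcases le_or_gt r Real.pi with h | h
  · exact ha r hr h
  · have h1 : cube d ∩ cell (0 : Fin d → ℝ) r = cube d ∩ cell (0 : Fin d → ℝ) Real.pi := by
      rw [Set.inter_eq_left.2 (cube_sub_cell r h.le), Set.inter_eq_left.2 (cube_sub_cell Real.pi le_rfl)]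
    rw [h1]
    refine (ha Real.pi Real.pi_pos le_rfl).trans ?_
    exact mul_le_mul_of_nonneg_left (pow_le_pow_left₀ Real.pi_pos.le h.le d) ha0

theorem half_le_exp (t : ℝ) (ht : |t| ≤ Real.pi) :
    (1 + Real.cos t) / 2 ≤ Real.exp (-(t ^ 2 / Real.pi ^ 2)) := by
  have h1 := Real.cos_le_one_sub_mul_cos_sq ht
  have h2 := Real.add_one_le_exp (-(t ^ 2 / Real.pi ^ 2))
  have h3 : 2 / Real.pi ^ 2 * t ^ 2 = 2 * (t ^ 2 / Real.pi ^ 2) := by ring
  linarith

theorem psi_le_exp (N : ℕ) (k : Fin d → ℝ) (i : Fin d) (hk : |k i| ≤ Real.pi) :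
    psi N k ≤ Real.exp (-(N * (k i) ^ 2 / Real.pi ^ 2)) := by
  classical
  unfold psi
  rw [← Finset.mul_prod_erase Finset.univ _ (Finset.mem_univ i)]
  have h1 : ∏ j ∈ Finset.univ.erase i, ((1 + Real.cos (k j)) / 2) ^ N ≤ 1 :=
    Finset.prod_le_one (fun _ _ => pow_nonneg (half_nonneg _) _)
      (fun _ _ => pow_le_one₀ (half_nonneg _) (half_le_one _))
  have h2 : ((1 + Real.cos (k i)) / 2) ^ N ≤ (Real.exp (-((k i) ^ 2 / Real.pi ^ 2))) ^ N :=
    pow_le_pow_left₀ (half_nonneg _) (half_le_exp _ hk) N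
  have h3 : (Real.exp (-((k i) ^ 2 / Real.pi ^ 2))) ^ N = Real.exp (-(N * (k i) ^ 2 / Real.pi ^ 2)) := by
    rw [← Real.exp_nat_mul]
    congr 1
    ring
  rw [h3] at h2
  calc ((1 + Real.cos (k i)) / 2) ^ N * ∏ j ∈ Finset.univ.erase i, ((1 + Real.cos (k j)) / 2) ^ N
      ≤ ((1 + Real.cos (k i)) / 2) ^ N * 1 :=
        mul_le_mul_of_nonneg_left h1 (pow_nonneg (half_nonneg _) _)
    _ ≤ _ := by rw [mul_one]; exact h2

theorem psi_shells (N : ℕ) (hN : 1 ≤ N) (k : Fin d → ℝ) (hk : k ∈ cube d) :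
    ∃ m : ℕ, m < ⌊Real.pi * Real.sqrt N⌋₊ + 1 ∧ k ∈ cell (0 : Fin d → ℝ) ((m + 1) / Real.sqrt N) ∧
      psi N k ≤ Real.exp (-(m / Real.pi ^ 2)) := by
  classical
  have hs : 0 < Real.sqrt N := Real.sqrt_pos.2 (by exact_mod_cast hN)
  have hkpi : ∀ i, |k i| ≤ Real.pi := fun i => by
    have := Set.mem_univ_pi.1 hk i
    exact abs_le.2 ⟨this.1.le, this.2⟩
  have hex : ∃ m : ℕ, k ∈ cell (0 : Fin d → ℝ) ((m + 1) / Real.sqrt N) := by
    refine ⟨⌊Real.pi * Real.sqrt N⌋₊, fun j => ?_⟩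
    simp only [Pi.zero_apply, sub_zero]
    refine (hkpi j).trans ?_
    rw [le_div_iff₀ hs]
    exact (Nat.lt_floor_add_one _).le
  refine ⟨Nat.find hex, ?_, Nat.find_spec hex, ?_⟩
  · refine Nat.lt_succ_of_le (Nat.find_min' hex (fun j => ?_))
    simp only [Pi.zero_apply, sub_zero]
    refine (hkpi j).trans ?_
    rw [le_div_iff₀ hs]
    exact (Nat.lt_floor_add_one _).le
  · rcases Nat.eq_zero_or_pos (Nat.find hex) with h0 | h0
    · rw [h0]
      simp only [Nat.cast_zero, zero_div, neg_zero, Real.exp_zero]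
      exact psi_le_one N k
    · obtain ⟨q, hq⟩ : ∃ q, Nat.find hex = q + 1 := ⟨Nat.find hex - 1, by omega⟩
      have h1 := Nat.find_min hex (m := q) (by omega)
      have h2 : ∃ i, ((q : ℝ) + 1) / Real.sqrt N < |k i| := by
        by_contra hcon
        push Not at hcon
        exact h1 fun j => by simpa using hcon j
      obtain ⟨i, hi⟩ := h2
      rw [hq]
      refine (psi_le_exp N k i (hkpi i)).trans (Real.exp_le_exp.2 (neg_le_neg ?_))
      have hpi2 : 0 < Real.pi ^ 2 := by positivity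
      rw [div_le_div_iff_of_pos_right hpi2]
      rw [div_lt_iff₀ hs] at hi
      have h3 : ((q : ℝ) + 1) ^ 2 ≤ (|k i| * Real.sqrt N) ^ 2 :=
        pow_le_pow_left₀ (by positivity) hi.le 2
      rw [mul_pow, sq_abs, Real.sq_sqrt (Nat.cast_nonneg _)] at h3
      have h4 : (1 : ℝ) ≤ (q : ℝ) + 1 := by have : (0 : ℝ) ≤ q := Nat.cast_nonneg q; linarith
      push_cast
      nlinarith

/-- the constant -/
noncomputable def Z (d : ℕ) : ℝ := ∑' j : ℕ, ((j : ℝ) + 1) ^ d * Real.exp (-(j / Real.pi ^ 2))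

theorem Z_summable (d : ℕ) : Summable fun j : ℕ => ((j : ℝ) + 1) ^ d * Real.exp (-(j / Real.pi ^ 2)) := by
  set ρ := Real.exp (-(1 / Real.pi ^ 2)) with hρ
  have hρ0 : 0 < ρ := Real.exp_pos _
  have hρ1 : ρ < 1 := by
    rw [hρ, Real.exp_lt_one_iff]
    have := Real.pi_pos
    have : 0 < 1 / Real.pi ^ 2 := by positivity
    linarith
  have h1 := summable_pow_mul_geometric_of_norm_lt_one (R := ℝ) d (r := ρ)
    (by rw [Real.norm_eq_abs, abs_of_pos hρ0]; exact hρ1)
  have h2 := (summable_nat_add_iff 1).2 h1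
  have h3 := h2.mul_left ρ⁻¹
  refine h3.congr fun j => ?_
  have h4 : Real.exp (-((j : ℝ) / Real.pi ^ 2)) = ρ ^ j := by
    rw [hρ, ← Real.exp_nat_mul]
    congr 1
    ring
  rw [h4, pow_succ]
  push_cast
  field_simp

theorem kernel_of_avg (p : NNReal) (hp : p ≤ 1) (hs : Summable (tau d p hp)) (a : ℝ) (ha0 : 0 ≤ a)
    (ha : ∀ r : ℝ, 0 < r → r ≤ Real.pi → ∫ k in cube d ∩ cell (0 : Fin d → ℝ) r, G d p hp k ≤ a * r ^ d)
    (N : ℕ) (hN : 1 ≤ N) : ∫ k in cube d, G d p hp k * psi N k ≤ a * Z d / Real.sqrt N ^ d := by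
  classical
  have hsq : 0 < Real.sqrt N := Real.sqrt_pos.2 (by exact_mod_cast hN)
  set J := ⌊Real.pi * Real.sqrt N⌋₊ + 1 with hJ
  set c : ℕ → Set (Fin d → ℝ) := fun m => cell (0 : Fin d → ℝ) ((m + 1) / Real.sqrt N) with hc
  have hGi := G_integrable p hp hs
  have hpt : ∀ k ∈ cube d, G d p hp k * psi N k ≤ ∑ m ∈ Finset.range J,
      Real.exp (-(m / Real.pi ^ 2)) * (c m).indicator (G d p hp) k := by
    intro k hk
    obtain ⟨m, hm, hmc, hmpsi⟩ := psi_shells N hN k hk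
    have hG0 := G_nonneg p hp hs k
    have h1 : G d p hp k * psi N k ≤ Real.exp (-(m / Real.pi ^ 2)) * (c m).indicator (G d p hp) k := by
      rw [Set.indicator_of_mem hmc, mul_comm]
      exact mul_le_mul_of_nonneg_right hmpsi hG0
    refine h1.trans ?_
    refine Finset.single_le_sum (f := fun m : ℕ =>
      Real.exp (-(m / Real.pi ^ 2)) * (c m).indicator (G d p hp) k) (fun q _ => ?_) (Finset.mem_range.2 hm)
    exact mul_nonneg (Real.exp_pos _).le (Set.indicator_nonneg (fun x _ => G_nonneg p hp hs x) k)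
  have hint : ∀ m : ℕ, Integrable (fun k => Real.exp (-(m / Real.pi ^ 2)) * (c m).indicator (G d p hp) k)
      (volume.restrict (cube d)) := fun m =>
    (hGi.indicator (cell_meas _ _)).const_mul _
  calc ∫ k in cube d, G d p hp k * psi N k
      ≤ ∫ k in cube d, ∑ m ∈ Finset.range J,
          Real.exp (-(m / Real.pi ^ 2)) * (c m).indicator (G d p hp) k := by
        refine setIntegral_mono_on (integrable_of_cont ((G_cont p hp hs).mul (psi_cont N)))
          (integrable_finsetSum _ fun m _ => hint m) cube_meas hpt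
    _ = ∑ m ∈ Finset.range J, Real.exp (-(m / Real.pi ^ 2)) * ∫ k in cube d ∩ c m, G d p hp k := by
        rw [integral_finsetSum _ (fun m _ => hint m)]
        refine Finset.sum_congr rfl fun m _ => ?_
        rw [integral_const_mul, integral_indicator (cell_meas _ _), Measure.restrict_restrict (cell_meas _ _),
          Set.inter_comm]
    _ ≤ ∑ m ∈ Finset.range J, a / Real.sqrt N ^ d * (((m : ℝ) + 1) ^ d * Real.exp (-(m / Real.pi ^ 2))) := by
        refine Finset.sum_le_sum fun m _ => ?_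
        have h2 := avg_ext p hp a ha0 ha (((m : ℝ) + 1) / Real.sqrt N) (by positivity)
        rw [div_pow] at h2
        calc Real.exp (-(m / Real.pi ^ 2)) * ∫ k in cube d ∩ c m, G d p hp k
            ≤ Real.exp (-(m / Real.pi ^ 2)) * (a * (((m : ℝ) + 1) ^ d / Real.sqrt N ^ d)) :=
              mul_le_mul_of_nonneg_left h2 (Real.exp_pos _).le
          _ = _ := by ring
    _ = a / Real.sqrt N ^ d * ∑ m ∈ Finset.range J, (((m : ℝ) + 1) ^ d * Real.exp (-(m / Real.pi ^ 2))) := by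
        rw [Finset.mul_sum]
    _ ≤ a / Real.sqrt N ^ d * Z d := by
        refine mul_le_mul_of_nonneg_left ?_ (by positivity)
        exact (Z_summable d).sum_le_tsum _ (fun j _ => by positivity)
    _ = _ := by ring

/-- the infrared bound on average gives quadratic growth -/
theorem growth_of_avg (hd : 3 ≤ d) (p : NNReal) (hp : p ≤ 1) (hs : Summable (tau d p hp)) (a : ℝ)
    (ha : ∀ r : ℝ, 0 < r → r ≤ Real.pi → ∫ k in cube d ∩ cell (0 : Fin d → ℝ) r, G d p hp k ≤ a * r ^ d)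
    (n : ℕ) (hn : 1 ≤ n) : S d p hp n ≤ 4 * d * (a * Z d) * (n : ℝ) ^ 2 := by
  have ha0 : 0 ≤ a := by
    have h1 := ha Real.pi Real.pi_pos le_rfl
    have h2 : 0 ≤ ∫ k in cube d ∩ cell (0 : Fin d → ℝ) Real.pi, G d p hp k :=
      integral_nonneg fun k => G_nonneg p hp hs k
    exact nonneg_of_mul_nonneg_left (h2.trans h1) (by positivity)
  exact growth_of_kernel hd p hp hs (a * Z d) (fun N hN => kernel_of_avg p hp hs a ha0 ha N hN) n hn

end Pool.Agent.H74.IB
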