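import Pool.Agent.H74.IB.GrowthE

/-!
# The growth at the scale `n` is comparable with the largest average over the cubes of radius `1 / n`
-/

set_option autoImplicit false

open MeasureTheory Filter Topology

namespace Pool.Agent.H74.IB

open Pool.Agent.Results.MP_54f242_pr.InfraredMean

variable {d : ℕ}

theorem S_mono (p : NNReal) (hp : p ≤ 1) {m n : ℕ} (h : m ≤ n) : S d p hp m ≤ S d p hp n := by
  unfold S
  refine Finset.sum_le_sum_of_subset_of_nonneg ?_ (fun x _ _ => tau_nonneg p hp x)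
  intro x hx
  rw [Fintype.mem_piFinset] at hx ⊢
  intro i
  have := hx i
  rw [Finset.mem_Icc] at this ⊢
  omega

theorem int_cs (p : NNReal) (hp : p ≤ 1) (hs : Summable (tau d p hp)) :
    ∫ k in cube d, cs (tau d p hp) k = (2 * Real.pi) ^ d := by
  have h := inversion p hp hs 0
  have h0 : ∀ k : Fin d → ℝ, cs (tau d p hp) k * Real.cos (dot k 0) = cs (tau d p hp) k := by
    intro k
    simp [dot]
  simp_rw [h0] at h
  rw [h, tau_zero, mul_one]

theorem mass_le' (hd : 1 ≤ d) (p : NNReal) (hp : p ≤ 1) (hs : Summable (tau d p hp)) (n : ℕ) (hn : 1 ≤ n)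
    (k₀ : Fin d → ℝ) :
    (n : ℝ) ^ d * ∫ k in cube d ∩ cell k₀ (1 / n), cs (tau d p hp) k ≤
      8 * (4 * Real.pi * d) ^ d * S d p hp n := by
  have hd0 : (0 : ℝ) < d := by exact_mod_cast hd
  have hn0 : (0 : ℝ) < n := by exact_mod_cast hn
  have hpi := Real.pi_pos
  have hcs := cs_cont _ (tau_abs_summable p hp hs)
  have hci : Integrable (cs (tau d p hp)) (volume.restrict (cube d)) := integrable_of_cont hcs
  have hS1 := S_ge_one (d := d) p hp n
  have h4 : (4 * Real.pi * d) ^ d = (2 * Real.pi) ^ d * (2 * d) ^ d := by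
    rw [← mul_pow]; congr 1; ring
  rcases Nat.lt_or_ge n d with hnd | hnd
  · have h1 : ∫ k in cube d ∩ cell k₀ (1 / n), cs (tau d p hp) k ≤ (2 * Real.pi) ^ d := by
      rw [← int_cs p hp hs]
      exact setIntegral_mono_set hci (Eventually.of_forall fun k => cs_nonneg p hp hs k)
        (Eventually.of_forall Set.inter_subset_left)
    have h2 : (n : ℝ) ^ d ≤ (2 * (d : ℝ)) ^ d := by
      refine pow_le_pow_left₀ hn0.le ?_ d
      have : (n : ℝ) < d := by exact_mod_cast hnd
      linarith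
    calc (n : ℝ) ^ d * ∫ k in cube d ∩ cell k₀ (1 / n), cs (tau d p hp) k
        ≤ (n : ℝ) ^ d * (2 * Real.pi) ^ d := mul_le_mul_of_nonneg_left h1 (by positivity)
      _ ≤ (2 * (d : ℝ)) ^ d * (2 * Real.pi) ^ d := mul_le_mul_of_nonneg_right h2 (by positivity)
      _ = (4 * Real.pi * d) ^ d := by rw [h4]; ring
      _ ≤ 8 * (4 * Real.pi * d) ^ d * S d p hp n := by
          have h5 : 0 ≤ (4 * Real.pi * d) ^ d := by positivity
          nlinarith
  · set q := n / d with hq
    have hq1 : 1 ≤ q := Nat.one_le_iff_ne_zero.2 (Nat.div_pos hnd (by omega)).ne'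
    have hq0 : (0 : ℝ) < q := by exact_mod_cast hq1
    have hdq : d * q ≤ n := Nat.mul_div_le n d
    have hqn : n ≤ 2 * d * q := by
      have h1 : n < d * (q + 1) := Nat.lt_mul_div_succ n (by omega)
      nlinarith
    have hdq' : (d : ℝ) * q ≤ n := by exact_mod_cast hdq
    have hqn' : (n : ℝ) ≤ 2 * d * q := by exact_mod_cast hqn
    have h1 := mass_le hd p hp hs q hq1 k₀
    have h2 : ∫ k in cube d ∩ cell k₀ (1 / n), cs (tau d p hp) k ≤
        ∫ k in cube d ∩ cell k₀ (1 / (d * q)), cs (tau d p hp) k := by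
      refine setIntegral_mono_set (hci.mono_measure (Measure.restrict_mono Set.inter_subset_left le_rfl))
        (Eventually.of_forall fun k => cs_nonneg p hp hs k) (Eventually.of_forall fun k hk => ?_)
      exact ⟨hk.1, fun j => (hk.2 j).trans (one_div_le_one_div_of_le (by positivity) hdq')⟩
    have h3 : (n : ℝ) ^ d ≤ (2 * d) ^ d * (q : ℝ) ^ d := by
      rw [← mul_pow]
      exact pow_le_pow_left₀ hn0.le hqn' d
    have h6 : 0 ≤ ∫ k in cube d ∩ cell k₀ (1 / (d * q)), cs (tau d p hp) k :=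
      integral_nonneg fun k => cs_nonneg p hp hs k
    have h7 : S d p hp q ≤ S d p hp n := S_mono p hp (Nat.div_le_self n d)
    calc (n : ℝ) ^ d * ∫ k in cube d ∩ cell k₀ (1 / n), cs (tau d p hp) k
        ≤ (n : ℝ) ^ d * ∫ k in cube d ∩ cell k₀ (1 / (d * q)), cs (tau d p hp) k :=
          mul_le_mul_of_nonneg_left h2 (by positivity)
      _ ≤ ((2 * d) ^ d * (q : ℝ) ^ d) * ∫ k in cube d ∩ cell k₀ (1 / (d * q)), cs (tau d p hp) k :=
          mul_le_mul_of_nonneg_right h3 h6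
      _ = (2 * d) ^ d * ((q : ℝ) ^ d * ∫ k in cube d ∩ cell k₀ (1 / (d * q)), cs (tau d p hp) k) := by ring
      _ ≤ (2 * d) ^ d * (8 * (2 * Real.pi) ^ d * S d p hp q) :=
          mul_le_mul_of_nonneg_left h1 (by positivity)
      _ ≤ (2 * d) ^ d * (8 * (2 * Real.pi) ^ d * S d p hp n) := by gcongr
      _ = _ := by rw [h4]; ring

/-- the constant for the sum over the cells -/
noncomputable def Z' : ℝ := ∑' u : ℤ, 1 / (1 + (u : ℝ) ^ 2)

theorem Z'_summable : Summable fun u : ℤ => 1 / (1 + (u : ℝ) ^ 2) := by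
  have h1 : Summable fun u : ℤ => 1 / |(u : ℝ)| ^ 2 := by
    have := (Real.summable_one_div_int_pow (p := 2)).2 (by norm_num)
    simpa only [sq_abs] using this
  have h2 : Summable fun u : ℤ => if u = 0 then (1 : ℝ) else 0 := (hasSum_ite_eq 0 1).summable
  refine Summable.of_nonneg_of_le (fun u => by positivity) (fun u => ?_) (h1.add h2)
  by_cases hu : u = 0
  · subst hu; simp
  · have hu' : (0 : ℝ) < |(u : ℝ)| ^ 2 := by
      have : (u : ℝ) ≠ 0 := by exact_mod_cast hu
      positivity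
    rw [if_neg hu, add_zero, sq_abs]
    rw [sq_abs] at hu'
    exact one_div_le_one_div_of_le hu' (by linarith)

theorem psi_cells (n : ℕ) (hn : 1 ≤ n) (k : Fin d → ℝ) (hk : k ∈ cube d) :
    ∃ u ∈ Fintype.piFinset (fun _ : Fin d => Finset.Icc (-(4 * n : ℕ) : ℤ) ((4 * n : ℕ) : ℤ)),
      k ∈ cell (fun j => (u j : ℝ) / n) (1 / n) ∧
      psi (2 * n ^ 2) k ≤ ∏ j, (3 * Real.pi ^ 2 * (1 / (1 + (u j : ℝ) ^ 2))) := by
  have hn0 : (0 : ℝ) < n := by exact_mod_cast hn
  have hpi := Real.pi_pos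
  have hpi3 := Real.pi_gt_three
  have hpi4 := Real.pi_lt_four
  have hkpi : ∀ i, |k i| ≤ Real.pi := fun i => by
    have := Set.mem_univ_pi.1 hk i
    exact abs_le.2 ⟨this.1.le, this.2⟩
  refine ⟨fun j => ⌊(n : ℝ) * k j⌋, ?_, ?_, ?_⟩
  · rw [Fintype.mem_piFinset]
    intro j
    rw [Finset.mem_Icc]
    have h1 := abs_le.1 (hkpi j)
    constructor
    · rw [Int.le_floor]
      push_cast
      nlinarith
    · have h2 := Int.floor_le ((n : ℝ) * k j)
      have h3 : ((⌊(n : ℝ) * k j⌋ : ℤ) : ℝ) ≤ ((4 * n : ℕ) : ℝ) := by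
        push_cast
        nlinarith
      exact_mod_cast h3
  · intro j
    have h2 := Int.floor_le ((n : ℝ) * k j)
    have h3 := Int.lt_floor_add_one ((n : ℝ) * k j)
    have h4 : k j - (⌊(n : ℝ) * k j⌋ : ℝ) / n = (n * k j - (⌊(n : ℝ) * k j⌋ : ℝ)) / n := by
      field_simp
    change |k j - (⌊(n : ℝ) * k j⌋ : ℝ) / n| ≤ 1 / n
    rw [h4, abs_div, abs_of_pos hn0, div_le_div_iff_of_pos_right hn0, abs_le]
    constructor <;> linarith
  · unfold psi
    refine Finset.prod_le_prod (fun _ _ => pow_nonneg (half_nonneg _) _) (fun j _ => ?_)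
    have h2 := Int.floor_le ((n : ℝ) * k j)
    have h3 := Int.lt_floor_add_one ((n : ℝ) * k j)
    set u : ℝ := (⌊(n : ℝ) * k j⌋ : ℝ) with hu
    set y : ℝ := (n * k j) ^ 2 with hy
    have h4 : u ^ 2 ≤ 2 * y + 2 := by
      have h5 : (n * k j - u) ^ 2 ≤ 1 := by nlinarith
      nlinarith [sq_nonneg (2 * (n * k j) - u), sq_nonneg (n * k j - u)]
    have h6 : ((1 + Real.cos (k j)) / 2) ^ (2 * n ^ 2) ≤ (Real.exp (-((k j) ^ 2 / Real.pi ^ 2))) ^ (2 * n ^ 2) :=
      pow_le_pow_left₀ (half_nonneg _) (half_le_exp _ (hkpi j)) _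
    have h7 : (Real.exp (-((k j) ^ 2 / Real.pi ^ 2))) ^ (2 * n ^ 2) = Real.exp (-(2 * y / Real.pi ^ 2)) := by
      rw [← Real.exp_nat_mul]
      congr 1
      rw [hy]
      push_cast
      ring
    rw [h7] at h6
    refine h6.trans ?_
    have hy0 : 0 ≤ y := sq_nonneg _
    have h8 := Real.add_one_le_exp (2 * y / Real.pi ^ 2)
    have h9 : 0 < 2 * y / Real.pi ^ 2 + 1 := by positivity
    rw [Real.exp_neg]
    have h10 : (Real.exp (2 * y / Real.pi ^ 2))⁻¹ ≤ (2 * y / Real.pi ^ 2 + 1)⁻¹ :=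
      inv_anti₀ h9 h8
    refine h10.trans ?_
    have h11 : (2 * y / Real.pi ^ 2 + 1)⁻¹ = Real.pi ^ 2 / (2 * y + Real.pi ^ 2) := by
      field_simp
    rw [h11, mul_one_div, div_le_div_iff₀ (by positivity) (by positivity)]
    have hpi9 : 9 ≤ Real.pi ^ 2 := by nlinarith
    have h12 : 1 + u ^ 2 ≤ 3 * (2 * y + Real.pi ^ 2) := by nlinarith
    calc Real.pi ^ 2 * (1 + u ^ 2) ≤ Real.pi ^ 2 * (3 * (2 * y + Real.pi ^ 2)) :=
          mul_le_mul_of_nonneg_left h12 (by positivity)
      _ = _ := by ring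

/-- the growth is at most a constant times the largest average -/
theorem growth_of_mass (p : NNReal) (hp : p ≤ 1) (hs : Summable (tau d p hp)) (n : ℕ) (hn : 1 ≤ n)
    (M : ℝ) (hM : ∀ k₀ : Fin d → ℝ, ∫ k in cube d ∩ cell k₀ (1 / n), cs (tau d p hp) k ≤ M) :
    S d p hp n ≤ (2 * (3 * Real.pi ^ 2 * Z')) ^ d * ((n : ℝ) ^ d * M) := by
  classical
  have hn0 : (0 : ℝ) < n := by exact_mod_cast hn
  have hcs := cs_cont _ (tau_abs_summable p hp hs)
  have hci : Integrable (cs (tau d p hp)) (volume.restrict (cube d)) := integrable_of_cont hcs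
  have hM0 : 0 ≤ M := (integral_nonneg fun k => cs_nonneg p hp hs k).trans (hM 0)
  have hN : 1 ≤ 2 * n ^ 2 := by nlinarith [Nat.one_le_pow 2 n hn]
  have h1 := S_le_U p hp hs (2 * n ^ 2) n hN le_rfl
  set I := Finset.Icc (-(4 * n : ℕ) : ℤ) ((4 * n : ℕ) : ℤ) with hI
  set w : ℤ → ℝ := fun u => 3 * Real.pi ^ 2 * (1 / (1 + (u : ℝ) ^ 2)) with hw
  have hw0 : ∀ u, 0 ≤ w u := fun u => by simp only [hw]; positivity
  have hpt : ∀ k ∈ cube d, cs (tau d p hp) k * psi (2 * n ^ 2) k ≤
      ∑ u ∈ Fintype.piFinset (fun _ : Fin d => I), (∏ j, w (u j)) *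
        (cell (fun j => (u j : ℝ) / n) (1 / n)).indicator (cs (tau d p hp)) k := by
    intro k hk
    obtain ⟨u, hu, huc, hupsi⟩ := psi_cells n hn k hk
    have hcs0 := cs_nonneg p hp hs k
    have h2 : cs (tau d p hp) k * psi (2 * n ^ 2) k ≤ (∏ j, w (u j)) *
        (cell (fun j => (u j : ℝ) / n) (1 / n)).indicator (cs (tau d p hp)) k := by
      rw [Set.indicator_of_mem huc, mul_comm]
      exact mul_le_mul_of_nonneg_right hupsi hcs0
    refine h2.trans ?_
    refine Finset.single_le_sum (f := fun u : Fin d → ℤ => (∏ j, w (u j)) *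
        (cell (fun j => (u j : ℝ) / n) (1 / n)).indicator (cs (tau d p hp)) k) (fun q _ => ?_) hu
    exact mul_nonneg (Finset.prod_nonneg fun j _ => hw0 _)
      (Set.indicator_nonneg (fun x _ => cs_nonneg p hp hs x) k)
  have hint : ∀ u : Fin d → ℤ, Integrable (fun k => (∏ j, w (u j)) *
      (cell (fun j => (u j : ℝ) / n) (1 / n)).indicator (cs (tau d p hp)) k)
      (volume.restrict (cube d)) := fun u =>
    (hci.indicator (cell_meas _ _)).const_mul _
  have h3 : U d p hp (2 * n ^ 2) ≤ M * (3 * Real.pi ^ 2 * Z') ^ d := by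
    calc U d p hp (2 * n ^ 2) ≤ ∫ k in cube d, ∑ u ∈ Fintype.piFinset (fun _ : Fin d => I), (∏ j, w (u j)) *
          (cell (fun j => (u j : ℝ) / n) (1 / n)).indicator (cs (tau d p hp)) k := by
          refine setIntegral_mono_on (integrable_of_cont (hcs.mul (psi_cont _)))
            (integrable_finsetSum _ fun m _ => hint m) cube_meas hpt
      _ = ∑ u ∈ Fintype.piFinset (fun _ : Fin d => I), (∏ j, w (u j)) *
          ∫ k in cube d ∩ cell (fun j => (u j : ℝ) / n) (1 / n), cs (tau d p hp) k := by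
          rw [integral_finsetSum _ (fun m _ => hint m)]
          refine Finset.sum_congr rfl fun u _ => ?_
          rw [integral_const_mul, integral_indicator (cell_meas _ _),
            Measure.restrict_restrict (cell_meas _ _), Set.inter_comm]
      _ ≤ ∑ u ∈ Fintype.piFinset (fun _ : Fin d => I), (∏ j, w (u j)) * M :=
          Finset.sum_le_sum fun u _ => mul_le_mul_of_nonneg_left (hM _) (Finset.prod_nonneg fun j _ => hw0 _)
      _ = (∏ _j : Fin d, ∑ u ∈ I, w u) * M := by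
          rw [← Finset.sum_mul, Finset.prod_univ_sum]
      _ ≤ (3 * Real.pi ^ 2 * Z') ^ d * M := by
          refine mul_le_mul_of_nonneg_right ?_ hM0
          rw [Finset.prod_const, Finset.card_univ, Fintype.card_fin]
          refine pow_le_pow_left₀ (Finset.sum_nonneg fun u _ => hw0 u) ?_ d
          simp only [hw]
          rw [← Finset.mul_sum]
          refine mul_le_mul_of_nonneg_left ?_ (by positivity)
          exact Z'_summable.sum_le_tsum _ (fun u _ => by positivity)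
      _ = _ := mul_comm _ _
  set s := Real.sqrt ((2 * n ^ 2 : ℕ) : ℝ) with hs'
  have hs2 : s ≤ 2 * n := by
    rw [hs']
    refine Real.sqrt_le_iff.2 ⟨by positivity, ?_⟩
    push_cast
    nlinarith [sq_nonneg (n : ℝ)]
  have hs0 : 0 ≤ s := Real.sqrt_nonneg _
  have hZ0 : 0 ≤ Z' := tsum_nonneg fun u => by positivity
  calc S d p hp n ≤ s ^ d * U d p hp (2 * n ^ 2) := h1
    _ ≤ s ^ d * (M * (3 * Real.pi ^ 2 * Z') ^ d) := mul_le_mul_of_nonneg_left h3 (by positivity)
    _ ≤ (2 * n) ^ d * (M * (3 * Real.pi ^ 2 * Z') ^ d) := by gcongr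
    _ = _ := by
        simp only [mul_pow]
        ring

end Pool.Agent.H74.IB
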