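import Pool.Agent.H74.IB.Upper

/-!
# The inequality for orientations implies the infrared bound
-/

set_option autoImplicit false

open MeasureTheory Filter Topology

namespace Pool.Agent.H74.IB

open Pool.Agent.Results.MP_54f242_pr.InfraredMean

variable {d : ℕ}

theorem quad_pos {ι : Type*} (p : NNReal) (hp : p ≤ 1) (I : Finset ι) (a : ι → Fin d → ℤ) (g : ι → ℝ) :
    0 ≤ quad d p hp I a g := by
  classical
  rw [← integral_components]
  exact integral_nonneg fun ω => finsum_nonneg fun c => sq_nonneg _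

theorem quad_convex {ι : Type*} (p : NNReal) (hp : p ≤ 1) (I : Finset ι) (a : ι → Fin d → ℤ)
    (g g' h : ι → ℝ) (s : ℝ) (hs0 : 0 ≤ s) (hs1 : s ≤ 1) (hh : ∀ i ∈ I, h i = s * g i + (1 - s) * g' i) :
    quad d p hp I a h ≤ s * quad d p hp I a g + (1 - s) * quad d p hp I a g' := by
  have h1 : s * quad d p hp I a g + (1 - s) * quad d p hp I a g' - quad d p hp I a h =
      s * (1 - s) * quad d p hp I a (fun i => g i - g' i) := by
    unfold quad
    rw [Finset.mul_sum, Finset.mul_sum, Finset.mul_sum, ← Finset.sum_add_distrib, ← Finset.sum_sub_distrib]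
    refine Finset.sum_congr rfl fun i hi => ?_
    rw [Finset.mul_sum, Finset.mul_sum, Finset.mul_sum, ← Finset.sum_add_distrib, ← Finset.sum_sub_distrib]
    refine Finset.sum_congr rfl fun j hj => ?_
    rw [hh i hi, hh j hj]
    ring
  have h2 : 0 ≤ s * (1 - s) * quad d p hp I a (fun i => g i - g' i) :=
    mul_nonneg (mul_nonneg hs0 (by linarith)) (quad_pos p hp I a _)
  linarith

/-- the quadratic form of the flows on the edges in `E` -/
noncomputable def qf (d : ℕ) (p : NNReal) (hp : p ≤ 1) (E : Finset ((Fin d → ℤ) × Fin d))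
    (F : (Fin d → ℤ) × Fin d → ℝ) : ℝ :=
  quad d p hp (E ×ˢ (Finset.univ : Finset Bool)) ends (dv F)

theorem qf_nonneg (p : NNReal) (hp : p ≤ 1) (E : Finset ((Fin d → ℤ) × Fin d))
    (F : (Fin d → ℤ) × Fin d → ℝ) : 0 ≤ qf d p hp E F := quad_pos _ _ _ _ _

theorem qf_congr (p : NNReal) (hp : p ≤ 1) (E : Finset ((Fin d → ℤ) × Fin d))
    (F F' : (Fin d → ℤ) × Fin d → ℝ) (h : ∀ e ∈ E, F e = F' e) : qf d p hp E F = qf d p hp E F' := by
  have h1 : ∀ z ∈ E ×ˢ (Finset.univ : Finset Bool), dv F z = dv F' z := by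
    intro z hz
    have := h z.1 (Finset.mem_product.1 hz).1
    simp only [dv, this]
  unfold qf quad
  refine Finset.sum_congr rfl fun i hi => Finset.sum_congr rfl fun j hj => ?_
  rw [h1 i hi, h1 j hj]

theorem qf_smul (p : NNReal) (hp : p ≤ 1) (E : Finset ((Fin d → ℤ) × Fin d))
    (F : (Fin d → ℤ) × Fin d → ℝ) (m : ℝ) : qf d p hp E (fun e => m * F e) = m ^ 2 * qf d p hp E F := by
  have h1 : ∀ z, dv (fun e => m * F e) z = m * dv F z := by
    intro z
    simp only [dv]
    split_ifs <;> ring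
  unfold qf quad
  rw [Finset.mul_sum]
  refine Finset.sum_congr rfl fun i hi => ?_
  rw [Finset.mul_sum]
  refine Finset.sum_congr rfl fun j hj => ?_
  rw [h1 i, h1 j]
  ring

theorem qf_convex (p : NNReal) (hp : p ≤ 1) (E : Finset ((Fin d → ℤ) × Fin d))
    (F F' H : (Fin d → ℤ) × Fin d → ℝ) (s : ℝ) (hs0 : 0 ≤ s) (hs1 : s ≤ 1)
    (hH : ∀ e, H e = s * F e + (1 - s) * F' e) :
    qf d p hp E H ≤ s * qf d p hp E F + (1 - s) * qf d p hp E F' := by
  refine quad_convex p hp _ _ _ _ _ s hs0 hs1 fun z _ => ?_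
  simp only [dv]
  split_ifs
  · exact hH _
  · rw [hH]; ring

/-- the maximum over the flows bounded by one is attained at an orientation -/
theorem qf_cube (p : NNReal) (hp : p ≤ 1) (E : Finset ((Fin d → ℤ) × Fin d)) (B : ℝ)
    (hB : ∀ σ : (Fin d → ℤ) × Fin d → ℝ, (∀ e, σ e = 1 ∨ σ e = -1) → qf d p hp E σ ≤ B)
    (F : (Fin d → ℤ) × Fin d → ℝ) (hF : ∀ e ∈ E, |F e| ≤ 1) : qf d p hp E F ≤ B := by
  classical
  have key : ∀ S : Finset ((Fin d → ℤ) × Fin d), ∀ H : (Fin d → ℤ) × Fin d → ℝ,
      (∀ e, |H e| ≤ 1) → (∀ e, e ∉ S → H e = 1 ∨ H e = -1) → qf d p hp E H ≤ B := by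
    intro S
    induction S using Finset.induction_on with
    | empty =>
      intro H _ h2
      exact hB H fun e => h2 e (Finset.notMem_empty e)
    | insert a S ha ih =>
      intro H h1 h2
      have hab := abs_le.1 (h1 a)
      have c1 : qf d p hp E (Function.update H a 1) ≤ B := by
        refine ih _ (fun e => ?_) (fun e he => ?_)
        · by_cases h : e = a
          · subst h; simp
          · rw [Function.update_of_ne h]; exact h1 e
        · by_cases h : e = a
          · subst h; simp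
          · rw [Function.update_of_ne h]
            exact h2 e (by rw [Finset.mem_insert]; push Not; exact ⟨h, he⟩)
      have c2 : qf d p hp E (Function.update H a (-1)) ≤ B := by
        refine ih _ (fun e => ?_) (fun e he => ?_)
        · by_cases h : e = a
          · subst h; simp
          · rw [Function.update_of_ne h]; exact h1 e
        · by_cases h : e = a
          · subst h; simp
          · rw [Function.update_of_ne h]
            exact h2 e (by rw [Finset.mem_insert]; push Not; exact ⟨h, he⟩)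
      have c3 := qf_convex p hp E (Function.update H a 1) (Function.update H a (-1)) H ((1 + H a) / 2)
        (by linarith) (by linarith) (fun e => by
          by_cases h : e = a
          · subst h; rw [Function.update_self, Function.update_self]; ring
          · rw [Function.update_of_ne h, Function.update_of_ne h]; ring)
      have c4 : (1 + H a) / 2 * qf d p hp E (Function.update H a 1) ≤ (1 + H a) / 2 * B :=
        mul_le_mul_of_nonneg_left c1 (by linarith)
      have c5 : (1 - (1 + H a) / 2) * qf d p hp E (Function.update H a (-1)) ≤ (1 - (1 + H a) / 2) * B :=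
        mul_le_mul_of_nonneg_left c2 (by linarith)
      linarith
  set H : (Fin d → ℤ) × Fin d → ℝ := fun e => if e ∈ E then F e else 1 with hH
  rw [qf_congr p hp E F H (fun e he => by simp [hH, he])]
  refine key E H (fun e => ?_) (fun e he => ?_)
  · by_cases h : e ∈ E
    · simp only [hH, h, if_true]; exact hF e h
    · simp [hH, h]
  · left
    simp [hH, he]

theorem qf_scaled (p : NNReal) (hp : p ≤ 1) (E : Finset ((Fin d → ℤ) × Fin d)) (B : ℝ)
    (hB : ∀ σ : (Fin d → ℤ) × Fin d → ℝ, (∀ e, σ e = 1 ∨ σ e = -1) → qf d p hp E σ ≤ B)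
    (F : (Fin d → ℤ) × Fin d → ℝ) (m : ℝ) (hm : 0 < m) (hF : ∀ e ∈ E, |F e| ≤ m) :
    qf d p hp E F ≤ m ^ 2 * B := by
  have h1 := qf_cube p hp E B hB (fun e => m⁻¹ * F e) (fun e he => by
    rw [abs_mul, abs_of_pos (inv_pos.2 hm), inv_mul_le_iff₀ hm, mul_one]
    exact hF e he)
  have h2 := qf_smul p hp E (fun e => m⁻¹ * F e) m
  have h3 : (fun e => m * (m⁻¹ * F e)) = F := by
    funext e
    rw [← mul_assoc, mul_inv_cancel₀ hm.ne', one_mul]
  rw [h3] at h2
  rw [h2]
  exact mul_le_mul_of_nonneg_left h1 (sq_nonneg m)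

/-- the kernel of the form on the edges -/
noncomputable def ker (d : ℕ) (p : NNReal) (hp : p ≤ 1) (e f : (Fin d → ℤ) × Fin d) : ℝ :=
  tau d p hp (f.1 - e.1) - tau d p hp (top f - e.1) - tau d p hp (f.1 - top e) + tau d p hp (top f - top e)

theorem qf_ker (p : NNReal) (hp : p ≤ 1) (E : Finset ((Fin d → ℤ) × Fin d)) (F : (Fin d → ℤ) × Fin d → ℝ) :
    qf d p hp E F = ∑ e ∈ E, ∑ f ∈ E, F e * F f * ker d p hp e f := by
  have h1 : ∀ z, ∑ w ∈ E ×ˢ (Finset.univ : Finset Bool), dv F z * dv F w * tau d p hp (ends w - ends z) =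
      dv F z * ∑ f ∈ E, F f * (tau d p hp (f.1 - ends z) - tau d p hp (top f - ends z)) := by
    intro z
    rw [← sum_dv E F (fun v => tau d p hp (v - ends z)), Finset.mul_sum]
    exact Finset.sum_congr rfl fun w _ => by ring
  unfold qf quad
  simp_rw [h1]
  rw [sum_dv E F (fun v => ∑ f ∈ E, F f * (tau d p hp (f.1 - v) - tau d p hp (top f - v)))]
  refine Finset.sum_congr rfl fun e _ => ?_
  rw [← Finset.sum_sub_distrib, Finset.mul_sum]
  refine Finset.sum_congr rfl fun f _ => ?_
  unfold ker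
  ring

/-- averages over large boxes -/
theorem box_limit (h : (Fin d → ℤ) → ℝ) (hs : Summable fun z => |h z|) :
    Tendsto (fun N : ℕ => (∑ x ∈ box d N, ∑ y ∈ box d N, h (y - x)) / (N : ℝ) ^ d) atTop (𝓝 (∑' z, h z)) := by
  classical
  have key : ∀ N : ℕ, (∑ x ∈ box d N, ∑ y ∈ box d N, h (y - x)) / (N : ℝ) ^ d =
      ∑' z, h z * prop N z := by
    intro N
    have h1 : ∀ x, ∑ y ∈ box d N, h (y - x) = ∑' z, (if x + z ∈ box d N then h z else 0) := by
      intro x
      rw [← (Equiv.subRight x).tsum_eq]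
      rw [tsum_eq_sum (s := box d N)]
      · refine Finset.sum_congr rfl fun y hy => ?_
        simp [hy]
      · intro y hy
        simp [hy]
    have h2 : ∀ x, Summable (fun z => (if x + z ∈ box d N then h z else 0)) := by
      intro x
      refine Summable.of_norm_bounded hs fun z => ?_
      split_ifs
      · exact le_of_eq (Real.norm_eq_abs _)
      · simp
    simp_rw [h1]
    rw [← Summable.tsum_finsetSum (fun x _ => h2 x), ← tsum_div_const]
    refine tsum_congr fun z => ?_
    rw [← Finset.sum_filter, Finset.sum_const, nsmul_eq_mul, prop]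
    ring
  simp_rw [key]
  have hlim : Tendsto (fun N : ℕ => ∑' z, h z * prop N z) atTop (𝓝 (∑' z, h z * 1)) := by
    refine tendsto_tsum_of_dominated_convergence (bound := fun z => |h z|) hs
      (fun z => (prop_tendsto z).const_mul (h z)) (Eventually.of_forall fun N z => ?_)
    rw [norm_mul, Real.norm_eq_abs, Real.norm_eq_abs, abs_of_nonneg (prop_nonneg N z)]
    exact mul_le_of_le_one_right (abs_nonneg _) (prop_le_one N z)
  simpa only [mul_one] using hlim

/-- the Fourier coefficients of the plane wave flow -/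
noncomputable def cc (k : Fin d → ℝ) (i : Fin d) : ℂ := 1 - Complex.exp ((-(k i) : ℝ) * Complex.I)

/-- the plane wave flow -/
noncomputable def W (k : Fin d → ℝ) (e : (Fin d → ℤ) × Fin d) : ℂ :=
  cc k e.2 * Complex.exp ((-(dot k e.1) : ℝ) * Complex.I)

theorem exp_conj (t : ℝ) : (starRingEnd ℂ) (Complex.exp ((t : ℝ) * Complex.I)) =
    Complex.exp ((-t : ℝ) * Complex.I) := by
  rw [← Complex.exp_conj, map_mul, Complex.conj_I, Complex.conj_ofReal]
  push_cast
  ring_nf

theorem cc_conj (k : Fin d → ℝ) (i : Fin d) :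
    (starRingEnd ℂ) (cc k i) = 1 - Complex.exp ((k i : ℝ) * Complex.I) := by
  unfold cc
  rw [map_sub, map_one, exp_conj, neg_neg]

theorem cc_norm (k : Fin d → ℝ) (i : Fin d) : ‖cc k i‖ ^ 2 = 2 * (1 - Real.cos (k i)) := by
  unfold cc
  rw [norm_one_sub_exp, Real.cos_neg]

theorem cc_norm_eq (k : Fin d → ℝ) (i : Fin d) :
    ‖cc k i‖ ^ 2 = ‖1 - Complex.exp ((k i : ℝ) * Complex.I)‖ ^ 2 := by
  rw [cc_norm, norm_one_sub_exp]

/-- the translation invariant kernel -/
noncomputable def H (p : NNReal) (hp : p ≤ 1) (k : Fin d → ℝ) (z : Fin d → ℤ) : ℂ :=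
  ∑ i : Fin d, ∑ j : Fin d, cc k i * (starRingEnd ℂ) (cc k j) * Complex.exp ((dot k z : ℝ) * Complex.I) *
    (tau d p hp z - tau d p hp (z + Pi.single j 1) - tau d p hp (z - Pi.single i 1)
      + tau d p hp (z + Pi.single j 1 - Pi.single i 1) : ℝ)

theorem wave_sum (p : NNReal) (hp : p ≤ 1) (k : Fin d → ℝ) (n : ℕ) :
    qf d p hp (box d n ×ˢ (Finset.univ : Finset (Fin d))) (fun e => (W k e).re) +
      qf d p hp (box d n ×ˢ (Finset.univ : Finset (Fin d))) (fun e => (W k e).im) =
      ∑ x ∈ box d n, ∑ y ∈ box d n, (H p hp k (y - x)).re := by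
  rw [qf_ker, qf_ker, ← Finset.sum_add_distrib, Finset.sum_product]
  refine Finset.sum_congr rfl fun x _ => ?_
  have h1 : ∀ y, (H p hp k (y - x)).re = ∑ i : Fin d, ∑ j : Fin d,
      (((W k (x, i)).re * (W k (y, j)).re + (W k (x, i)).im * (W k (y, j)).im) * ker d p hp (x, i) (y, j)) := by
    intro y
    rw [H, Complex.re_sum]
    refine Finset.sum_congr rfl fun i _ => ?_
    rw [Complex.re_sum]
    refine Finset.sum_congr rfl fun j _ => ?_
    have h2 : cc k i * (starRingEnd ℂ) (cc k j) * Complex.exp ((dot k (y - x) : ℝ) * Complex.I) =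
        W k (x, i) * (starRingEnd ℂ) (W k (y, j)) := by
      unfold W
      rw [map_mul, exp_conj, neg_neg, dot_sub]
      have : Complex.exp (((dot k y - dot k x : ℝ) : ℂ) * Complex.I) =
          Complex.exp (((-dot k x : ℝ) : ℂ) * Complex.I) * Complex.exp (((dot k y : ℝ) : ℂ) * Complex.I) := by
        rw [← Complex.exp_add]
        push_cast
        ring_nf
      rw [this]
      ring
    rw [h2, Complex.re_mul_ofReal, Complex.mul_re, Complex.conj_re, Complex.conj_im]
    have h3 : ker d p hp (x, i) (y, j) = tau d p hp (y - x) - tau d p hp (y - x + Pi.single j 1)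
        - tau d p hp (y - x - Pi.single i 1) + tau d p hp (y - x + Pi.single j 1 - Pi.single i 1) := by
      have a1 : y + Pi.single j (1 : ℤ) - x = y - x + Pi.single j 1 := by abel
      have a2 : y - (x + Pi.single i (1 : ℤ)) = y - x - Pi.single i 1 := by abel
      have a3 : y + Pi.single j (1 : ℤ) - (x + Pi.single i 1) = y - x + Pi.single j 1 - Pi.single i 1 := by abel
      unfold ker top
      simp only
      rw [a1, a2, a3]
    rw [h3]
    ring
  simp_rw [h1]
  rw [Finset.sum_comm (s := box d n)]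
  refine Finset.sum_congr rfl fun i _ => ?_
  rw [Finset.sum_product, Finset.sum_product, ← Finset.sum_add_distrib]
  refine Finset.sum_congr rfl fun y _ => ?_
  rw [← Finset.sum_add_distrib]
  refine Finset.sum_congr rfl fun j _ => ?_
  ring

theorem H_hasSum (hd : 1 ≤ d) (p : NNReal) (hp : p ≤ 1) (hs : Summable (tau d p hp)) (k : Fin d → ℝ) :
    HasSum (fun z => (H p hp k z).re) ((2 * d * (1 - Dhat k)) ^ 2 * cs (tau d p hp) k) := by
  set T : (Fin d → ℤ) → ℂ := fun z => (tau d p hp z : ℂ) * Complex.exp ((dot k z : ℝ) * Complex.I) with hT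
  have hTs : Summable T := by
    refine Summable.of_norm_bounded hs fun z => ?_
    rw [hT, norm_mul, Complex.norm_exp_ofReal_mul_I, mul_one, Complex.norm_real, Real.norm_eq_abs,
      abs_of_nonneg (tau_nonneg p hp z)]
  obtain ⟨S, hS⟩ := hTs
  have hSre : S.re = cs (tau d p hp) k := by
    have h1 := Complex.hasSum_re hS
    have h2 : (fun z => (T z).re) = fun z => tau d p hp z * Real.cos (dot k z) := by
      funext z
      simp only [hT]
      rw [Complex.re_ofReal_mul, Complex.exp_ofReal_mul_I_re]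
    rw [h2] at h1
    exact h1.tsum_eq.symm
  have hsh : ∀ v : Fin d → ℤ, HasSum (fun z => T (z + v)) S := fun v =>
    (Equiv.addRight v).hasSum_iff.2 hS
  have hex : ∀ (z v : Fin d → ℤ), Complex.exp ((dot k z : ℝ) * Complex.I) * (tau d p hp (z + v) : ℂ) =
      Complex.exp ((-(dot k v) : ℝ) * Complex.I) * T (z + v) := by
    intro z v
    simp only [hT]
    rw [dot_add]
    have : Complex.exp (((dot k z + dot k v : ℝ) : ℂ) * Complex.I) =
        Complex.exp (((dot k z : ℝ) : ℂ) * Complex.I) * Complex.exp (((dot k v : ℝ) : ℂ) * Complex.I) := by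
      rw [← Complex.exp_add]
      push_cast
      ring_nf
    rw [this]
    have h2 : Complex.exp (((-(dot k v) : ℝ) : ℂ) * Complex.I) * Complex.exp (((dot k v : ℝ) : ℂ) * Complex.I) = 1 := by
      rw [← Complex.exp_add, ← Complex.exp_zero]
      push_cast
      ring_nf
    linear_combination (-(Complex.exp (((dot k z : ℝ) : ℂ) * Complex.I)) * (tau d p hp (z + v) : ℂ)) * h2
  have hterm : ∀ i j : Fin d, HasSum (fun z => cc k i * (starRingEnd ℂ) (cc k j) *
      Complex.exp ((dot k z : ℝ) * Complex.I) *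
      (tau d p hp z - tau d p hp (z + Pi.single j 1) - tau d p hp (z - Pi.single i 1)
      + tau d p hp (z + Pi.single j 1 - Pi.single i 1) : ℝ))
      (cc k i * (starRingEnd ℂ) (cc k j) * ((starRingEnd ℂ) (cc k i) * cc k j * S)) := by
    intro i j
    have e0 := hS
    have e1 := (hsh (Pi.single j 1)).mul_left (Complex.exp ((-(k j) : ℝ) * Complex.I))
    have e2 := (hsh (-Pi.single i 1)).mul_left (Complex.exp ((k i : ℝ) * Complex.I))
    have e3 := (hsh (Pi.single j 1 - Pi.single i 1)).mul_left (Complex.exp ((k i - k j : ℝ) * Complex.I))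
    have e4 := (((e0.sub e1).sub e2).add e3).mul_left (cc k i * (starRingEnd ℂ) (cc k j))
    have f1 : ∀ z, Complex.exp ((dot k z : ℝ) * Complex.I) * (tau d p hp (z + Pi.single j 1) : ℂ) =
        Complex.exp ((-(k j) : ℝ) * Complex.I) * T (z + Pi.single j 1) := by
      intro z
      rw [hex, dot_single]
    have f2 : ∀ z, Complex.exp ((dot k z : ℝ) * Complex.I) * (tau d p hp (z - Pi.single i 1) : ℂ) =
        Complex.exp ((k i : ℝ) * Complex.I) * T (z + -Pi.single i 1) := by
      intro z
      have h0 : dot k (-Pi.single i (1 : ℤ)) = -(k i) := by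
        have := dot_sub k (Pi.single i 1) 0
        rw [zero_sub, dot_single] at this
        rw [this]
        simp [dot]
      rw [sub_eq_add_neg, hex, h0, neg_neg]
    have f3 : ∀ z, Complex.exp ((dot k z : ℝ) * Complex.I) *
        (tau d p hp (z + Pi.single j 1 - Pi.single i 1) : ℂ) =
        Complex.exp ((k i - k j : ℝ) * Complex.I) * T (z + (Pi.single j 1 - Pi.single i 1)) := by
      intro z
      rw [add_sub_assoc, hex, dot_sub, dot_single, dot_single]
      congr 3
      push_cast
      ring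
    have hf : (fun z => cc k i * (starRingEnd ℂ) (cc k j) *
      Complex.exp ((dot k z : ℝ) * Complex.I) *
      ((tau d p hp z - tau d p hp (z + Pi.single j 1) - tau d p hp (z - Pi.single i 1)
      + tau d p hp (z + Pi.single j 1 - Pi.single i 1) : ℝ) : ℂ)) = fun z => cc k i * (starRingEnd ℂ) (cc k j) *
        (T z - Complex.exp ((-(k j) : ℝ) * Complex.I) * T (z + Pi.single j 1) -
            Complex.exp ((k i : ℝ) * Complex.I) * T (z + -Pi.single i 1) +
          Complex.exp ((k i - k j : ℝ) * Complex.I) * T (z + (Pi.single j 1 - Pi.single i 1))) := by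
      funext z
      rw [← f1, ← f2, ← f3]
      simp only [hT]
      push_cast
      ring
    have hv : cc k i * (starRingEnd ℂ) (cc k j) * ((starRingEnd ℂ) (cc k i) * cc k j * S) =
        cc k i * (starRingEnd ℂ) (cc k j) *
        (S - Complex.exp ((-(k j) : ℝ) * Complex.I) * S - Complex.exp ((k i : ℝ) * Complex.I) * S +
        Complex.exp ((k i - k j : ℝ) * Complex.I) * S) := by
      rw [cc_conj, cc_conj]
      unfold cc
      have g1 : Complex.exp (((k i - k j : ℝ) : ℂ) * Complex.I) =
          Complex.exp (((k i : ℝ) : ℂ) * Complex.I) * Complex.exp (((-k j : ℝ) : ℂ) * Complex.I) := by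
        rw [← Complex.exp_add]
        push_cast
        ring_nf
      rw [g1]
      ring
    rw [hf, hv]
    exact e4
  have hall : HasSum (H p hp k) (∑ i : Fin d, ∑ j : Fin d,
      (cc k i * (starRingEnd ℂ) (cc k j) * ((starRingEnd ℂ) (cc k i) * cc k j * S))) := by
    have := hasSum_sum (s := (Finset.univ : Finset (Fin d))) (fun i _ =>
      hasSum_sum (s := (Finset.univ : Finset (Fin d))) (fun j _ => hterm i j))
    exact this
  have hval : (∑ i : Fin d, ∑ j : Fin d,
      (cc k i * (starRingEnd ℂ) (cc k j) * ((starRingEnd ℂ) (cc k i) * cc k j * S))) =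
      (((2 * d * (1 - Dhat k)) ^ 2 : ℝ) : ℂ) * S := by
    rw [← sum_norm hd, sq, Finset.sum_mul_sum]
    push_cast
    rw [Finset.sum_mul]
    refine Finset.sum_congr rfl fun i _ => ?_
    rw [Finset.sum_mul]
    refine Finset.sum_congr rfl fun j _ => ?_
    have h5 : ∀ i : Fin d, ((‖1 - Complex.exp ((k i : ℝ) * Complex.I)‖ : ℝ) : ℂ) ^ 2 =
        cc k i * (starRingEnd ℂ) (cc k i) := by
      intro i
      rw [Complex.mul_conj, Complex.normSq_eq_norm_sq, cc_norm_eq]
      push_cast
      rfl
    rw [h5, h5]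
    ring
  rw [hval] at hall
  have := Complex.hasSum_re hall
  rw [Complex.re_ofReal_mul, hSre] at this
  exact this

/-- the inequality for orientations implies the infrared bound -/
theorem lower (hd : 1 ≤ d) (p : NNReal) (hp : p ≤ 1) (hs : Summable (tau d p hp)) (B : ℝ)
    (hB : ∀ n₀ : ℕ, ∃ n ≥ n₀, ∀ σ : (Fin d → ℤ) × Fin d → ℝ, (∀ e, σ e = 1 ∨ σ e = -1) →
      qf d p hp (box d n ×ˢ (Finset.univ : Finset (Fin d))) σ ≤ B * (n : ℝ) ^ d) (k : Fin d → ℝ) :
    G d p hp k ≤ B / d := by
  have hd0 : (0 : ℝ) < d := by exact_mod_cast hd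
  have hB0 : 0 ≤ B := by
    obtain ⟨n, hn, h⟩ := hB 1
    have h1 := (qf_nonneg p hp (box d n ×ˢ (Finset.univ : Finset (Fin d))) (fun _ => 1)).trans
      (h (fun _ => 1) (fun _ => Or.inl rfl))
    have h2 : (0 : ℝ) < (n : ℝ) ^ d := by
      have : (0 : ℝ) < n := by exact_mod_cast hn
      positivity
    exact nonneg_of_mul_nonneg_left h1 h2
  have hG : G d p hp k = cs (tau d p hp) k * (1 - Dhat k) := rfl
  have hD : 0 ≤ 1 - Dhat k := by have := (abs_le.1 (Dhat_le k)).2; linarith
  rcases hD.eq_or_lt with hD0 | hD0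
  · rw [hG, ← hD0, mul_zero]
    positivity
  have hm2 : 0 < 2 * d * (1 - Dhat k) := by positivity
  set m : ℝ := Real.sqrt (2 * d * (1 - Dhat k)) with hm
  have hm0 : 0 < m := Real.sqrt_pos.2 hm2
  have hmsq : m ^ 2 = 2 * d * (1 - Dhat k) := Real.sq_sqrt hm2.le
  have hWn : ∀ e, ‖W k e‖ ≤ m := by
    intro e
    have h1 : ‖W k e‖ = ‖cc k e.2‖ := by
      unfold W
      rw [norm_mul, Complex.norm_exp_ofReal_mul_I, mul_one]
    rw [h1]
    refine Real.le_sqrt_of_sq_le ?_
    rw [cc_norm_eq, ← sum_norm hd]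
    exact Finset.single_le_sum (f := fun i => ‖1 - Complex.exp ((k i : ℝ) * Complex.I)‖ ^ 2)
      (fun i _ => by positivity) (Finset.mem_univ e.2)
  have hlim := box_limit (fun z => (H p hp k z).re) (H_hasSum hd p hp hs k).summable.abs
  rw [(H_hasSum hd p hp hs k).tsum_eq] at hlim
  have hfin : (2 * d * (1 - Dhat k)) ^ 2 * cs (tau d p hp) k ≤ 2 * (m ^ 2 * B) := by
    refine le_of_not_gt fun hlt => ?_
    have hev := hlim.eventually (lt_mem_nhds hlt)
    obtain ⟨n₀, hn₀⟩ := eventually_atTop.1 hev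
    obtain ⟨n, hn, hσ⟩ := hB (max n₀ 1)
    have h1 := hn₀ n ((le_max_left _ _).trans hn)
    have hn1 : (0 : ℝ) < (n : ℝ) ^ d := by
      have : (0 : ℝ) < n := by exact_mod_cast (le_max_right n₀ 1).trans hn
      positivity
    rw [← wave_sum] at h1
    have h2 := qf_scaled p hp _ _ hσ (fun e => (W k e).re) m hm0
      (fun e _ => (Complex.abs_re_le_norm _).trans (hWn e))
    have h3 := qf_scaled p hp _ _ hσ (fun e => (W k e).im) m hm0
      (fun e _ => (Complex.abs_im_le_norm _).trans (hWn e))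
    rw [lt_div_iff₀ hn1] at h1
    nlinarith
  rw [hmsq] at hfin
  rw [hG, le_div_iff₀ hd0]
  have h6 : (2 * d * (1 - Dhat k)) * ((cs (tau d p hp) k * (1 - Dhat k)) * d) ≤
      (2 * d * (1 - Dhat k)) * B := by nlinarith
  exact le_of_mul_le_mul_left h6 hm2

end Pool.Agent.H74.IB
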