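import Pool.Agent.H74.IB.Spread

/-!
# No infinite cluster
-/

set_option autoImplicit false

open MeasureTheory Filter Topology

namespace Pool.Agent.H74.IB

open Pool.Agent.Results.MP_54f242_pr.InfraredMean

variable {d : ℕ}

/-- the cluster of the origin reaches distance `k` -/
def far (d k : ℕ) : Set ((Fin d → ℤ) × Fin d → Bool) :=
  {ω | ∃ x : Fin d → ℤ, (∃ j, (k : ℤ) ≤ |x j|) ∧ (opn ω).Reachable 0 x}

theorem far_meas (k : ℕ) : MeasurableSet (far d k) := by
  have h : far d k = ⋃ x ∈ {x : Fin d → ℤ | ∃ j, (k : ℤ) ≤ |x j|}, {ω | (opn (d := d) ω).Reachable 0 x} := by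
    ext ω
    simp only [far, Set.mem_setOf_eq, Set.mem_iUnion, exists_prop]
  rw [h]
  exact MeasurableSet.biUnion (Set.to_countable _) fun x _ => meas_reach 0 x

theorem far_anti : Antitone (far d) := by
  rintro k l hkl ω ⟨x, ⟨j, hj⟩, hx⟩
  exact ⟨x, ⟨j, le_trans (by exact_mod_cast hkl) hj⟩, hx⟩

theorem far_inter : ⋂ k, far d k ⊆ {ω | {x : Fin d → ℤ | (opn ω).Reachable 0 x}.Infinite} := by
  intro ω hω
  simp only [Set.mem_setOf_eq]
  intro hfin
  obtain ⟨M, hM⟩ := (hfin.image fun x : Fin d → ℤ => ∑ j, |x j|).bddAbove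
  obtain ⟨x, ⟨j, hj⟩, hx⟩ := Set.mem_iInter.1 hω (M + 1).toNat
  have h1 : ∑ j, |x j| ≤ M := hM ⟨x, hx, rfl⟩
  have h2 : |x j| ≤ ∑ j, |x j| := Finset.single_le_sum (f := fun j => |x j|) (fun i _ => abs_nonneg _)
    (Finset.mem_univ j)
  have h3 : M + 1 ≤ ((M + 1).toNat : ℤ) := Int.self_le_toNat _
  omega

theorem far_tendsto (p : NNReal) (hp : p ≤ 1)
    (h : P d p hp {ω | {x : Fin d → ℤ | (opn ω).Reachable 0 x}.Infinite} = 0) :
    Tendsto (fun k => (P d p hp (far d k)).toReal) atTop (𝓝 0) := by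
  have h1 := tendsto_measure_iInter_atTop (μ := P d p hp) (s := far d)
    (fun k => (far_meas k).nullMeasurableSet) far_anti ⟨0, measure_ne_top _ _⟩
  have h2 : P d p hp (⋂ k, far d k) = 0 := measure_mono_null far_inter h
  rw [h2] at h1
  have h3 : Tendsto (fun k => (P d p hp (far d k)).toReal) atTop (𝓝 (0 : ENNReal).toReal) :=
    (ENNReal.tendsto_toReal ENNReal.zero_ne_top).comp h1
  rwa [ENNReal.toReal_zero] at h3

theorem tau_le_far (p : NNReal) (hp : p ≤ 1) (k : ℕ) (x : Fin d → ℤ) (hx : ∃ j, (k : ℤ) ≤ |x j|) :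
    tau d p hp x ≤ (P d p hp (far d k)).toReal := by
  have h1 : tau d p hp x = (P d p hp {ω | (opn ω).Reachable 0 x}).toReal := rfl
  rw [h1]
  exact ENNReal.toReal_mono (measure_ne_top _ _) (measure_mono fun ω hω => ⟨x, hx, hω⟩)

theorem S_le_far (p : NNReal) (hp : p ≤ 1) (k n : ℕ) :
    S d p hp n ≤ (2 * (k : ℝ) + 1) ^ d + (2 * (n : ℝ) + 1) ^ d * (P d p hp (far d k)).toReal := by
  classical
  have hcard : ∀ m : ℕ, ((Fintype.piFinset (fun _ : Fin d => Finset.Icc (-(m : ℤ)) (m : ℤ))).card : ℝ) =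
      (2 * (m : ℝ) + 1) ^ d := by
    intro m
    rw [Fintype.card_piFinset]
    simp only [Int.card_Icc, Finset.prod_const, Finset.card_univ, Fintype.card_fin]
    have : ((m : ℤ) + 1 - -(m : ℤ)).toNat = 2 * m + 1 := by omega
    rw [this]
    push_cast
    rfl
  set a : ℝ := (P d p hp (far d k)).toReal with ha
  have ha0 : 0 ≤ a := ENNReal.toReal_nonneg
  set C : Finset (Fin d → ℤ) := Fintype.piFinset (fun _ : Fin d => Finset.Icc (-(k : ℤ)) (k : ℤ)) with hC
  have h1 : ∀ x : Fin d → ℤ, tau d p hp x ≤ (if x ∈ C then (1 : ℝ) else 0) + a := by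
    intro x
    split_ifs with hx
    · have := tau_le_one p hp x
      linarith
    · rw [zero_add]
      refine tau_le_far p hp k x ?_
      rw [hC, Fintype.mem_piFinset] at hx
      push Not at hx
      obtain ⟨j, hj⟩ := hx
      refine ⟨j, ?_⟩
      rw [Finset.mem_Icc] at hj
      by_contra hlt
      rw [not_le, abs_lt] at hlt
      exact hj ⟨hlt.1.le, hlt.2.le⟩
  unfold S
  calc ∑ x ∈ Fintype.piFinset (fun _ : Fin d => Finset.Icc (-(n : ℤ)) (n : ℤ)), tau d p hp x
      ≤ ∑ x ∈ Fintype.piFinset (fun _ : Fin d => Finset.Icc (-(n : ℤ)) (n : ℤ)),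
          ((if x ∈ C then (1 : ℝ) else 0) + a) := Finset.sum_le_sum fun x _ => h1 x
    _ = (∑ x ∈ Fintype.piFinset (fun _ : Fin d => Finset.Icc (-(n : ℤ)) (n : ℤ)), (if x ∈ C then (1 : ℝ) else 0)) +
          (2 * (n : ℝ) + 1) ^ d * a := by
        rw [Finset.sum_add_distrib, Finset.sum_const, nsmul_eq_mul, hcard]
    _ ≤ (2 * (k : ℝ) + 1) ^ d + (2 * (n : ℝ) + 1) ^ d * a := by
        refine add_le_add ?_ (le_refl _)
        rw [← hcard k, ← hC, Finset.sum_boole]
        exact_mod_cast Finset.card_le_card fun x hx => (Finset.mem_filter.1 hx).2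

/-- no infinite cluster: the growth is `o(n^d)` -/
theorem S_small (hd : 1 ≤ d) (p : NNReal) (hp : p ≤ 1)
    (h : P d p hp {ω | {x : Fin d → ℤ | (opn ω).Reachable 0 x}.Infinite} = 0) :
    Tendsto (fun n : ℕ => S d p hp n / (n : ℝ) ^ d) atTop (𝓝 0) := by
  rw [tendsto_order]
  constructor
  · intro c hc
    refine Eventually.of_forall fun n => hc.trans_le ?_
    have : 0 ≤ S d p hp n := by
      unfold S
      exact Finset.sum_nonneg fun x _ => tau_nonneg p hp x
    positivity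
  · intro c hc
    have h1 : Tendsto (fun k => 3 ^ d * (P d p hp (far d k)).toReal) atTop (𝓝 (3 ^ d * 0)) :=
      (far_tendsto p hp h).const_mul _
    rw [mul_zero] at h1
    obtain ⟨k, hk⟩ := (h1.eventually (gt_mem_nhds (by linarith : (0 : ℝ) < c / 2))).exists
    have h2 : Tendsto (fun n : ℕ => (2 * (k : ℝ) + 1) ^ d / (n : ℝ) ^ d) atTop (𝓝 0) :=
      tendsto_const_nhds.div_atTop ((tendsto_pow_atTop (by omega)).comp tendsto_natCast_atTop_atTop)
    filter_upwards [h2.eventually (gt_mem_nhds (by linarith : (0 : ℝ) < c / 2)), eventually_ge_atTop 1] with n h3 h4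
    have hn0 : (0 : ℝ) < n := by exact_mod_cast h4
    have hn1 : (1 : ℝ) ≤ n := by exact_mod_cast h4
    have h5 := S_le_far (d := d) p hp k n
    have h6 : (2 * (n : ℝ) + 1) ^ d ≤ 3 ^ d * (n : ℝ) ^ d := by
      rw [← mul_pow]
      exact pow_le_pow_left₀ (by positivity) (by linarith) d
    have h7 : 0 ≤ (P d p hp (far d k)).toReal := ENNReal.toReal_nonneg
    calc S d p hp n / (n : ℝ) ^ d
        ≤ ((2 * (k : ℝ) + 1) ^ d + 3 ^ d * (n : ℝ) ^ d * (P d p hp (far d k)).toReal) / (n : ℝ) ^ d :=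
          div_le_div_of_nonneg_right
            (h5.trans (add_le_add (le_refl _) (mul_le_mul_of_nonneg_right h6 h7))) (by positivity)
      _ = (2 * (k : ℝ) + 1) ^ d / (n : ℝ) ^ d + 3 ^ d * (P d p hp (far d k)).toReal := by
          field_simp
      _ < c := by linarith

end Pool.Agent.H74.IB
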