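import Pool.Agent.H74.IB.ConvC

/-!
# Sums of the two-point function over the fibres of coordinate projections
-/

set_option autoImplicit false

open MeasureTheory Filter Topology
open scoped ENNReal

namespace Pool.Agent.H74.IB

open Pool.Agent.Results.MP_54f242_pr.InfraredMean

variable {d j : ℕ}

/-- the wave vector of the coordinate plane -/
noncomputable def ext (ι : Fin j → Fin d) (κ : Fin j → ℝ) : Fin d → ℝ :=
  fun i => ∑ l : Fin j, if ι l = i then κ l else 0

theorem ext_apply (ι : Fin j → Fin d) (hι : Function.Injective ι) (κ : Fin j → ℝ) (l : Fin j) :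
    ext ι κ (ι l) = κ l := by
  unfold ext
  rw [Finset.sum_eq_single l]
  · simp
  · intro b _ hb
    rw [if_neg fun h => hb (hι h)]
  · intro h
    exact absurd (Finset.mem_univ l) h

theorem ext_off (ι : Fin j → Fin d) (κ : Fin j → ℝ) (i : Fin d) (hi : i ∉ Set.range ι) : ext ι κ i = 0 := by
  unfold ext
  refine Finset.sum_eq_zero fun l _ => ?_
  rw [if_neg fun h => hi ⟨l, h⟩]

theorem dot_ext (ι : Fin j → Fin d) (κ : Fin j → ℝ) (x : Fin d → ℤ) :
    dot (ext ι κ) x = dot κ (fun l => x (ι l)) := by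
  unfold dot ext
  simp_rw [Finset.sum_mul]
  rw [Finset.sum_comm]
  refine Finset.sum_congr rfl fun l _ => ?_
  rw [Finset.sum_eq_single (ι l)]
  · simp
  · intro b _ hb
    rw [if_neg fun h => hb h.symm, zero_mul]
  · intro h
    exact absurd (Finset.mem_univ _) h

theorem Dhat_ext (hj : 1 ≤ j) (hd : 1 ≤ d) (ι : Fin j → Fin d) (hι : Function.Injective ι) (κ : Fin j → ℝ) :
    1 - Dhat (ext ι κ) = (j : ℝ) / d * (1 - Dhat κ) := by
  have h : ∑ l : Fin j, (1 - Real.cos (κ l)) = ∑ i : Fin d, (1 - Real.cos (ext ι κ i)) := by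
    refine Fintype.sum_of_injective ι hι _ _ (fun i hi => ?_) (fun l => ?_)
    · rw [ext_off ι κ i hi, Real.cos_zero, sub_self]
    · rw [ext_apply ι hι]
  rw [one_sub_Dhat hd, one_sub_Dhat hj, h]
  have h1 : (j : ℝ) ≠ 0 := by positivity
  have h2 : (d : ℝ) ≠ 0 := by positivity
  field_simp

open Classical in
/-- the sums over the fibres of the projection -/
noncomputable def push (ι : Fin j → Fin d) (a : (Fin d → ℤ) → ℝ) (y : Fin j → ℤ) : ℝ :=
  ∑' x : Fin d → ℤ, if (fun l => x (ι l)) = y then a x else 0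

open Classical in
theorem push_sum2 (ι : Fin j → Fin d) {a : (Fin d → ℤ) → ℝ} (h : Good a) :
    Summable fun q : (Fin d → ℤ) × (Fin j → ℤ) => if (fun l => q.1 (ι l)) = q.2 then a q.1 else 0 := by
  rw [summable_prod_of_nonneg (fun q => by dsimp only; split_ifs; exacts [h.nn _, le_rfl])]
  refine ⟨fun x => ?_, ?_⟩
  · refine (hasSum_single (fun l => x (ι l)) fun y hy => ?_).summable
    exact if_neg fun h => hy h.symm
  · have h1 : ∀ x : Fin d → ℤ, ∑' y : Fin j → ℤ, (if (fun l => x (ι l)) = y then a x else 0) = a x := by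
      intro x
      rw [tsum_eq_single (fun l => x (ι l)) (fun y hy => if_neg fun h => hy h.symm), if_pos rfl]
    simp_rw [h1]
    exact h.sm

open Classical in
theorem good_push (ι : Fin j → Fin d) {a : (Fin d → ℤ) → ℝ} (h : Good a) :
    Good (push ι a) ∧ ∀ κ : Fin j → ℝ, cs (push ι a) κ = cs a (ext ι κ) := by
  have h2 := push_sum2 ι h
  have hnn : ∀ y, 0 ≤ push ι a y := fun y => tsum_nonneg fun x => by
    split_ifs
    exacts [h.nn _, le_rfl]
  have hsm : Summable (push ι a) := by
    have := h2.prod_symm.prod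
    exact this
  have hcs : ∀ κ : Fin j → ℝ, cs (push ι a) κ = cs a (ext ι κ) := by
    intro κ
    have h3 : Summable fun q : (Fin d → ℤ) × (Fin j → ℤ) =>
        (if (fun l => q.1 (ι l)) = q.2 then a q.1 else 0) * Real.cos (dot κ q.2) := by
      refine Summable.of_norm_bounded h2 fun q => ?_
      rw [norm_mul, Real.norm_eq_abs, Real.norm_eq_abs]
      have h4 : 0 ≤ (if (fun l => q.1 (ι l)) = q.2 then a q.1 else 0) := by
        split_ifs
        exacts [h.nn _, le_rfl]
      rw [abs_of_nonneg h4]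
      exact mul_le_of_le_one_right h4 (Real.abs_cos_le_one _)
    have h5 : cs (push ι a) κ = ∑' y : Fin j → ℤ, ∑' x : Fin d → ℤ,
        (if (fun l => x (ι l)) = y then a x else 0) * Real.cos (dot κ y) := by
      unfold cs push
      exact tsum_congr fun y => tsum_mul_right.symm
    have h6 : ∑' y : Fin j → ℤ, ∑' x : Fin d → ℤ,
        (if (fun l => x (ι l)) = y then a x else 0) * Real.cos (dot κ y) =
        ∑' x : Fin d → ℤ, ∑' y : Fin j → ℤ,
          (if (fun l => x (ι l)) = y then a x else 0) * Real.cos (dot κ y) :=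
      Summable.tsum_comm (f := fun (x : Fin d → ℤ) (y : Fin j → ℤ) =>
        (if (fun l => x (ι l)) = y then a x else 0) * Real.cos (dot κ y)) h3
    rw [h5, h6]
    unfold cs
    refine tsum_congr fun x => ?_
    rw [tsum_eq_single (fun l => x (ι l)) (fun y hy => by rw [if_neg fun h => hy h.symm, zero_mul]),
      if_pos rfl, dot_ext]
  refine ⟨⟨hnn, hsm, fun y => ?_, fun κ => ?_⟩, hcs⟩
  · unfold push
    rw [← (Equiv.neg (Fin d → ℤ)).tsum_eq]
    refine tsum_congr fun x => ?_
    simp only [Equiv.neg_apply, Pi.neg_apply]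
    have h7 : ((fun l => -x (ι l)) = -y) ↔ ((fun l => x (ι l)) = y) := by
      constructor
      · intro h8
        funext l
        have := congrFun h8 l
        simpa using this
      · intro h8
        rw [← h8]
        rfl
    simp only [h7, h.ev]
  · rw [hcs]
    exact h.ft _

open Classical in
/-- the box sums of the projected function -/
theorem SA_push (ι : Fin j → Fin d) {a : (Fin d → ℤ) → ℝ} (h : Good a) (n : ℕ) :
    SA (push ι a) n = ∑' x : Fin d → ℤ, if ∀ l, |x (ι l)| ≤ (n : ℤ) then a x else 0 := by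
  unfold SA push
  have hs : ∀ y : Fin j → ℤ, Summable fun x : Fin d → ℤ => if (fun l => x (ι l)) = y then a x else 0 := by
    intro y
    refine Summable.of_nonneg_of_le (fun x => ?_) (fun x => ?_) h.sm
    · split_ifs
      exacts [h.nn _, le_rfl]
    · split_ifs
      exacts [le_rfl, h.nn _]
  rw [← Summable.tsum_finsetSum (fun y _ => hs y)]
  refine tsum_congr fun x => ?_
  rw [Finset.sum_ite_eq]
  refine if_congr ?_ rfl rfl
  rw [Fintype.mem_piFinset]
  refine forall_congr' fun l => ?_
  rw [Finset.mem_Icc, abs_le]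

open Classical in
/-- the column sums with values in `[0, ∞]` -/
noncomputable def col (d : ℕ) (p : NNReal) (hp : p ≤ 1) (ι : Fin j → Fin d) (m n : ℕ) : ℝ≥0∞ :=
  ∑' x : Fin d → ℤ, if ∀ l, |x (ι l)| ≤ (n : ℤ) then ep d p hp m x else 0

open Classical in
theorem col_eq (p : NNReal) (hp : p ≤ 1) (hs : Summable (tau d p hp)) (ι : Fin j → Fin d) (m n : ℕ) :
    col d p hp ι m n = ENNReal.ofReal (SA (push ι (rp d p hp m)) n) := by
  rw [SA_push ι (good_rp p hp hs m), ENNReal.ofReal_tsum_of_nonneg]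
  · unfold col
    refine tsum_congr fun x => ?_
    split_ifs
    · unfold rp
      rw [ENNReal.ofReal_toReal (ep_ne_top p hp hs m x)]
    · rw [ENNReal.ofReal_zero]
  · intro x
    split_ifs
    exacts [rp_nonneg p hp m x, le_rfl]
  · refine Summable.of_nonneg_of_le (fun x => ?_) (fun x => ?_) (rp_summable p hp hs m)
    · split_ifs
      exacts [rp_nonneg p hp m x, le_rfl]
    · split_ifs
      exacts [le_rfl, rp_nonneg p hp m x]

open Classical in
theorem col_at_pc (ι : Fin j → Fin d) (m n : ℕ) (B : ℝ≥0∞) :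
    (∀ (p : NNReal) (hp : p ≤ 1), Summable (tau d p hp) → col d p hp ι m n ≤ B) ↔
      col d (sSup (Sub d)) (sSup_Sub_le d) ι m n ≤ B := by
  constructor
  · intro h
    obtain ⟨q, h1, h2, h3, h4⟩ := exists_seq d
    have h5 := ep_iSup (d := d) (sSup (Sub d)) (sSup_Sub_le d) q (fun n => (h2 n).choose) h1 h3 h4 m
    unfold col
    calc ∑' x : Fin d → ℤ, (if ∀ l, |x (ι l)| ≤ (n : ℤ) then ep d (sSup (Sub d)) (sSup_Sub_le d) m x else 0)
        ≤ ∑' x : Fin d → ℤ, ⨆ i, (if ∀ l, |x (ι l)| ≤ (n : ℤ) then ep d (q i) (h2 i).choose m x else 0) := by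
          refine ENNReal.tsum_le_tsum fun x => ?_
          split_ifs
          · exact h5 x
          · exact zero_le
      _ ≤ ⨆ i, ∑' x : Fin d → ℤ, (if ∀ l, |x (ι l)| ≤ (n : ℤ) then ep d (q i) (h2 i).choose m x else 0) := by
          refine tsum_iSup_le _ fun i k hik x => ?_
          dsimp only
          split_ifs
          · exact ep_mono _ _ _ _ (h1 hik) m x
          · exact le_rfl
      _ ≤ B := iSup_le fun i => h (q i) (h2 i).choose (h2 i).choose_spec
  · intro h p hp hs
    refine le_trans ?_ h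
    refine ENNReal.tsum_le_tsum fun x => ?_
    split_ifs
    · exact ep_mono p _ hp _ (le_csSup (Sub_bdd d) ⟨hp, hs⟩) m x
    · exact le_rfl

open Classical in
theorem col_mono (p : NNReal) (hp : p ≤ 1) {i : ℕ} (ι : Fin j → Fin d) (ι' : Fin i → Fin d)
    (h : Set.range ι ⊆ Set.range ι') (m n : ℕ) : col d p hp ι' m n ≤ col d p hp ι m n := by
  refine ENNReal.tsum_le_tsum fun x => ?_
  by_cases h1 : ∀ l, |x (ι' l)| ≤ (n : ℤ)
  · have h2 : ∀ l, |x (ι l)| ≤ (n : ℤ) := by
      intro l
      obtain ⟨l', hl'⟩ := h ⟨l, rfl⟩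
      rw [← hl']
      exact h1 l'
    rw [if_pos h1, if_pos h2]
  · rw [if_neg h1]
    exact zero_le

end Pool.Agent.H74.IB
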