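import Pool.Agent.H74.IB.PlaneA

/-!
# The bound in the mean on the coordinate axes
-/

set_option autoImplicit false

open MeasureTheory Filter Topology
open scoped ENNReal

namespace Pool.Agent.H74.IB

open Pool.Agent.Results.MP_54f242_pr.InfraredMean

/-- the point `n` of the line -/
def pt (n : ℕ) : Fin 1 → ℤ := fun _ => (n : ℤ)

theorem dot_pt (κ : Fin 1 → ℝ) (n : ℕ) : dot κ (pt n) = κ 0 * n := by
  unfold dot pt
  simp

theorem Dhat_one (κ : Fin 1 → ℝ) : Dhat κ = Real.cos (κ 0) := by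
  unfold Dhat
  simp

theorem diff_eq {a : (Fin 1 → ℤ) → ℝ} (h : Good a) (n : ℕ) :
    2 * Real.pi * (a 0 - a (pt n)) = ∫ κ in cube 1, cs a κ * (1 - Real.cos (κ 0 * n)) := by
  have h1 := inversionA h (pt n)
  have h2 := int_csA h
  simp only [dot_pt] at h1
  have hi : Integrable (fun κ : Fin 1 → ℝ => cs a κ * Real.cos (κ 0 * n)) (volume.restrict (cube 1)) :=
    integrable_of_cont (h.cont.mul (by fun_prop))
  have h3 : ∀ κ : Fin 1 → ℝ, cs a κ * (1 - Real.cos (κ 0 * n)) = cs a κ - cs a κ * Real.cos (κ 0 * n) := by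
    intro κ; ring
  simp_rw [h3]
  rw [integral_sub h.int hi, h1, h2]
  ring

theorem diff_nonneg {a : (Fin 1 → ℤ) → ℝ} (h : Good a) (n : ℕ) : 0 ≤ a 0 - a (pt n) := by
  have h1 := diff_eq h n
  have h2 : 0 ≤ ∫ κ in cube 1, cs a κ * (1 - Real.cos (κ 0 * n)) :=
    integral_nonneg fun κ => mul_nonneg (h.ft κ) (by have := Real.cos_le_one (κ 0 * n); linarith)
  rw [← h1] at h2
  exact nonneg_of_mul_nonneg_right h2 (by have := Real.pi_pos; positivity)

theorem abs_le_pi (κ : Fin 1 → ℝ) (hκ : κ ∈ cube 1) : |κ 0| ≤ Real.pi := by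
  have := Set.mem_univ_pi.1 hκ 0
  exact abs_le.2 ⟨this.1.le, this.2⟩

theorem sq_le_cos (t : ℝ) (ht : |t| ≤ Real.pi) : t ^ 2 ≤ Real.pi ^ 2 / 2 * (1 - Real.cos t) := by
  have h := Real.cos_le_one_sub_mul_cos_sq ht
  have hpi := Real.pi_pos
  have h1 : 2 / Real.pi ^ 2 * t ^ 2 ≤ 1 - Real.cos t := by linarith
  have h2 := mul_le_mul_of_nonneg_left h1 (by positivity : 0 ≤ Real.pi ^ 2 / 2)
  calc t ^ 2 = Real.pi ^ 2 / 2 * (2 / Real.pi ^ 2 * t ^ 2) := by field_simp
    _ ≤ _ := h2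

theorem mem_cell_one (κ : Fin 1 → ℝ) (r : ℝ) : κ ∈ cell (0 : Fin 1 → ℝ) r ↔ |κ 0| ≤ r := by
  constructor
  · intro h
    simpa [cell] using h 0
  · intro h i
    have : i = 0 := Subsingleton.elim _ _
    rw [this]
    simpa using h

/-- the mass away from the origin -/
theorem outer {a : (Fin 1 → ℤ) → ℝ} (h : Good a) (A : ℝ) (hA0 : 0 ≤ A)
    (hA : ∀ r : ℝ, 0 < r → r ≤ Real.pi →
      ∫ κ in cube 1 ∩ cell (0 : Fin 1 → ℝ) r, cs a κ * (1 - Dhat κ) ≤ A * r) (r : ℝ) (hr : 0 < r) :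
    ∫ κ in cube 1 \ cell (0 : Fin 1 → ℝ) r, cs a κ ≤ 2 * Real.pi ^ 2 * A / r := by
  have hpi := Real.pi_pos
  have hgi : Integrable (fun κ : Fin 1 → ℝ => cs a κ * (1 - Dhat κ)) (volume.restrict (cube 1)) := by
    refine integrable_of_cont (h.cont.mul ?_)
    unfold Dhat
    fun_prop
  have hA' : ∀ r : ℝ, 0 < r → ∫ κ in cube 1 ∩ cell (0 : Fin 1 → ℝ) r, cs a κ * (1 - Dhat κ) ≤ A * r := by
    intro r hr
    rcases le_or_gt r Real.pi with h1 | h1
    · exact hA r hr h1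
    · have h2 : cube 1 ∩ cell (0 : Fin 1 → ℝ) r = cube 1 ∩ cell (0 : Fin 1 → ℝ) Real.pi := by
        rw [Set.inter_eq_left.2 (cube_sub_cell r h1.le), Set.inter_eq_left.2 (cube_sub_cell Real.pi le_rfl)]
      rw [h2]
      exact (hA Real.pi hpi le_rfl).trans (mul_le_mul_of_nonneg_left h1.le hA0)
  set F : ℝ → ℝ := fun ρ => ∫ κ in cube 1 \ cell (0 : Fin 1 → ℝ) ρ, cs a κ with hF
  have hstep : ∀ ρ : ℝ, 0 < ρ → F ρ ≤ F (2 * ρ) + Real.pi ^ 2 * A / ρ := by
    intro ρ hρ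
    have hpt : ∀ κ ∈ cube 1 \ cell (0 : Fin 1 → ℝ) ρ, cs a κ ≤
        (cell (0 : Fin 1 → ℝ) (2 * ρ))ᶜ.indicator (cs a) κ + Real.pi ^ 2 / (2 * ρ ^ 2) *
          (cell (0 : Fin 1 → ℝ) (2 * ρ)).indicator (fun κ => cs a κ * (1 - Dhat κ)) κ := by
      intro κ hκ
      by_cases h2 : κ ∈ cell (0 : Fin 1 → ℝ) (2 * ρ)
      · rw [Set.indicator_of_notMem (by simpa using h2), Set.indicator_of_mem h2, zero_add, Dhat_one]
        have h3 : ρ < |κ 0| := by
          by_contra hcon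
          exact hκ.2 ((mem_cell_one κ ρ).2 (not_lt.1 hcon))
        have h4 := sq_le_cos (κ 0) (abs_le_pi κ hκ.1)
        have h5 : ρ ^ 2 ≤ (κ 0) ^ 2 := by
          rw [← sq_abs (κ 0)]
          exact pow_le_pow_left₀ hρ.le h3.le 2
        have h6 : 1 ≤ Real.pi ^ 2 / (2 * ρ ^ 2) * (1 - Real.cos (κ 0)) := by
          rw [div_mul_eq_mul_div, le_div_iff₀ (by positivity)]
          linarith
        calc cs a κ = cs a κ * 1 := (mul_one _).symm
          _ ≤ cs a κ * (Real.pi ^ 2 / (2 * ρ ^ 2) * (1 - Real.cos (κ 0))) :=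
              mul_le_mul_of_nonneg_left h6 (h.ft κ)
          _ = _ := by ring
      · rw [Set.indicator_of_mem (by simpa using h2), Set.indicator_of_notMem h2, mul_zero, add_zero]
    have hm : Measure.restrict volume (cube 1 \ cell (0 : Fin 1 → ℝ) ρ) ≤ volume.restrict (cube 1) :=
      Measure.restrict_mono Set.diff_subset le_rfl
    have hi1 : Integrable (fun κ => (cell (0 : Fin 1 → ℝ) (2 * ρ))ᶜ.indicator (cs a) κ)
        (volume.restrict (cube 1 \ cell (0 : Fin 1 → ℝ) ρ)) :=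
      (h.int.mono_measure hm).indicator (cell_meas _ _).compl
    have hi2 : Integrable (fun κ => Real.pi ^ 2 / (2 * ρ ^ 2) *
        (cell (0 : Fin 1 → ℝ) (2 * ρ)).indicator (fun κ => cs a κ * (1 - Dhat κ)) κ)
        (volume.restrict (cube 1 \ cell (0 : Fin 1 → ℝ) ρ)) :=
      ((hgi.mono_measure hm).indicator (cell_meas _ _)).const_mul _
    have h7 : F ρ ≤ (∫ κ in cube 1 \ cell (0 : Fin 1 → ℝ) (2 * ρ), cs a κ) +
        Real.pi ^ 2 / (2 * ρ ^ 2) *
          ∫ κ in cell (0 : Fin 1 → ℝ) (2 * ρ) ∩ (cube 1 \ cell (0 : Fin 1 → ℝ) ρ), cs a κ * (1 - Dhat κ) := by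
      refine (setIntegral_mono_on (h.int.mono_measure hm) (hi1.add hi2)
        (cube_meas.diff (cell_meas _ _)) hpt).trans (le_of_eq ?_)
      rw [integral_add' hi1 hi2, integral_const_mul, integral_indicator (cell_meas _ _).compl,
        integral_indicator (cell_meas _ _), Measure.restrict_restrict (cell_meas _ _).compl,
        Measure.restrict_restrict (cell_meas _ _)]
      congr 3
      ext κ
      simp only [Set.mem_inter_iff, Set.mem_compl_iff, Set.mem_diff, mem_cell_one]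
      constructor
      · rintro ⟨h8, h9, _⟩
        exact ⟨h9, h8⟩
      · rintro ⟨h8, h9⟩
        exact ⟨h9, h8, fun h10 => h9 (h10.trans (by linarith))⟩
    have h8 : ∫ κ in cell (0 : Fin 1 → ℝ) (2 * ρ) ∩ (cube 1 \ cell (0 : Fin 1 → ℝ) ρ), cs a κ * (1 - Dhat κ) ≤
        A * (2 * ρ) := by
      refine le_trans ?_ (hA' (2 * ρ) (by positivity))
      refine setIntegral_mono_set (hgi.mono_measure (Measure.restrict_mono Set.inter_subset_left le_rfl))
        (Eventually.of_forall fun κ => mul_nonneg (h.ft κ) (one_sub_Dhat_nonneg κ))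
        (Eventually.of_forall fun κ hκ => ⟨hκ.2.1, hκ.1⟩)
    refine h7.trans ?_
    have h9 := mul_le_mul_of_nonneg_left h8 (by positivity : 0 ≤ Real.pi ^ 2 / (2 * ρ ^ 2))
    have h10 : Real.pi ^ 2 / (2 * ρ ^ 2) * (A * (2 * ρ)) = Real.pi ^ 2 * A / ρ := by
      field_simp
    rw [h10] at h9
    linarith
  have hit : ∀ J : ℕ, F r ≤ F (2 ^ J * r) + 2 * Real.pi ^ 2 * A / r * (1 - (1 / 2) ^ J) := by
    intro J
    induction J with
    | zero => simp
    | succ J ih =>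
      have h1 := hstep (2 ^ J * r) (by positivity)
      have h2 : 2 * (2 ^ J * r) = 2 ^ (J + 1) * r := by rw [pow_succ]; ring
      rw [h2] at h1
      have h3 : Real.pi ^ 2 * A / (2 ^ J * r) = Real.pi ^ 2 * A / r * (1 / 2) ^ J := by
        rw [one_div, inv_pow]
        field_simp
      rw [h3] at h1
      have h4 : 2 * Real.pi ^ 2 * A / r * (1 - (1 / 2) ^ (J + 1)) =
          2 * Real.pi ^ 2 * A / r * (1 - (1 / 2) ^ J) + Real.pi ^ 2 * A / r * (1 / 2) ^ J := by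
        rw [pow_succ]; ring
      rw [h4]
      linarith
  obtain ⟨J, hJ⟩ : ∃ J : ℕ, Real.pi ≤ 2 ^ J * r := by
    obtain ⟨J, hJ⟩ := pow_unbounded_of_one_lt (Real.pi / r) (one_lt_two : (1 : ℝ) < 2)
    refine ⟨J, ?_⟩
    rw [div_lt_iff₀ hr] at hJ
    exact hJ.le
  have h0 : F (2 ^ J * r) = 0 := by
    have : cube 1 \ cell (0 : Fin 1 → ℝ) (2 ^ J * r) = ∅ := Set.diff_eq_empty.2 (cube_sub_cell _ hJ)
    simp only [hF]
    rw [this]
    simp
  have h1 := hit J
  rw [h0, zero_add] at h1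
  refine h1.trans ?_
  have h2 : (0 : ℝ) ≤ (1 / 2) ^ J := by positivity
  have h3 : 0 ≤ 2 * Real.pi ^ 2 * A / r := by positivity
  nlinarith

theorem axis_forward {a : (Fin 1 → ℤ) → ℝ} (h : Good a) (A : ℝ)
    (hA : ∀ r : ℝ, 0 < r → r ≤ Real.pi →
      ∫ κ in cube 1 ∩ cell (0 : Fin 1 → ℝ) r, cs a κ * (1 - Dhat κ) ≤ A * r) (n : ℕ) (hn : 1 ≤ n) :
    a 0 - a (pt n) ≤ 3 * Real.pi * A * n := by
  have hpi := Real.pi_pos
  have hn0 : (0 : ℝ) < n := by exact_mod_cast hn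
  have hn1 : (1 : ℝ) ≤ n := by exact_mod_cast hn
  have hA0 : 0 ≤ A := by
    have h1 := hA Real.pi hpi le_rfl
    have h2 : 0 ≤ ∫ κ in cube 1 ∩ cell (0 : Fin 1 → ℝ) Real.pi, cs a κ * (1 - Dhat κ) :=
      integral_nonneg fun κ => mul_nonneg (h.ft κ) (one_sub_Dhat_nonneg κ)
    exact nonneg_of_mul_nonneg_left (h2.trans h1) hpi
  have hgi : Integrable (fun κ : Fin 1 → ℝ => cs a κ * (1 - Dhat κ)) (volume.restrict (cube 1)) := by
    refine integrable_of_cont (h.cont.mul ?_)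
    unfold Dhat
    fun_prop
  have hni : Integrable (fun κ : Fin 1 → ℝ => cs a κ * (1 - Real.cos (κ 0 * n))) (volume.restrict (cube 1)) :=
    integrable_of_cont (h.cont.mul (by fun_prop))
  have h1 : ∫ κ in cube 1 ∩ cell (0 : Fin 1 → ℝ) (1 / n), cs a κ * (1 - Real.cos (κ 0 * n)) ≤
      Real.pi ^ 2 * A * n / 4 := by
    have h2 : ∫ κ in cube 1 ∩ cell (0 : Fin 1 → ℝ) (1 / n), cs a κ * (1 - Real.cos (κ 0 * n)) ≤
        ∫ κ in cube 1 ∩ cell (0 : Fin 1 → ℝ) (1 / n), Real.pi ^ 2 * (n : ℝ) ^ 2 / 4 * (cs a κ * (1 - Dhat κ)) := by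
      refine setIntegral_mono_on (hni.mono_measure (Measure.restrict_mono Set.inter_subset_left le_rfl))
        ((hgi.mono_measure (Measure.restrict_mono Set.inter_subset_left le_rfl)).const_mul _)
        (cube_meas.inter (cell_meas _ _)) (fun κ hκ => ?_)
      have h3 := sq_le_cos (κ 0) (abs_le_pi κ hκ.1)
      have h4 := Real.one_sub_sq_div_two_le_cos (x := κ 0 * n)
      rw [Dhat_one]
      have h5 : 1 - Real.cos (κ 0 * n) ≤ Real.pi ^ 2 * (n : ℝ) ^ 2 / 4 * (1 - Real.cos (κ 0)) := by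
        have h6 := mul_le_mul_of_nonneg_left h3 (by positivity : 0 ≤ (n : ℝ) ^ 2 / 2)
        have h7 : (κ 0 * n) ^ 2 / 2 = (n : ℝ) ^ 2 / 2 * (κ 0) ^ 2 := by ring
        linarith
      calc cs a κ * (1 - Real.cos (κ 0 * n)) ≤
            cs a κ * (Real.pi ^ 2 * (n : ℝ) ^ 2 / 4 * (1 - Real.cos (κ 0))) :=
            mul_le_mul_of_nonneg_left h5 (h.ft κ)
        _ = _ := by ring
    refine h2.trans ?_
    rw [integral_const_mul]
    have h8 := hA (1 / n) (by positivity) (by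
      rw [div_le_iff₀ hn0]
      have := Real.pi_gt_three
      nlinarith)
    calc Real.pi ^ 2 * (n : ℝ) ^ 2 / 4 *
          ∫ κ in cube 1 ∩ cell (0 : Fin 1 → ℝ) (1 / n), cs a κ * (1 - Dhat κ)
        ≤ Real.pi ^ 2 * (n : ℝ) ^ 2 / 4 * (A * (1 / n)) := mul_le_mul_of_nonneg_left h8 (by positivity)
      _ = Real.pi ^ 2 * A * n / 4 := by field_simp
  have h2 : ∫ κ in cube 1 \ cell (0 : Fin 1 → ℝ) (1 / n), cs a κ * (1 - Real.cos (κ 0 * n)) ≤
      4 * Real.pi ^ 2 * A * n := by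
    have h3 := outer h A hA0 hA (1 / n) (by positivity)
    have h4 : ∫ κ in cube 1 \ cell (0 : Fin 1 → ℝ) (1 / n), cs a κ * (1 - Real.cos (κ 0 * n)) ≤
        2 * ∫ κ in cube 1 \ cell (0 : Fin 1 → ℝ) (1 / n), cs a κ := by
      rw [← integral_const_mul]
      refine integral_mono (hni.mono_measure (Measure.restrict_mono Set.diff_subset le_rfl))
        ((h.int.mono_measure (Measure.restrict_mono Set.diff_subset le_rfl)).const_mul _) fun κ => ?_
      have h5 : 1 - Real.cos (κ 0 * n) ≤ 2 := by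
        have := Real.neg_one_le_cos (κ 0 * n); linarith
      change cs a κ * (1 - Real.cos (κ 0 * n)) ≤ 2 * cs a κ
      rw [mul_comm]
      exact mul_le_mul_of_nonneg_right h5 (h.ft κ)
    refine h4.trans ((mul_le_mul_of_nonneg_left h3 zero_le_two).trans (le_of_eq ?_))
    field_simp
    ring
  have h3 : ∫ κ in cube 1, cs a κ * (1 - Real.cos (κ 0 * n)) =
      (∫ κ in cube 1 ∩ cell (0 : Fin 1 → ℝ) (1 / n), cs a κ * (1 - Real.cos (κ 0 * n))) +
      ∫ κ in cube 1 \ cell (0 : Fin 1 → ℝ) (1 / n), cs a κ * (1 - Real.cos (κ 0 * n)) :=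
    (integral_inter_add_diff (cell_meas _ _) hni).symm
  have h4 := diff_eq h n
  rw [h3] at h4
  have h5 : 2 * Real.pi * (a 0 - a (pt n)) ≤ 2 * Real.pi * (3 * Real.pi * A * n) := by
    have h6 : 0 ≤ Real.pi ^ 2 * A * n := by positivity
    rw [h4]
    linarith
  exact le_of_mul_le_mul_left h5 (by positivity)

theorem axis_backward {a : (Fin 1 → ℤ) → ℝ} (h : Good a) (B : ℝ)
    (hB : ∀ n : ℕ, 1 ≤ n → a 0 - a (pt n) ≤ B * n) (r : ℝ) (hr : 0 < r) :
    ∫ κ in cube 1 ∩ cell (0 : Fin 1 → ℝ) r, cs a κ * (1 - Dhat κ) ≤ Real.pi ^ 3 * B * r := by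
  have hpi := Real.pi_pos
  have hpi3 := Real.pi_gt_three
  have hB0 : 0 ≤ B := by
    have := (diff_nonneg h 1).trans (hB 1 le_rfl)
    simpa using this
  have hgi : Integrable (fun κ : Fin 1 → ℝ => cs a κ * (1 - Dhat κ)) (volume.restrict (cube 1)) := by
    refine integrable_of_cont (h.cont.mul ?_)
    unfold Dhat
    fun_prop
  rcases le_or_gt r 1 with h1 | h1
  · set n : ℕ := ⌊1 / r⌋₊ with hn
    have hx1 : 1 ≤ 1 / r := by rw [le_div_iff₀ hr]; linarith
    have hn1 : 1 ≤ n := Nat.one_le_iff_ne_zero.2 (by rw [hn]; exact (Nat.floor_pos.2 hx1).ne')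
    have hn0 : (0 : ℝ) < n := by exact_mod_cast hn1
    have hnx : (n : ℝ) ≤ 1 / r := Nat.floor_le (by positivity)
    have hnr : (n : ℝ) * r ≤ 1 := by rwa [le_div_iff₀ hr] at hnx
    have hn2 : 1 / (n : ℝ) ≤ 2 * r := by
      have h2 : 1 / r < n + 1 := Nat.lt_floor_add_one _
      have h3 : (1 : ℝ) ≤ n := by exact_mod_cast hn1
      rw [div_lt_iff₀ hr] at h2
      rw [div_le_iff₀ hn0]
      nlinarith
    have hni : Integrable (fun κ : Fin 1 → ℝ => cs a κ * (1 - Real.cos (κ 0 * n)))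
        (volume.restrict (cube 1)) := integrable_of_cont (h.cont.mul (by fun_prop))
    have h2 : ∫ κ in cube 1 ∩ cell (0 : Fin 1 → ℝ) r, cs a κ * (1 - Dhat κ) ≤
        Real.pi ^ 2 / (4 * (n : ℝ) ^ 2) * ∫ κ in cube 1, cs a κ * (1 - Real.cos (κ 0 * n)) := by
      rw [← integral_const_mul]
      calc ∫ κ in cube 1 ∩ cell (0 : Fin 1 → ℝ) r, cs a κ * (1 - Dhat κ)
          ≤ ∫ κ in cube 1 ∩ cell (0 : Fin 1 → ℝ) r,
              Real.pi ^ 2 / (4 * (n : ℝ) ^ 2) * (cs a κ * (1 - Real.cos (κ 0 * n))) := by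
            refine setIntegral_mono_on (hgi.mono_measure (Measure.restrict_mono Set.inter_subset_left le_rfl))
              ((hni.mono_measure (Measure.restrict_mono Set.inter_subset_left le_rfl)).const_mul _)
              (cube_meas.inter (cell_meas _ _)) (fun κ hκ => ?_)
            rw [Dhat_one]
            have h3 := Real.one_sub_sq_div_two_le_cos (x := κ 0)
            have h4 : |κ 0 * n| ≤ Real.pi := by
              rw [abs_mul, abs_of_pos hn0]
              have h5 := (mem_cell_one κ r).1 hκ.2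
              have h6 : |κ 0| * n ≤ r * n := mul_le_mul_of_nonneg_right h5 hn0.le
              linarith [mul_comm (n : ℝ) r]
            have h5 := sq_le_cos (κ 0 * n) h4
            have h6 : 1 - Real.cos (κ 0) ≤ Real.pi ^ 2 / (4 * (n : ℝ) ^ 2) * (1 - Real.cos (κ 0 * n)) := by
              rw [div_mul_eq_mul_div, le_div_iff₀ (by positivity)]
              have h7 : (1 - Real.cos (κ 0)) * (4 * (n : ℝ) ^ 2) ≤ (κ 0) ^ 2 / 2 * (4 * (n : ℝ) ^ 2) :=
                mul_le_mul_of_nonneg_right (by linarith) (by positivity)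
              have h8 : (κ 0) ^ 2 / 2 * (4 * (n : ℝ) ^ 2) = 2 * (κ 0 * n) ^ 2 := by ring
              linarith
            calc cs a κ * (1 - Real.cos (κ 0)) ≤
                  cs a κ * (Real.pi ^ 2 / (4 * (n : ℝ) ^ 2) * (1 - Real.cos (κ 0 * n))) :=
                  mul_le_mul_of_nonneg_left h6 (h.ft κ)
              _ = _ := by ring
        _ ≤ ∫ κ in cube 1, Real.pi ^ 2 / (4 * (n : ℝ) ^ 2) * (cs a κ * (1 - Real.cos (κ 0 * n))) := by
            refine setIntegral_mono_set (hni.const_mul _) (Eventually.of_forall fun κ => ?_)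
              (Eventually.of_forall Set.inter_subset_left)
            have := Real.cos_le_one (κ 0 * n)
            exact mul_nonneg (by positivity) (mul_nonneg (h.ft κ) (by linarith))
    rw [← diff_eq h n] at h2
    refine h2.trans ?_
    have h3 := hB n hn1
    calc Real.pi ^ 2 / (4 * (n : ℝ) ^ 2) * (2 * Real.pi * (a 0 - a (pt n)))
        ≤ Real.pi ^ 2 / (4 * (n : ℝ) ^ 2) * (2 * Real.pi * (B * n)) := by gcongr
      _ = Real.pi ^ 3 / 2 * B * (1 / n) := by field_simp; ring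
      _ ≤ Real.pi ^ 3 / 2 * B * (2 * r) := mul_le_mul_of_nonneg_left hn2 (by positivity)
      _ = _ := by ring
  · have h2 : ∫ κ in cube 1 ∩ cell (0 : Fin 1 → ℝ) r, cs a κ * (1 - Dhat κ) ≤
        ∫ κ in cube 1, cs a κ * (1 - Dhat κ) :=
      setIntegral_mono_set hgi (Eventually.of_forall fun κ => mul_nonneg (h.ft κ) (one_sub_Dhat_nonneg κ))
        (Eventually.of_forall Set.inter_subset_left)
    have h3 := diff_eq h 1
    have h4 : ∀ κ : Fin 1 → ℝ, cs a κ * (1 - Real.cos (κ 0 * ((1 : ℕ) : ℝ))) = cs a κ * (1 - Dhat κ) := by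
      intro κ
      rw [Dhat_one]
      simp
    simp_rw [h4] at h3
    rw [← h3] at h2
    refine h2.trans ?_
    have h5 := hB 1 le_rfl
    have h6 : 2 * Real.pi * (a 0 - a (pt 1)) ≤ 2 * Real.pi * B := by
      refine mul_le_mul_of_nonneg_left ?_ (by positivity)
      simpa using h5
    refine h6.trans ?_
    have h7 : 2 * Real.pi ≤ Real.pi ^ 3 := by nlinarith [sq_nonneg Real.pi]
    calc 2 * Real.pi * B ≤ Real.pi ^ 3 * B := mul_le_mul_of_nonneg_right h7 hB0
      _ = Real.pi ^ 3 * B * 1 := (mul_one _).symm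
      _ ≤ _ := mul_le_mul_of_nonneg_left h1.le (by positivity)

end Pool.Agent.H74.IB
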