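import Pool.Agent.H74.IB.Wave

/-!
# Spreading flows
-/

set_option autoImplicit false

open MeasureTheory Filter Topology

namespace Pool.Agent.H74.IB

open Pool.Agent.Results.MP_54f242_pr.InfraredMean

variable {d : ℕ}

theorem quad_nonneg {ι : Type*} (p : NNReal) (hp : p ≤ 1) (I : Finset ι) (a : ι → Fin d → ℤ) (g : ι → ℝ) :
    0 ≤ quad d p hp I a g := by
  classical
  rw [← integral_components]
  exact integral_nonneg fun ω => finsum_nonneg fun c => sq_nonneg _

/-- the form of a function on a finite set of vertices -/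
noncomputable def vf (d : ℕ) (p : NNReal) (hp : p ≤ 1) (L : Finset (Fin d → ℤ)) (φ : (Fin d → ℤ) → ℝ) : ℝ :=
  ∑ x ∈ L, ∑ y ∈ L, φ x * φ y * tau d p hp (y - x)

theorem vf_nonneg (p : NNReal) (hp : p ≤ 1) (L : Finset (Fin d → ℤ)) (φ : (Fin d → ℤ) → ℝ) :
    0 ≤ vf d p hp L φ := quad_nonneg p hp L (fun x => x) φ

theorem vf_four (p : NNReal) (hp : p ≤ 1) (L : Finset (Fin d → ℤ)) (φ ψ : (Fin d → ℤ) → ℝ) :
    vf d p hp L (fun x => φ x + ψ x) ≤ 4 * vf d p hp L φ + 4 / 3 * vf d p hp L ψ := by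
  have h := vf_nonneg p hp L (fun x => 3 * φ x - ψ x)
  have e : (1 / 3) * vf d p hp L (fun x => 3 * φ x - ψ x) =
      4 * vf d p hp L φ + 4 / 3 * vf d p hp L ψ - vf d p hp L (fun x => φ x + ψ x) := by
    unfold vf
    simp only [Finset.mul_sum, ← Finset.sum_add_distrib, ← Finset.sum_sub_distrib]
    refine Finset.sum_congr rfl fun x _ => Finset.sum_congr rfl fun y _ => ?_
    ring
  linarith

theorem vf_two (p : NNReal) (hp : p ≤ 1) (L : Finset (Fin d → ℤ)) (φ ψ : (Fin d → ℤ) → ℝ) :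
    vf d p hp L (fun x => φ x + ψ x) ≤ 2 * vf d p hp L φ + 2 * vf d p hp L ψ := by
  have h := vf_nonneg p hp L (fun x => φ x - ψ x)
  have e : vf d p hp L (fun x => φ x - ψ x) =
      2 * vf d p hp L φ + 2 * vf d p hp L ψ - vf d p hp L (fun x => φ x + ψ x) := by
    unfold vf
    simp only [Finset.mul_sum, ← Finset.sum_add_distrib, ← Finset.sum_sub_distrib]
    refine Finset.sum_congr rfl fun x _ => Finset.sum_congr rfl fun y _ => ?_
    ring
  linarith

/-- the uniform weights on `[0, m)` -/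
noncomputable def w (m : ℕ) (t : ℤ) : ℝ := if 0 ≤ t ∧ t < (m : ℤ) then 1 / (m : ℝ) else 0

/-- the flow from the uniform weights on `[0, m)` to those on `[0, 2 m)` -/
noncomputable def fl (m : ℕ) (t : ℤ) : ℝ :=
  if 0 ≤ t ∧ t < (m : ℤ) then ((t : ℝ) + 1) / (2 * m) else
    if (m : ℤ) ≤ t ∧ t < 2 * (m : ℤ) then 1 - ((t : ℝ) + 1) / (2 * m) else 0

theorem fl_sub (m : ℕ) (hm : 1 ≤ m) (t : ℤ) : fl m t - fl m (t - 1) = w m t - w (2 * m) t := by
  have hm0 : (m : ℝ) ≠ 0 := by positivity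
  unfold fl w
  push_cast
  rcases lt_or_ge t 0 with h | h
  · rw [if_neg (by omega), if_neg (by omega), if_neg (by omega), if_neg (by omega), if_neg (by omega),
      if_neg (by omega)]
  rcases lt_or_ge t (m : ℤ) with h2 | h2
  · rw [if_pos (show 0 ≤ t ∧ t < (m : ℤ) by omega), if_pos (show 0 ≤ t ∧ t < (m : ℤ) by omega),
      if_pos (show 0 ≤ t ∧ t < 2 * (m : ℤ) by omega)]
    rcases h.eq_or_lt with h3 | h3
    · rw [← h3, if_neg (by omega), if_neg (by omega)]
      push_cast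
      field_simp
      ring
    · rw [if_pos (by omega)]
      field_simp
      ring
  rcases lt_or_ge t (2 * (m : ℤ)) with h3 | h3
  · rw [if_neg (show ¬ (0 ≤ t ∧ t < (m : ℤ)) by omega), if_pos (show (m : ℤ) ≤ t ∧ t < 2 * (m : ℤ) by omega),
      if_neg (show ¬ (0 ≤ t ∧ t < (m : ℤ)) by omega), if_pos (show 0 ≤ t ∧ t < 2 * (m : ℤ) by omega)]
    rcases h2.eq_or_lt with h4 | h4
    · rw [if_pos (by omega), ← h4]
      push_cast
      field_simp
      ring
    · rw [if_neg (by omega), if_pos (by omega)]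
      field_simp
      ring
  · rw [if_neg (show ¬ (0 ≤ t ∧ t < (m : ℤ)) by omega), if_neg (show ¬ ((m : ℤ) ≤ t ∧ t < 2 * (m : ℤ)) by omega),
      if_neg (show ¬ (0 ≤ t ∧ t < (m : ℤ)) by omega), if_neg (show ¬ (0 ≤ t ∧ t < 2 * (m : ℤ)) by omega),
      if_neg (show ¬ (0 ≤ t - 1 ∧ t - 1 < (m : ℤ)) by omega)]
    rcases h3.eq_or_lt with h4 | h4
    · rw [if_pos (by omega), ← h4]
      push_cast
      field_simp
      ring
    · rw [if_neg (by omega)]

theorem fl_zero (m : ℕ) (t : ℤ) (h : ¬ (0 ≤ t ∧ t < 2 * (m : ℤ))) : fl m t = 0 := by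
  unfold fl
  rw [if_neg (by omega), if_neg (by omega)]

theorem fl_last (m : ℕ) (hm : 1 ≤ m) : fl m (2 * (m : ℤ) - 1) = 0 := by
  have hm0 : (m : ℝ) ≠ 0 := by positivity
  unfold fl
  rcases Nat.lt_or_ge 1 m with h | h
  · rw [if_neg (by omega), if_pos (by omega)]
    push_cast
    field_simp
    ring
  · have : m = 1 := by omega
    subst this
    norm_num

theorem fl_abs (m : ℕ) (hm : 1 ≤ m) (t : ℤ) : |fl m t| ≤ 1 := by
  have hm0 : (0 : ℝ) < m := by positivity
  unfold fl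
  split_ifs with h1 h2
  · have a1 : (0 : ℝ) ≤ t := by exact_mod_cast h1.1
    have a2 : (t : ℝ) + 1 ≤ m := by exact_mod_cast h1.2
    rw [abs_of_nonneg (by positivity), div_le_one (by positivity)]
    linarith
  · have a1 : (0 : ℝ) ≤ t := by exact_mod_cast (by omega : (0 : ℤ) ≤ t)
    have a2 : (t : ℝ) + 1 ≤ 2 * m := by exact_mod_cast h2.2
    have a3 : ((t : ℝ) + 1) / (2 * m) ≤ 1 := by
      rw [div_le_one (by positivity)]
      exact a2
    have a4 : 0 ≤ ((t : ℝ) + 1) / (2 * m) := by positivity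
    rw [abs_le]
    constructor <;> linarith
  · simp

theorem w_nonneg (m : ℕ) (t : ℤ) : 0 ≤ w m t := by
  unfold w
  split_ifs
  · positivity
  · exact le_refl _

theorem w_le (m : ℕ) (t : ℤ) : w m t ≤ 1 / (m : ℝ) := by
  unfold w
  split_ifs
  · exact le_refl _
  · positivity

theorem w_le' (m : ℕ) (hm : 1 ≤ m) (t : ℤ) : w (2 * m) t ≤ 1 / (m : ℝ) := by
  have hm0 : (0 : ℝ) < m := by positivity
  refine (w_le _ _).trans ?_
  push_cast
  exact one_div_le_one_div_of_le hm0 (by linarith)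

/-- the mixed product weights -/
noncomputable def mu (m : ℕ) (k : ℕ) (x : Fin d → ℤ) : ℝ :=
  ∏ j : Fin d, (if j.val < k then w (2 * m) (x j) else w m (x j))

/-- the product without the coordinate `i` -/
noncomputable def pr (m : ℕ) (i : Fin d) (x : Fin d → ℤ) : ℝ :=
  ∏ j ∈ Finset.univ.erase i, (if j.val < i.val then w (2 * m) (x j) else w m (x j))

/-- the flow from the uniform weights on `[0, m)^d` to those on `[0, 2 m)^d` -/
noncomputable def spread (m : ℕ) (e : (Fin d → ℤ) × Fin d) : ℝ := fl m (e.1 e.2) * pr m e.2 e.1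

/-- the uniform weights on `[0, m)^d` -/
noncomputable def A (m : ℕ) (x : Fin d → ℤ) : ℝ := ∏ j : Fin d, w m (x j)

theorem mu_zero (m : ℕ) (x : Fin d → ℤ) : mu m 0 x = A m x := by
  unfold mu A
  refine Finset.prod_congr rfl fun j _ => ?_
  rw [if_neg (by omega)]

theorem mu_last (m : ℕ) (x : Fin d → ℤ) : mu m d x = A (2 * m) x := by
  unfold mu A
  refine Finset.prod_congr rfl fun j _ => ?_
  rw [if_pos j.isLt]

theorem mu_sub (m : ℕ) (i : Fin d) (x : Fin d → ℤ) :
    mu m i.val x - mu m (i.val + 1) x = (w m (x i) - w (2 * m) (x i)) * pr m i x := by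
  unfold mu
  rw [← Finset.mul_prod_erase Finset.univ _ (Finset.mem_univ i),
    ← Finset.mul_prod_erase Finset.univ (fun j : Fin d => if j.val < i.val + 1 then w (2 * m) (x j) else w m (x j))
      (Finset.mem_univ i)]
  have h1 : ∏ j ∈ Finset.univ.erase i, (if j.val < i.val + 1 then w (2 * m) (x j) else w m (x j)) = pr m i x := by
    unfold pr
    refine Finset.prod_congr rfl fun j hj => ?_
    have hne : j.val ≠ i.val := fun h => (Finset.mem_erase.1 hj).1 (Fin.ext h)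
    by_cases h : j.val < i.val
    · rw [if_pos h, if_pos (by omega)]
    · rw [if_neg h, if_neg (by omega)]
  have h2 : ∏ j ∈ Finset.univ.erase i, (if j.val < i.val then w (2 * m) (x j) else w m (x j)) = pr m i x := rfl
  rw [h1, h2, if_neg (lt_irrefl _), if_pos (Nat.lt_succ_self _)]
  ring

theorem pr_shift (m : ℕ) (i : Fin d) (x : Fin d → ℤ) : pr m i (x - Pi.single i 1) = pr m i x := by
  unfold pr
  refine Finset.prod_congr rfl fun j hj => ?_
  have hne : j ≠ i := (Finset.mem_erase.1 hj).1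
  rw [Pi.sub_apply, Pi.single_eq_of_ne hne, sub_zero]

theorem pr_nonneg (m : ℕ) (i : Fin d) (x : Fin d → ℤ) : 0 ≤ pr m i x := by
  unfold pr
  refine Finset.prod_nonneg fun j _ => ?_
  split_ifs
  · exact w_nonneg _ _
  · exact w_nonneg _ _

theorem pr_le (m : ℕ) (hm : 1 ≤ m) (i : Fin d) (x : Fin d → ℤ) : pr m i x ≤ (m : ℝ) / (m : ℝ) ^ d := by
  have hm0 : (0 : ℝ) < m := by positivity
  have h1 : pr m i x ≤ ∏ _j ∈ Finset.univ.erase i, (1 / (m : ℝ)) := by
    unfold pr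
    refine Finset.prod_le_prod (fun j _ => ?_) fun j _ => ?_
    · split_ifs
      · exact w_nonneg _ _
      · exact w_nonneg _ _
    · split_ifs
      · exact w_le' m hm _
      · exact w_le m _
  refine h1.trans (le_of_eq ?_)
  rw [Finset.prod_const, Finset.card_erase_of_mem (Finset.mem_univ i), Finset.card_univ, Fintype.card_fin]
  have hd : d = (d - 1) + 1 := by have := i.pos; omega
  rw [eq_div_iff (by positivity)]
  conv_lhs => rw [hd]
  rw [pow_succ, Nat.add_sub_cancel, one_div, inv_pow, ← mul_assoc, inv_mul_cancel₀ (by positivity), one_mul]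

theorem spread_abs (m : ℕ) (hm : 1 ≤ m) (e : (Fin d → ℤ) × Fin d) : |spread m e| ≤ (m : ℝ) / (m : ℝ) ^ d := by
  unfold spread
  rw [abs_mul, abs_of_nonneg (pr_nonneg m e.2 e.1)]
  calc |fl m (e.1 e.2)| * pr m e.2 e.1 ≤ 1 * pr m e.2 e.1 :=
        mul_le_mul_of_nonneg_right (fl_abs m hm _) (pr_nonneg m _ _)
    _ = pr m e.2 e.1 := one_mul _
    _ ≤ _ := pr_le m hm _ _

theorem pr_zero (m : ℕ) (i : Fin d) (x : Fin d → ℤ) (j : Fin d) (hj : j ≠ i)
    (h : ¬ (0 ≤ x j ∧ x j < 2 * (m : ℤ))) : pr m i x = 0 := by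
  unfold pr
  refine Finset.prod_eq_zero (Finset.mem_erase.2 ⟨hj, Finset.mem_univ j⟩) ?_
  unfold w
  push_cast
  have h2 : ¬ (0 ≤ x j ∧ x j < (m : ℤ)) := fun h3 => h ⟨h3.1, by omega⟩
  rw [if_neg h, if_neg h2]
  split_ifs <;> rfl

theorem mem_box (n : ℕ) (x : Fin d → ℤ) : x ∈ box d n ↔ ∀ j, 0 ≤ x j ∧ x j < (n : ℤ) := by
  unfold box
  simp [Fintype.mem_piFinset, Finset.mem_Ico]

theorem spread_zero (m : ℕ) (N : ℕ) (hN : 2 * m ≤ N) (i : Fin d) (x : Fin d → ℤ) (hx : x ∉ box d N) :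
    spread m (x, i) = 0 := by
  rw [mem_box] at hx
  push Not at hx
  obtain ⟨j, hj⟩ := hx
  have h : ¬ (0 ≤ x j ∧ x j < 2 * (m : ℤ)) := by
    rintro ⟨h1, h2⟩
    have := hj h1
    omega
  unfold spread
  by_cases hji : j = i
  · subst hji
    simp only
    rw [fl_zero m _ h, zero_mul]
  · simp only
    rw [pr_zero m i x j hji h, mul_zero]

theorem spread_zero' (m : ℕ) (hm : 1 ≤ m) (N : ℕ) (hN : 2 * m ≤ N) (i : Fin d) (x : Fin d → ℤ)
    (hx : x ∉ box d N) : spread m (x - Pi.single i 1, i) = 0 := by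
  rw [mem_box] at hx
  push Not at hx
  obtain ⟨j, hj⟩ := hx
  have h : ¬ (0 ≤ x j ∧ x j < 2 * (m : ℤ)) := by
    rintro ⟨h1, h2⟩
    have := hj h1
    omega
  unfold spread
  simp only [pr_shift, Pi.sub_apply, Pi.single_eq_same]
  by_cases hji : j = i
  · subst hji
    by_cases h3 : x j = 2 * (m : ℤ)
    · rw [h3, fl_last m hm, zero_mul]
    · rw [fl_zero m _ (by omega), zero_mul]
  · rw [pr_zero m i x j hji h, mul_zero]

/-- the divergence of the spreading flow -/
theorem spread_div (m : ℕ) (hm : 1 ≤ m) (N : ℕ) (hN : 2 * m ≤ N) (g : (Fin d → ℤ) → ℝ) :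
    ∑ e ∈ box d (2 * m) ×ˢ (Finset.univ : Finset (Fin d)), spread m e * (g e.1 - g (top e)) =
      ∑ x ∈ box d N, (A m x - A (2 * m) x) * g x := by
  have h1 : ∀ i : Fin d, ∑ x ∈ box d (2 * m), spread m (x, i) * (g x - g (top (x, i))) =
      ∑ x ∈ box d N, (mu m i.val x - mu m (i.val + 1) x) * g x := by
    intro i
    simp_rw [mul_sub]
    rw [Finset.sum_sub_distrib]
    have a1 : ∑ x ∈ box d (2 * m), spread m (x, i) * g x = ∑ x ∈ box d N, spread m (x, i) * g x := by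
      have b1 : ∑' x, spread m (x, i) * g x = ∑ x ∈ box d (2 * m), spread m (x, i) * g x :=
        tsum_eq_sum fun x hx => by rw [spread_zero m (2 * m) (le_refl _) i x hx, zero_mul]
      have b2 : ∑' x, spread m (x, i) * g x = ∑ x ∈ box d N, spread m (x, i) * g x :=
        tsum_eq_sum fun x hx => by rw [spread_zero m N hN i x hx, zero_mul]
      rw [← b1, b2]
    have a2 : ∑ x ∈ box d (2 * m), spread m (x, i) * g (top (x, i)) =
        ∑ x ∈ box d N, spread m (x - Pi.single i 1, i) * g x := by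
      have b1 : ∑' x, spread m (x, i) * g (top (x, i)) =
          ∑ x ∈ box d (2 * m), spread m (x, i) * g (top (x, i)) :=
        tsum_eq_sum fun x hx => by rw [spread_zero m (2 * m) (le_refl _) i x hx, zero_mul]
      have b2 : ∑' x, spread m (x - Pi.single i 1, i) * g x =
          ∑ x ∈ box d N, spread m (x - Pi.single i 1, i) * g x :=
        tsum_eq_sum fun x hx => by rw [spread_zero' m hm N hN i x hx, zero_mul]
      rw [← b1, ← b2]
      have b3 := (Equiv.subRight (Pi.single i (1 : ℤ) : Fin d → ℤ)).tsum_eq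
        (fun x => spread m (x, i) * g (top (x, i)))
      rw [← b3]
      refine tsum_congr fun x => ?_
      simp only [Equiv.subRight_apply, top, sub_add_cancel]
    rw [a1, a2, ← Finset.sum_sub_distrib]
    refine Finset.sum_congr rfl fun x _ => ?_
    rw [mu_sub, ← fl_sub m hm]
    unfold spread
    simp only [pr_shift, Pi.sub_apply, Pi.single_eq_same]
    ring
  rw [Finset.sum_product_right]
  simp_rw [h1]
  rw [Finset.sum_comm]
  refine Finset.sum_congr rfl fun x _ => ?_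
  rw [← Finset.sum_mul]
  congr 1
  rw [Fin.sum_univ_eq_sum_range (fun k => mu m k x - mu m (k + 1) x) d, Finset.sum_range_sub', mu_zero, mu_last]

theorem spread_quad (p : NNReal) (hp : p ≤ 1) (m : ℕ) (hm : 1 ≤ m) (N : ℕ) (hN : 2 * m ≤ N) :
    qf d p hp (box d (2 * m) ×ˢ (Finset.univ : Finset (Fin d))) (spread m) =
      vf d p hp (box d N) (fun x => A m x - A (2 * m) x) := by
  classical
  unfold qf quad vf
  have h1 : ∀ z : ((Fin d → ℤ) × Fin d) × Bool,
      ∑ j ∈ (box d (2 * m) ×ˢ (Finset.univ : Finset (Fin d))) ×ˢ (Finset.univ : Finset Bool),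
        dv (spread m) z * dv (spread m) j * tau d p hp (ends j - ends z) =
      dv (spread m) z * ∑ y ∈ box d N, (A m y - A (2 * m) y) * tau d p hp (y - ends z) := by
    intro z
    rw [← spread_div m hm N hN (fun y => tau d p hp (y - ends z)),
      ← sum_dv _ _ (fun y => tau d p hp (y - ends z)), Finset.mul_sum]
    refine Finset.sum_congr rfl fun j _ => ?_
    ring
  rw [Finset.sum_congr rfl fun z _ => h1 z]
  rw [sum_dv _ _ (fun v => ∑ y ∈ box d N, (A m y - A (2 * m) y) * tau d p hp (y - v)),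
    spread_div m hm N hN (fun v => ∑ y ∈ box d N, (A m y - A (2 * m) y) * tau d p hp (y - v))]
  refine Finset.sum_congr rfl fun x _ => ?_
  rw [Finset.mul_sum]
  refine Finset.sum_congr rfl fun y _ => ?_
  ring

theorem spread_step (p : NNReal) (hp : p ≤ 1) (m : ℕ) (hm : 1 ≤ m) (N : ℕ) (hN : 2 * m ≤ N) (B : ℝ)
    (hB : ∀ σ : (Fin d → ℤ) × Fin d → ℝ, (∀ e, σ e = 1 ∨ σ e = -1) →
      qf d p hp (box d (2 * m) ×ˢ (Finset.univ : Finset (Fin d))) σ ≤ B * ((2 * m : ℕ) : ℝ) ^ d) :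
    vf d p hp (box d N) (fun x => A m x - A (2 * m) x) ≤ B * 2 ^ d * ((m : ℝ) ^ 2 / (m : ℝ) ^ d) := by
  have hm0 : (0 : ℝ) < m := by positivity
  rw [← spread_quad p hp m hm N hN]
  have h := qf_threshold p hp (box d (2 * m) ×ˢ (Finset.univ : Finset (Fin d)))
    (B * ((2 * m : ℕ) : ℝ) ^ d) (spread m) ((m : ℝ) / (m : ℝ) ^ d) (by positivity)
    (fun e _ => spread_abs m hm e) (fun u => hB _ (fun e => by unfold sgu; split_ifs <;> simp))
  refine h.trans (le_of_eq ?_)
  push_cast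
  rw [mul_pow]
  field_simp

theorem chain (hd : 3 ≤ d) (p : NNReal) (hp : p ≤ 1) (B : ℝ) (hB0 : 0 ≤ B)
    (hB : ∀ (n : ℕ) (σ : (Fin d → ℤ) × Fin d → ℝ), (∀ e, σ e = 1 ∨ σ e = -1) →
      qf d p hp (box d n ×ˢ (Finset.univ : Finset (Fin d))) σ ≤ B * (n : ℝ) ^ d) (N : ℕ) (J : ℕ) :
    ∀ m : ℕ, 1 ≤ m → 2 ^ J * m ≤ N →
      vf d p hp (box d N) (fun x => A m x - A (2 ^ J * m) x) ≤ 12 * (B * 2 ^ d) * ((m : ℝ) ^ 2 / (m : ℝ) ^ d) := by
  induction J with
  | zero =>
    intro m hm _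
    have h0 : vf d p hp (box d N) (fun x => A m x - A (2 ^ 0 * m) x) = 0 := by
      unfold vf
      refine Finset.sum_eq_zero fun x _ => Finset.sum_eq_zero fun y _ => ?_
      simp only [pow_zero, one_mul, sub_self, zero_mul]
    rw [h0]
    positivity
  | succ J ih =>
    intro m hm hN
    have hm0 : (0 : ℝ) < m := by positivity
    have hpow : 2 * m ≤ 2 ^ (J + 1) * m := by
      rw [pow_succ, mul_assoc]
      exact Nat.le_mul_of_pos_left _ (by positivity)
    have e1 : 2 ^ (J + 1) * m = 2 ^ J * (2 * m) := by ring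
    have h1 := vf_four p hp (box d N) (fun x => A m x - A (2 * m) x)
      (fun x => A (2 * m) x - A (2 ^ J * (2 * m)) x)
    have h2 := spread_step p hp m hm N (hpow.trans hN) B (hB (2 * m))
    have h3 := ih (2 * m) (by omega) (by rw [← e1]; exact hN)
    have h4 : (fun x : Fin d → ℤ => A m x - A (2 * m) x + (A (2 * m) x - A (2 ^ J * (2 * m)) x)) =
        fun x => A m x - A (2 ^ (J + 1) * m) x := by
      funext x
      rw [e1]
      ring
    rw [h4] at h1
    have h8 : (8 : ℝ) ≤ 2 ^ d := by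
      calc (8 : ℝ) = 2 ^ 3 := by norm_num
        _ ≤ 2 ^ d := pow_le_pow_right₀ (by norm_num) hd
    have hu : ((2 * m : ℕ) : ℝ) ^ 2 / ((2 * m : ℕ) : ℝ) ^ d ≤ 1 / 2 * ((m : ℝ) ^ 2 / (m : ℝ) ^ d) := by
      push_cast
      rw [mul_pow, mul_pow]
      have h9 : (2 : ℝ) ^ 2 * (m : ℝ) ^ 2 / (2 ^ d * (m : ℝ) ^ d) =
          (4 / 2 ^ d) * ((m : ℝ) ^ 2 / (m : ℝ) ^ d) := by
        field_simp
        norm_num
      rw [h9]
      refine mul_le_mul_of_nonneg_right ?_ (by positivity)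
      rw [div_le_iff₀ (by positivity)]
      linarith
    have hK : 0 ≤ B * 2 ^ d := by positivity
    have h10 : 12 * (B * 2 ^ d) * (((2 * m : ℕ) : ℝ) ^ 2 / ((2 * m : ℕ) : ℝ) ^ d) ≤
        6 * (B * 2 ^ d) * ((m : ℝ) ^ 2 / (m : ℝ) ^ d) := by
      calc 12 * (B * 2 ^ d) * (((2 * m : ℕ) : ℝ) ^ 2 / ((2 * m : ℕ) : ℝ) ^ d)
          ≤ 12 * (B * 2 ^ d) * (1 / 2 * ((m : ℝ) ^ 2 / (m : ℝ) ^ d)) :=
            mul_le_mul_of_nonneg_left hu (by positivity)
        _ = _ := by ring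
    have h11 := h3.trans h10
    linarith

theorem A_eq (m : ℕ) (x : Fin d → ℤ) : A m x = if x ∈ box d m then 1 / (m : ℝ) ^ d else 0 := by
  unfold A
  split_ifs with h
  · rw [mem_box] at h
    have : ∀ j ∈ (Finset.univ : Finset (Fin d)), w m (x j) = 1 / (m : ℝ) := by
      intro j _
      unfold w
      rw [if_pos (h j)]
    rw [Finset.prod_congr rfl this, Finset.prod_const, Finset.card_univ, Fintype.card_fin, one_div, one_div,
      inv_pow]
  · rw [mem_box] at h
    push Not at h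
    obtain ⟨j, hj⟩ := h
    refine Finset.prod_eq_zero (Finset.mem_univ j) ?_
    unfold w
    rw [if_neg]
    rintro ⟨h1, h2⟩
    have := hj h1
    omega

theorem vf_A (p : NNReal) (hp : p ≤ 1) (m N : ℕ) (hN : m ≤ N) :
    vf d p hp (box d N) (A m) =
      (∑ x ∈ box d m, ∑ y ∈ box d m, tau d p hp (y - x)) / ((m : ℝ) ^ d) ^ 2 := by
  have hsub : box d m ⊆ box d N := by
    intro x hx
    rw [mem_box] at hx ⊢
    exact fun j => ⟨(hx j).1, (hx j).2.trans_le (by exact_mod_cast hN)⟩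
  unfold vf
  rw [← Finset.sum_subset hsub]
  · rw [Finset.sum_div]
    refine Finset.sum_congr rfl fun x hx => ?_
    rw [← Finset.sum_subset hsub]
    · rw [Finset.sum_div]
      refine Finset.sum_congr rfl fun y hy => ?_
      rw [A_eq, A_eq, if_pos hx, if_pos hy]
      rw [sq, div_mul_div_comm, one_mul, div_mul_eq_mul_div, one_mul]
    · intro y _ hy
      rw [A_eq m y, if_neg hy, mul_zero, zero_mul]
  · intro x _ hx
    refine Finset.sum_eq_zero fun y _ => ?_
    rw [A_eq m x, if_neg hx, zero_mul, zero_mul]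

theorem box_sum_le (p : NNReal) (hp : p ≤ 1) (N : ℕ) :
    ∑ x ∈ box d N, ∑ y ∈ box d N, tau d p hp (y - x) ≤ (N : ℝ) ^ d * S d p hp N := by
  classical
  have h1 : ∀ x ∈ box d N, ∑ y ∈ box d N, tau d p hp (y - x) ≤ S d p hp N := by
    intro x hx
    rw [mem_box] at hx
    have h2 : ∑ y ∈ box d N, tau d p hp (y - x) = ∑ z ∈ (box d N).image (fun y => y - x), tau d p hp z := by
      rw [Finset.sum_image]
      intro a _ b _ hab
      exact sub_left_injective hab
    rw [h2]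
    unfold S
    refine Finset.sum_le_sum_of_subset_of_nonneg ?_ fun z _ _ => tau_nonneg p hp z
    intro z hz
    obtain ⟨y, hy, rfl⟩ := Finset.mem_image.1 hz
    rw [mem_box] at hy
    rw [Fintype.mem_piFinset]
    intro j
    rw [Finset.mem_Icc, Pi.sub_apply]
    have a1 := hx j
    have a2 := hy j
    constructor <;> omega
  refine (Finset.sum_le_sum h1).trans (le_of_eq ?_)
  rw [Finset.sum_const, nsmul_eq_mul, box_card]

theorem le_box_sum (p : NNReal) (hp : p ≤ 1) (r : ℕ) :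
    (r : ℝ) ^ d * S d p hp r ≤ ∑ x ∈ box d (3 * r), ∑ y ∈ box d (3 * r), tau d p hp (y - x) := by
  classical
  set M : Finset (Fin d → ℤ) := Fintype.piFinset (fun _ => Finset.Ico (r : ℤ) (2 * r : ℤ)) with hM
  have hMc : (M.card : ℝ) = (r : ℝ) ^ d := by
    rw [hM, Fintype.card_piFinset]
    simp only [Int.card_Ico, Finset.prod_const, Finset.card_univ, Fintype.card_fin]
    have : (2 * (r : ℤ) - r).toNat = r := by omega
    rw [this]
    push_cast
    rfl
  have hMs : M ⊆ box d (3 * r) := by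
    intro x hx
    rw [hM, Fintype.mem_piFinset] at hx
    rw [mem_box]
    intro j
    have := Finset.mem_Ico.1 (hx j)
    push_cast
    constructor <;> omega
  have h1 : ∀ x ∈ M, S d p hp r ≤ ∑ y ∈ box d (3 * r), tau d p hp (y - x) := by
    intro x hx
    rw [hM, Fintype.mem_piFinset] at hx
    have h2 : S d p hp r = ∑ y ∈ (Fintype.piFinset (fun _ : Fin d => Finset.Icc (-(r : ℤ)) (r : ℤ))).image
        (fun z => z + x), tau d p hp (y - x) := by
      rw [Finset.sum_image]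
      · unfold S
        refine Finset.sum_congr rfl fun z _ => ?_
        rw [add_sub_cancel_right]
      · intro a _ b _ hab
        exact add_left_injective x hab
    rw [h2]
    refine Finset.sum_le_sum_of_subset_of_nonneg ?_ fun z _ _ => tau_nonneg p hp _
    intro y hy
    obtain ⟨z, hz, rfl⟩ := Finset.mem_image.1 hy
    rw [Fintype.mem_piFinset] at hz
    rw [mem_box]
    intro j
    have a1 := Finset.mem_Ico.1 (hx j)
    have a2 := Finset.mem_Icc.1 (hz j)
    rw [Pi.add_apply]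
    push_cast
    constructor <;> omega
  calc (r : ℝ) ^ d * S d p hp r = ∑ _x ∈ M, S d p hp r := by rw [Finset.sum_const, nsmul_eq_mul, hMc]
    _ ≤ ∑ x ∈ M, ∑ y ∈ box d (3 * r), tau d p hp (y - x) := Finset.sum_le_sum h1
    _ ≤ _ := Finset.sum_le_sum_of_subset_of_nonneg hMs
        fun x _ _ => Finset.sum_nonneg fun y _ => tau_nonneg p hp _

/-- **Growth from the orientations at one parameter.** -/
theorem growth (hd : 3 ≤ d) (p : NNReal) (hp : p ≤ 1) (B : ℝ)
    (hB : ∀ (n : ℕ) (σ : (Fin d → ℤ) × Fin d → ℝ), (∀ e, σ e = 1 ∨ σ e = -1) →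
      qf d p hp (box d n ×ˢ (Finset.univ : Finset (Fin d))) σ ≤ B * (n : ℝ) ^ d)
    (hS : Tendsto (fun n : ℕ => S d p hp n / (n : ℝ) ^ d) atTop (𝓝 0)) (r : ℕ) (hr : 1 ≤ r) :
    S d p hp r ≤ 216 * 6 ^ d * B * (r : ℝ) ^ 2 := by
  have hr0 : (0 : ℝ) < r := by positivity
  have hB0 : 0 ≤ B := by
    have h1 := (qf_nonneg p hp (box d 1 ×ˢ (Finset.univ : Finset (Fin d))) (fun _ => (1 : ℝ))).trans
      (hB 1 (fun _ => 1) (fun _ => Or.inl rfl))
    simpa using h1
  set m : ℕ := 3 * r with hm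
  have hm1 : 1 ≤ m := by omega
  have hm0 : (0 : ℝ) < m := by positivity
  have h1 : ∀ J : ℕ, (r : ℝ) ^ d * S d p hp r / ((m : ℝ) ^ d) ^ 2 ≤
      24 * (B * 2 ^ d) * ((m : ℝ) ^ 2 / (m : ℝ) ^ d) +
        2 * (S d p hp (2 ^ J * m) / ((2 ^ J * m : ℕ) : ℝ) ^ d) := by
    intro J
    have hN : m ≤ 2 ^ J * m := Nat.le_mul_of_pos_left _ (by positivity)
    have hN0 : (0 : ℝ) < ((2 ^ J * m : ℕ) : ℝ) := by
      have : 0 < 2 ^ J * m := by positivity
      exact_mod_cast this
    have a1 := chain hd p hp B hB0 hB (2 ^ J * m) J m hm1 (le_refl _)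
    have a2 := vf_two p hp (box d (2 ^ J * m)) (fun x => A m x - A (2 ^ J * m) x) (A (2 ^ J * m))
    have a3 : (fun x : Fin d → ℤ => A m x - A (2 ^ J * m) x + A (2 ^ J * m) x) = A m := by
      funext x
      ring
    rw [a3, vf_A p hp m (2 ^ J * m) hN, vf_A p hp (2 ^ J * m) (2 ^ J * m) (le_refl _)] at a2
    have a4 := box_sum_le (d := d) p hp (2 ^ J * m)
    have a5 := le_box_sum (d := d) p hp r
    rw [← hm] at a5
    have a6 : (r : ℝ) ^ d * S d p hp r / ((m : ℝ) ^ d) ^ 2 ≤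
        (∑ x ∈ box d m, ∑ y ∈ box d m, tau d p hp (y - x)) / ((m : ℝ) ^ d) ^ 2 :=
      div_le_div_of_nonneg_right a5 (by positivity)
    have a7 : (∑ x ∈ box d (2 ^ J * m), ∑ y ∈ box d (2 ^ J * m), tau d p hp (y - x)) /
        (((2 ^ J * m : ℕ) : ℝ) ^ d) ^ 2 ≤ S d p hp (2 ^ J * m) / ((2 ^ J * m : ℕ) : ℝ) ^ d := by
      rw [div_le_div_iff₀ (by positivity) (by positivity)]
      calc (∑ x ∈ box d (2 ^ J * m), ∑ y ∈ box d (2 ^ J * m), tau d p hp (y - x)) *
            ((2 ^ J * m : ℕ) : ℝ) ^ d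
          ≤ (((2 ^ J * m : ℕ) : ℝ) ^ d * S d p hp (2 ^ J * m)) * ((2 ^ J * m : ℕ) : ℝ) ^ d :=
            mul_le_mul_of_nonneg_right a4 (by positivity)
        _ = _ := by ring
    linarith
  have hN : Tendsto (fun J : ℕ => 2 ^ J * m) atTop atTop := by
    have h0 : Tendsto (fun J : ℕ => 2 ^ J) atTop atTop := tendsto_pow_atTop_atTop_of_one_lt (by norm_num)
    exact h0.atTop_mul_const' (by omega)
  have h2 : Tendsto (fun J : ℕ => 24 * (B * 2 ^ d) * ((m : ℝ) ^ 2 / (m : ℝ) ^ d) +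
        2 * (S d p hp (2 ^ J * m) / ((2 ^ J * m : ℕ) : ℝ) ^ d)) atTop
      (𝓝 (24 * (B * 2 ^ d) * ((m : ℝ) ^ 2 / (m : ℝ) ^ d) + 2 * 0)) :=
    ((hS.comp hN).const_mul 2).const_add _
  have h3 := ge_of_tendsto' h2 h1
  rw [mul_zero, add_zero, div_le_iff₀ (by positivity)] at h3
  have h4 : 24 * (B * 2 ^ d) * ((m : ℝ) ^ 2 / (m : ℝ) ^ d) * ((m : ℝ) ^ d) ^ 2 =
      (r : ℝ) ^ d * (216 * 6 ^ d * B * (r : ℝ) ^ 2) := by
    have e1 : (m : ℝ) = 3 * r := by rw [hm]; push_cast; ring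
    rw [e1]
    have e2 : (6 : ℝ) ^ d = 2 ^ d * 3 ^ d := by rw [← mul_pow]; norm_num
    rw [e2, mul_pow, mul_pow]
    field_simp
    ring
  rw [h4] at h3
  exact le_of_mul_le_mul_left h3 (by positivity)

end Pool.Agent.H74.IB
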