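import Pool.Agent.H74.IB.Basic

/-!
# The infrared bound implies the inequality for flows
-/

set_option autoImplicit false

open MeasureTheory Filter Topology

namespace Pool.Agent.H74.IB

open Pool.Agent.Results.MP_54f242_pr.InfraredMean

variable {d : ℕ}

/-- the upper end of the edge `e` from `e.1` to `e.1 + e_i`, `i = e.2` -/
def top (e : (Fin d → ℤ) × Fin d) : Fin d → ℤ := e.1 + Pi.single e.2 1

/-- the ends of the edges -/
def ends (z : ((Fin d → ℤ) × Fin d) × Bool) : Fin d → ℤ := if z.2 then z.1.1 else top z.1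

/-- the divergence of a flow, as a function on the ends of the edges -/
def dv (F : (Fin d → ℤ) × Fin d → ℝ) (z : ((Fin d → ℤ) × Fin d) × Bool) : ℝ := if z.2 then F z.1 else -F z.1

theorem sum_dv (E : Finset ((Fin d → ℤ) × Fin d)) (F : (Fin d → ℤ) × Fin d → ℝ) (φ : (Fin d → ℤ) → ℝ) :
    ∑ z ∈ E ×ˢ (Finset.univ : Finset Bool), dv F z * φ (ends z) = ∑ e ∈ E, F e * (φ e.1 - φ (top e)) := by
  rw [Finset.sum_product]
  refine Finset.sum_congr rfl fun e _ => ?_
  rw [Fintype.sum_bool]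
  simp only [dv, ends, if_true, Bool.false_eq_true, if_false]
  ring

theorem sum_dv_exp (E : Finset ((Fin d → ℤ) × Fin d)) (F : (Fin d → ℤ) × Fin d → ℝ) (k : Fin d → ℝ) :
    ∑ z ∈ E ×ˢ (Finset.univ : Finset Bool), (dv F z : ℂ) * Complex.exp ((dot k (ends z) : ℝ) * Complex.I) =
      ∑ i : Fin d, (1 - Complex.exp ((k i : ℝ) * Complex.I)) *
        ∑ e ∈ E with e.2 = i, (F e : ℂ) * Complex.exp ((dot k e.1 : ℝ) * Complex.I) := by
  classical
  rw [Finset.sum_product]
  have h1 : ∀ e ∈ E, ∑ b : Bool, (dv F (e, b) : ℂ) * Complex.exp ((dot k (ends (e, b)) : ℝ) * Complex.I) =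
      (1 - Complex.exp ((k e.2 : ℝ) * Complex.I)) * ((F e : ℂ) * Complex.exp ((dot k e.1 : ℝ) * Complex.I)) := by
    intro e _
    rw [Fintype.sum_bool]
    simp only [dv, ends, if_true, Bool.false_eq_true, if_false, top]
    rw [dot_add, dot_single]
    push_cast
    rw [add_mul, Complex.exp_add]
    ring
  rw [Finset.sum_congr rfl h1, ← Finset.sum_fiberwise E (fun e => e.2)]
  refine Finset.sum_congr rfl fun i _ => ?_
  rw [Finset.mul_sum]
  refine Finset.sum_congr rfl fun e he => ?_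
  rw [(Finset.mem_filter.1 he).2]

theorem norm_one_sub_exp (t : ℝ) : ‖1 - Complex.exp ((t : ℝ) * Complex.I)‖ ^ 2 = 2 * (1 - Real.cos t) := by
  rw [← Complex.normSq_eq_norm_sq, Complex.normSq_apply]
  simp only [Complex.sub_re, Complex.sub_im, Complex.one_re, Complex.one_im, Complex.exp_ofReal_mul_I_re,
    Complex.exp_ofReal_mul_I_im]
  have := Real.sin_sq_add_cos_sq t
  nlinarith

theorem sum_norm (hd : 1 ≤ d) (k : Fin d → ℝ) :
    ∑ i : Fin d, ‖1 - Complex.exp ((k i : ℝ) * Complex.I)‖ ^ 2 = 2 * d * (1 - Dhat k) := by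
  simp_rw [norm_one_sub_exp]
  rw [← Finset.mul_sum, Finset.sum_sub_distrib, Finset.sum_const, Finset.card_univ, Fintype.card_fin, Dhat]
  have : (d : ℝ) ≠ 0 := by positivity
  field_simp
  simp

/-- the infrared bound implies the inequality for flows -/
theorem upper (hd : 1 ≤ d) (p : NNReal) (hp : p ≤ 1) (hs : Summable (tau d p hp)) (A : ℝ)
    (hA : ∀ k, G d p hp k ≤ A) (E : Finset ((Fin d → ℤ) × Fin d)) (F : (Fin d → ℤ) × Fin d → ℝ) :
    quad d p hp (E ×ˢ (Finset.univ : Finset Bool)) ends (dv F) ≤ 2 * d * A * ∑ e ∈ E, F e ^ 2 := by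
  classical
  have ha : Summable fun x => |tau d p hp x| := by simpa only [abs_of_nonneg (tau_nonneg p hp _)] using hs
  have hfm : IsFiniteMeasure (volume.restrict (cube d)) := ⟨by simpa using cube_fin⟩
  have hpi : 0 < (2 * Real.pi) ^ d := by positivity
  set β : Fin d → (Fin d → ℝ) → ℂ := fun i k =>
    ∑ e ∈ E with e.2 = i, (F e : ℂ) * Complex.exp ((dot k e.1 : ℝ) * Complex.I) with hβ
  have hβc : ∀ i, Continuous (β i) := by
    intro i
    simp only [hβ]
    unfold dot
    fun_prop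
  have hβb : ∀ i k, ‖β i k‖ ^ 2 ≤ (∑ e ∈ E, |F e|) ^ 2 := by
    intro i k
    refine pow_le_pow_left₀ (norm_nonneg _) ?_ 2
    refine (norm_sum_le _ _).trans ?_
    refine (Finset.sum_le_sum (g := fun e => |F e|) fun e _ => ?_).trans
      (Finset.sum_le_sum_of_subset_of_nonneg (Finset.filter_subset _ _) fun _ _ _ => abs_nonneg _)
    rw [norm_mul, Complex.norm_exp_ofReal_mul_I, mul_one, Complex.norm_real, Real.norm_eq_abs]
  have hβi : ∀ i, Integrable (fun k => ‖β i k‖ ^ 2) (volume.restrict (cube d)) := by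
    intro i
    refine Integrable.of_bound (C := (∑ e ∈ E, |F e|) ^ 2) ((hβc i).norm.pow 2).aestronglyMeasurable
      (Eventually.of_forall fun k => ?_)
    rw [Real.norm_eq_abs, abs_of_nonneg (by positivity)]
    exact hβb i k
  have hpl : ∫ k in cube d, ∑ i : Fin d, ‖β i k‖ ^ 2 = (2 * Real.pi) ^ d * ∑ e ∈ E, F e ^ 2 := by
    rw [integral_finsetSum _ (fun i _ => hβi i), ← Finset.sum_fiberwise E (fun e => e.2), Finset.mul_sum]
    refine Finset.sum_congr rfl fun i _ => ?_
    simp only [hβ]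
    rw [integral_norm_sq]
    intro e he e' he' h
    have h1 := (Finset.mem_filter.1 (Finset.mem_coe.1 he)).2
    have h2 := (Finset.mem_filter.1 (Finset.mem_coe.1 he')).2
    exact Prod.ext h (h1.trans h2.symm)
  have hpoint : ∀ k, cs (tau d p hp) k * ‖∑ z ∈ E ×ˢ (Finset.univ : Finset Bool),
      (dv F z : ℂ) * Complex.exp ((dot k (ends z) : ℝ) * Complex.I)‖ ^ 2 ≤
        (2 * d * A) * ∑ i : Fin d, ‖β i k‖ ^ 2 := by
    intro k
    rw [sum_dv_exp]
    have hcs : 0 ≤ cs (tau d p hp) k := hat_nonneg p hp hs k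
    have h1 : ‖∑ i : Fin d, (1 - Complex.exp ((k i : ℝ) * Complex.I)) * β i k‖ ^ 2 ≤
        (∑ i : Fin d, ‖1 - Complex.exp ((k i : ℝ) * Complex.I)‖ ^ 2) * ∑ i : Fin d, ‖β i k‖ ^ 2 := by
      refine (pow_le_pow_left₀ (norm_nonneg _) (norm_sum_le _ _) 2).trans ?_
      simp_rw [norm_mul]
      exact Finset.sum_mul_sq_le_sq_mul_sq _ _ _
    rw [sum_norm hd] at h1
    have h2 : cs (tau d p hp) k * (1 - Dhat k) ≤ A := hA k
    have h3 : 0 ≤ ∑ i : Fin d, ‖β i k‖ ^ 2 := Finset.sum_nonneg fun i _ => by positivity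
    calc cs (tau d p hp) k * ‖∑ i : Fin d, (1 - Complex.exp ((k i : ℝ) * Complex.I)) * β i k‖ ^ 2
        ≤ cs (tau d p hp) k * (2 * d * (1 - Dhat k) * ∑ i : Fin d, ‖β i k‖ ^ 2) :=
          mul_le_mul_of_nonneg_left h1 hcs
      _ = (2 * d * (cs (tau d p hp) k * (1 - Dhat k))) * ∑ i : Fin d, ‖β i k‖ ^ 2 := by ring
      _ ≤ (2 * d * A) * ∑ i : Fin d, ‖β i k‖ ^ 2 := by
          refine mul_le_mul_of_nonneg_right ?_ h3
          exact mul_le_mul_of_nonneg_left h2 (by positivity)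
  have hmain : (2 * Real.pi) ^ d * quad d p hp (E ×ˢ (Finset.univ : Finset Bool)) ends (dv F) ≤
      (2 * Real.pi) ^ d * (2 * d * A * ∑ e ∈ E, F e ^ 2) := by
    rw [quad_eq_integral p hp hs]
    calc _ ≤ ∫ k in cube d, (2 * d * A) * ∑ i : Fin d, ‖β i k‖ ^ 2 := by
          refine integral_mono_of_nonneg (Eventually.of_forall fun k => ?_) ?_ (Eventually.of_forall hpoint)
          · exact mul_nonneg (hat_nonneg p hp hs k) (by positivity)
          · exact (integrable_finsetSum _ fun i _ => hβi i).const_mul _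
      _ = _ := by
          rw [integral_const_mul, hpl]
          ring
  exact le_of_mul_le_mul_left hmain hpi

end Pool.Agent.H74.IB
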