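import Pool.Agent.H74.IB.Critical

/-!
# Plane wave orientations
-/

set_option autoImplicit false

open MeasureTheory Filter Topology

namespace Pool.Agent.H74.IB

open Pool.Agent.Results.MP_54f242_pr.InfraredMean

variable {d : ℕ}

/-- a sign with threshold -/
noncomputable def sgu (u t : ℝ) : ℝ := if u < t then 1 else -1

theorem sgu_abs (u t : ℝ) : |sgu u t| ≤ 1 := by
  unfold sgu
  split_ifs <;> simp

theorem sgu_meas (t : ℝ) : Measurable fun u => sgu u t := by
  unfold sgu
  exact Measurable.ite (measurableSet_lt measurable_id measurable_const) measurable_const measurable_const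

theorem sgu_int (m t : ℝ) : IntervalIntegrable (fun u => sgu u t) volume (-m) m := by
  rw [intervalIntegrable_iff]
  exact Measure.integrableOn_of_bounded (M := 1) (measure_Ioc_lt_top.ne) (sgu_meas t).aestronglyMeasurable
    (Eventually.of_forall fun u => sgu_abs u t)

theorem sgu_int2 (m s t : ℝ) : IntervalIntegrable (fun u => sgu u s * sgu u t) volume (-m) m := by
  rw [intervalIntegrable_iff]
  refine Measure.integrableOn_of_bounded (M := 1) (measure_Ioc_lt_top.ne)
    ((sgu_meas s).mul (sgu_meas t)).aestronglyMeasurable (Eventually.of_forall fun u => ?_)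
  rw [norm_mul]
  exact mul_le_one₀ (sgu_abs u s) (norm_nonneg _) (sgu_abs u t)

theorem ii_sum {ι : Type*} (s : Finset ι) (f : ι → ℝ → ℝ) (a b : ℝ)
    (h : ∀ i ∈ s, IntervalIntegrable (f i) volume a b) :
    IntervalIntegrable (fun u => ∑ i ∈ s, f i u) volume a b := by
  have h1 := IntervalIntegrable.sum s h
  have h2 : (∑ i ∈ s, f i) = fun u => ∑ i ∈ s, f i u := by
    funext u
    rw [Finset.sum_apply]
  rwa [h2] at h1

theorem sgu_integral (m t : ℝ) (h : |t| ≤ m) : ∫ u in (-m)..m, sgu u t = 2 * t := by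
  have h1 := abs_le.1 h
  have h2 : IntervalIntegrable (fun u => sgu u t) volume (-m) t := by
    refine (sgu_int m t).mono_set ?_
    rw [Set.uIcc_of_le (by linarith), Set.uIcc_of_le (by linarith)]
    exact Set.Icc_subset_Icc_right h1.2
  have h3 : IntervalIntegrable (fun u => sgu u t) volume t m := by
    refine (sgu_int m t).mono_set ?_
    rw [Set.uIcc_of_le (by linarith), Set.uIcc_of_le (by linarith)]
    exact Set.Icc_subset_Icc_left h1.1
  rw [← intervalIntegral.integral_add_adjacent_intervals h2 h3]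
  have h4 : ∫ u in (-m)..t, sgu u t = ∫ u in (-m)..t, (1 : ℝ) := by
    rw [intervalIntegral.integral_of_le (by linarith), intervalIntegral.integral_of_le (by linarith),
      integral_Ioc_eq_integral_Ioo, integral_Ioc_eq_integral_Ioo]
    refine setIntegral_congr_fun measurableSet_Ioo fun u hu => ?_
    simp only [sgu, if_pos hu.2]
  have h5 : ∫ u in t..m, sgu u t = ∫ u in t..m, (-1 : ℝ) := by
    rw [intervalIntegral.integral_of_le (by linarith), intervalIntegral.integral_of_le (by linarith)]
    refine setIntegral_congr_fun measurableSet_Ioc fun u hu => ?_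
    simp only [sgu, if_neg (not_lt.2 hu.1.le)]
  rw [h4, h5, intervalIntegral.integral_const, intervalIntegral.integral_const]
  simp only [smul_eq_mul]
  ring

/-- a flow is dominated by its threshold orientations -/
theorem qf_threshold (p : NNReal) (hp : p ≤ 1) (E : Finset ((Fin d → ℤ) × Fin d)) (B : ℝ)
    (g : (Fin d → ℤ) × Fin d → ℝ) (m : ℝ) (hm : 0 < m) (hg : ∀ e ∈ E, |g e| ≤ m)
    (hB : ∀ u : ℝ, qf d p hp E (fun e => sgu u (g e)) ≤ B) : qf d p hp E g ≤ m ^ 2 * B := by
  set A : (Fin d → ℤ) × Fin d → ℝ := fun e => m⁻¹ * g e with hA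
  have hc : 2 * m * qf d p hp E A ≤ ∫ u in (-m)..m, qf d p hp E (fun e => sgu u (g e)) := by
    have h0 : ∀ u, qf d p hp E (fun e => sgu u (g e) - A e) =
        qf d p hp E (fun e => sgu u (g e)) - ∑ e ∈ E, ∑ f ∈ E,
          (sgu u (g e) * (A f * ker d p hp e f) + sgu u (g f) * (A e * ker d p hp e f)) +
          qf d p hp E A := by
      intro u
      rw [qf_ker, qf_ker, qf_ker, ← Finset.sum_sub_distrib, ← Finset.sum_add_distrib]
      refine Finset.sum_congr rfl fun e _ => ?_
      rw [← Finset.sum_sub_distrib, ← Finset.sum_add_distrib]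
      refine Finset.sum_congr rfl fun f _ => ?_
      ring
    have hq : IntervalIntegrable (fun u => qf d p hp E (fun e => sgu u (g e))) volume (-m) m := by
      simp_rw [qf_ker]
      refine ii_sum _ _ _ _ fun e _ => ?_
      refine ii_sum _ _ _ _ fun f _ => ?_
      exact (sgu_int2 m (g e) (g f)).mul_const _
    have hl1 : ∀ e f, IntervalIntegrable (fun u => sgu u (g e) * (A f * ker d p hp e f)) volume (-m) m :=
      fun e f => (sgu_int m (g e)).mul_const _
    have hl2 : ∀ e f, IntervalIntegrable (fun u => sgu u (g f) * (A e * ker d p hp e f)) volume (-m) m :=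
      fun e f => (sgu_int m (g f)).mul_const _
    have hl : IntervalIntegrable (fun u => ∑ e ∈ E, ∑ f ∈ E,
          (sgu u (g e) * (A f * ker d p hp e f) + sgu u (g f) * (A e * ker d p hp e f))) volume (-m) m :=
      ii_sum _ _ _ _ fun e _ => ii_sum _ _ _ _ fun f _ => (hl1 e f).add (hl2 e f)
    have hil : ∫ u in (-m)..m, (∑ e ∈ E, ∑ f ∈ E,
          (sgu u (g e) * (A f * ker d p hp e f) + sgu u (g f) * (A e * ker d p hp e f))) =
        4 * m * qf d p hp E A := by
      rw [intervalIntegral.integral_finsetSum fun e _ =>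
        ii_sum _ _ _ _ fun f _ => (hl1 e f).add (hl2 e f), qf_ker, Finset.mul_sum]
      refine Finset.sum_congr rfl fun e he => ?_
      rw [intervalIntegral.integral_finsetSum fun f _ => (hl1 e f).add (hl2 e f), Finset.mul_sum]
      refine Finset.sum_congr rfl fun f hf => ?_
      rw [intervalIntegral.integral_add (hl1 e f) (hl2 e f), intervalIntegral.integral_mul_const,
        intervalIntegral.integral_mul_const, sgu_integral m _ (hg e he), sgu_integral m _ (hg f hf)]
      simp only [hA]
      field_simp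
      ring
    have hpos : 0 ≤ ∫ u in (-m)..m, qf d p hp E (fun e => sgu u (g e) - A e) :=
      intervalIntegral.integral_nonneg (by linarith) fun u _ => qf_nonneg p hp E _
    simp_rw [h0] at hpos
    rw [intervalIntegral.integral_add (hq.sub hl) intervalIntegrable_const,
      intervalIntegral.integral_sub hq hl, hil, intervalIntegral.integral_const, smul_eq_mul] at hpos
    linarith
  have hu : ∫ u in (-m)..m, qf d p hp E (fun e => sgu u (g e)) ≤ 2 * m * B := by
    have hq : IntervalIntegrable (fun u => qf d p hp E (fun e => sgu u (g e))) volume (-m) m := by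
      simp_rw [qf_ker]
      refine ii_sum _ _ _ _ fun e _ => ?_
      refine ii_sum _ _ _ _ fun f _ => ?_
      exact (sgu_int2 m (g e) (g f)).mul_const _
    have h1 := intervalIntegral.integral_mono_on (by linarith : -m ≤ m) hq
      (intervalIntegrable_const (c := B)) (fun u _ => hB u)
    rw [intervalIntegral.integral_const, smul_eq_mul] at h1
    linarith
  have h2 : qf d p hp E A ≤ B := le_of_mul_le_mul_left (hc.trans hu) (by positivity)
  have h3 := qf_smul p hp E A m
  have h4 : (fun e => m * A e) = g := by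
    funext e
    simp only [hA]
    rw [← mul_assoc, mul_inv_cancel₀ hm.ne', one_mul]
  rw [h4] at h3
  rw [h3]
  exact mul_le_mul_of_nonneg_left h2 (sq_nonneg m)

/-- the inequality for the orientations of the plane wave of wave vector `k` bounds the transform at `k` -/
theorem lower_wave (hd : 1 ≤ d) (p : NNReal) (hp : p ≤ 1) (hs : Summable (tau d p hp)) (B : ℝ) (k : Fin d → ℝ)
    (hB : ∀ n₀ : ℕ, ∃ n ≥ n₀, ∀ u : ℝ,
      qf d p hp (box d n ×ˢ (Finset.univ : Finset (Fin d))) (fun e => sgu u (W k e).re) ≤ B * (n : ℝ) ^ d ∧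
      qf d p hp (box d n ×ˢ (Finset.univ : Finset (Fin d))) (fun e => sgu u (W k e).im) ≤ B * (n : ℝ) ^ d) :
    G d p hp k ≤ B / d := by
  have hd0 : (0 : ℝ) < d := by exact_mod_cast hd
  have hB0 : 0 ≤ B := by
    obtain ⟨n, hn, h⟩ := hB 1
    have h1 := (qf_nonneg p hp (box d n ×ˢ (Finset.univ : Finset (Fin d))) _).trans (h 0).1
    have h2 : (0 : ℝ) < (n : ℝ) ^ d := by
      have : (0 : ℝ) < n := by exact_mod_cast hn
      positivity
    exact nonneg_of_mul_nonneg_left h1 h2
  have hG : G d p hp k = cs (tau d p hp) k * (1 - Dhat k) := rfl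
  have hD : 0 ≤ 1 - Dhat k := by have := (abs_le.1 (Dhat_le k)).2; linarith
  rcases hD.eq_or_lt with hD0 | hD0
  · rw [hG, ← hD0, mul_zero]
    positivity
  have hm2 : 0 < 2 * d * (1 - Dhat k) := by positivity
  set m : ℝ := Real.sqrt (2 * d * (1 - Dhat k)) with hm
  have hm0 : 0 < m := Real.sqrt_pos.2 hm2
  have hmsq : m ^ 2 = 2 * d * (1 - Dhat k) := Real.sq_sqrt hm2.le
  have hWn : ∀ e, ‖W k e‖ ≤ m := by
    intro e
    have h1 : ‖W k e‖ = ‖cc k e.2‖ := by
      unfold W
      rw [norm_mul, Complex.norm_exp_ofReal_mul_I, mul_one]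
    rw [h1]
    refine Real.le_sqrt_of_sq_le ?_
    rw [cc_norm_eq, ← sum_norm hd]
    exact Finset.single_le_sum (f := fun i => ‖1 - Complex.exp ((k i : ℝ) * Complex.I)‖ ^ 2)
      (fun i _ => by positivity) (Finset.mem_univ e.2)
  have hlim := box_limit (fun z => (H p hp k z).re) (H_hasSum hd p hp hs k).summable.abs
  rw [(H_hasSum hd p hp hs k).tsum_eq] at hlim
  have hfin : (2 * d * (1 - Dhat k)) ^ 2 * cs (tau d p hp) k ≤ 2 * (m ^ 2 * B) := by
    refine le_of_not_gt fun hlt => ?_
    have hev := hlim.eventually (lt_mem_nhds hlt)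
    obtain ⟨n₀, hn₀⟩ := eventually_atTop.1 hev
    obtain ⟨n, hn, hσ⟩ := hB (max n₀ 1)
    have h1 := hn₀ n ((le_max_left _ _).trans hn)
    have hn1 : (0 : ℝ) < (n : ℝ) ^ d := by
      have : (0 : ℝ) < n := by exact_mod_cast (le_max_right n₀ 1).trans hn
      positivity
    rw [← wave_sum] at h1
    have h2 := qf_threshold p hp _ _ (fun e => (W k e).re) m hm0
      (fun e _ => (Complex.abs_re_le_norm _).trans (hWn e)) (fun u => (hσ u).1)
    have h3 := qf_threshold p hp _ _ (fun e => (W k e).im) m hm0
      (fun e _ => (Complex.abs_im_le_norm _).trans (hWn e)) (fun u => (hσ u).2)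
    rw [lt_div_iff₀ hn1] at h1
    nlinarith
  rw [hmsq] at hfin
  rw [hG, le_div_iff₀ hd0]
  have h6 : (2 * d * (1 - Dhat k)) * ((cs (tau d p hp) k * (1 - Dhat k)) * d) ≤
      (2 * d * (1 - Dhat k)) * B := by nlinarith
  exact le_of_mul_le_mul_left h6 hm2

theorem W_re (k : Fin d → ℝ) (e : (Fin d → ℤ) × Fin d) :
    (W k e).re = Real.cos (dot k e.1) - Real.cos (dot k (top e)) := by
  have h : W k e = Complex.exp ((-(dot k e.1) : ℝ) * Complex.I) -
      Complex.exp ((-(dot k (top e)) : ℝ) * Complex.I) := by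
    unfold W cc top
    rw [sub_mul, one_mul, ← Complex.exp_add, dot_add, dot_single]
    congr 2
    push_cast
    ring
  rw [h, Complex.sub_re, Complex.exp_ofReal_mul_I_re, Complex.exp_ofReal_mul_I_re, Real.cos_neg, Real.cos_neg]

theorem W_im (k : Fin d → ℝ) (e : (Fin d → ℤ) × Fin d) :
    (W k e).im = Real.cos (dot k e.1 + Real.pi / 2) - Real.cos (dot k (top e) + Real.pi / 2) := by
  have h : W k e = Complex.exp ((-(dot k e.1) : ℝ) * Complex.I) -
      Complex.exp ((-(dot k (top e)) : ℝ) * Complex.I) := by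
    unfold W cc top
    rw [sub_mul, one_mul, ← Complex.exp_add, dot_add, dot_single]
    congr 2
    push_cast
    ring
  rw [h, Complex.sub_im, Complex.exp_ofReal_mul_I_im, Complex.exp_ofReal_mul_I_im, Real.sin_neg, Real.sin_neg,
    Real.cos_add_pi_div_two, Real.cos_add_pi_div_two]

/-- bounds for the form below the critical point hold at the critical point -/
theorem qf_at_pc (E : Finset ((Fin d → ℤ) × Fin d)) (F : (Fin d → ℤ) × Fin d → ℝ) (B : ℝ)
    (h : ∀ (p : NNReal) (hp : p ≤ 1), Summable (tau d p hp) → qf d p hp E F ≤ B) :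
    qf d (sSup (Sub d)) (sSup_Sub_le d) E F ≤ B := by
  obtain ⟨q, h1, h2, h3, h4⟩ := exists_seq d
  have h5 : Tendsto (fun m => qf d (q m) (h2 m).choose E F) atTop
      (𝓝 (qf d (sSup (Sub d)) (sSup_Sub_le d) E F)) := by
    simp_rw [qf_ker]
    refine tendsto_finsetSum _ fun e _ => tendsto_finsetSum _ fun f _ => ?_
    refine Tendsto.const_mul _ ?_
    unfold ker
    have ht := fun x => tau_tendsto (d := d) _ (sSup_Sub_le d) q (fun m => (h2 m).choose) h1 h3 h4 x
    exact (((ht _).sub (ht _)).sub (ht _)).add (ht _)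
  exact le_of_tendsto' h5 fun m => h _ _ (h2 m).choose_spec

end Pool.Agent.H74.IB
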